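import Mathlib

/-!
Finite computations with the base frequencies `(1, 1, 3)`, `(2, 0, 6)`, `(4, 6, 6)`, `(8, 12, 0)` and
their images under the symmetries of the cube.
-/

set_option autoImplicit false

namespace Pool.Agent.Y302.Trunc

/-- Integer vectors, for computations. -/
abbrev Z3 := ℤ × ℤ × ℤ

/-- The four orbits. -/
def L : ℕ → List Z3
  | 0 => [(-3, -1, -1), (-3, -1, 1), (-3, 1, -1), (-3, 1, 1), (-1, -3, -1), (-1, -3, 1), (-1, -1, -3), (-1, -1, 3), (-1, 1, -3), (-1, 1, 3), (-1, 3, -1), (-1, 3, 1), (1, -3, -1), (1, -3, 1), (1, -1, -3), (1, -1, 3), (1, 1, -3), (1, 1, 3), (1, 3, -1), (1, 3, 1), (3, -1, -1), (3, -1, 1), (3, 1, -1), (3, 1, 1)]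
  | 1 => [(-6, -2, 0), (-6, 0, -2), (-6, 0, 2), (-6, 2, 0), (-2, -6, 0), (-2, 0, -6), (-2, 0, 6), (-2, 6, 0), (0, -6, -2), (0, -6, 2), (0, -2, -6), (0, -2, 6), (0, 2, -6), (0, 2, 6), (0, 6, -2), (0, 6, 2), (2, -6, 0), (2, 0, -6), (2, 0, 6), (2, 6, 0), (6, -2, 0), (6, 0, -2), (6, 0, 2), (6, 2, 0)]
  | 2 => [(-6, -6, -4), (-6, -6, 4), (-6, -4, -6), (-6, -4, 6), (-6, 4, -6), (-6, 4, 6), (-6, 6, -4), (-6, 6, 4), (-4, -6, -6), (-4, -6, 6), (-4, 6, -6), (-4, 6, 6), (4, -6, -6), (4, -6, 6), (4, 6, -6), (4, 6, 6), (6, -6, -4), (6, -6, 4), (6, -4, -6), (6, -4, 6), (6, 4, -6), (6, 4, 6), (6, 6, -4), (6, 6, 4)]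
  | 3 => [(-12, -8, 0), (-12, 0, -8), (-12, 0, 8), (-12, 8, 0), (-8, -12, 0), (-8, 0, -12), (-8, 0, 12), (-8, 12, 0), (0, -12, -8), (0, -12, 8), (0, -8, -12), (0, -8, 12), (0, 8, -12), (0, 8, 12), (0, 12, -8), (0, 12, 8), (8, -12, 0), (8, 0, -12), (8, 0, 12), (8, 12, 0), (12, -8, 0), (12, 0, -8), (12, 0, 8), (12, 8, 0)]
  | _ => []

/-- The amplitude as a function of a coordinate. -/
def f : ℕ → ℤ → ℤ
  | 0, z => if z = 1 then 3 else if z = -1 then -3 else if z = 3 then -2 else if z = -3 then 2 else 0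
  | 1, z => if z = 2 then 3 else if z = -2 then -3 else if z = 6 then -1 else if z = -6 then 1 else 0
  | 2, z => if z = 4 then -3 else if z = -4 then 3 else if z = 6 then 1 else if z = -6 then -1 else 0
  | 3, z => if z = 8 then -3 else if z = -8 then 3 else if z = 12 then 2
      else if z = -12 then -2 else 0
  | _, _ => 0

/-- sorted key of the absolute values -/
def key (v : Z3) : ℕ :=
  let a := v.1.natAbs
  let b := v.2.1.natAbs
  let c := v.2.2.natAbs
  let lo := min a (min b c)
  let hi := max a (max b c)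
  lo + 1000 * (a + b + c - lo - hi) + 1000000 * hi

/-- the keys of the levels `0, ..., 7` -/
def keyOf : ℕ → ℕ
  | 0 => 3001001
  | 1 => 6002000
  | 2 => 6006004
  | 3 => 12008000
  | 4 => 24008008
  | 5 => 48016000
  | 6 => 48048032
  | 7 => 96064000
  | _ => 1

/-- admissible triads -/
def good (n m j : ℕ) : Bool :=
  (n == m && j == n + 1) || (j == n && m == n + 1) || (j == m && n == m + 1)

def clsOK (i1 i2 : ℕ) : Bool :=
  (L i1).all fun v => (L i2).all fun w =>
    let k := key (v + w)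
    (List.range 8).all fun j => !(k == keyOf j) || good i1 i2 j

/-- the levels `0, ..., 4`, as lists -/
def Lx : ℕ → List Z3
  | 4 => (L 0).map fun v => (8 * v.1, 8 * v.2.1, 8 * v.2.2)
  | i => L i

/-- amplitudes of the levels `0, ..., 4` -/
def fx : ℕ → ℤ → ℤ
  | 4, z => f 0 (z / 8)
  | i, z => f i z

/-- coordinates -/
def co (p : ℕ) (v : Z3) : ℤ := match p with
  | 0 => v.1
  | 1 => v.2.1
  | _ => v.2.2

/-- The summand of the quadratic term: `v` at level `i`, `l - v` at level `j`. -/
def term (i j : ℕ) (l v : Z3) (p : ℕ) : ℤ :=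
  let w := l - v
  if key w == keyOf j then
    (fx i v.1 * w.1 + fx i v.2.1 * w.2.1 + fx i v.2.2 * w.2.2) * fx j (co p w)
  else 0

/-- denominators -/
def den : ℕ → ℤ
  | 0 => 5 | 1 => 11 | 2 => 13 | 3 => 11 | _ => 1
/-- numerators of the forward coefficients -/
def num : ℕ → ℤ
  | 0 => 66 | 1 => 120 | 2 => 264 | 3 => 312 | _ => 0
/-- numerators of the pressure coefficients -/
def pin : ℕ → ℤ
  | 0 => 9 | 1 => 9 | 2 => 18 | 3 => 18 | _ => 0
/-- backward coefficients -/
def bac : ℕ → ℤ
  | 0 => 6 | 1 => 12 | 2 => 24 | 3 => 48 | _ => 0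

/-- forward identity at level `i` -/
def fwdOK (i : ℕ) : Bool :=
  (Lx (i + 1)).all fun l => (List.range 3).all fun p =>
    den i * ((Lx i).map fun v => term i i l v p).sum
      == -num i * fx (i + 1) (co p l) + pin i * co p l

/-- backward identity at level `i` -/
def bckOK (i : ℕ) : Bool :=
  (Lx i).all fun l => (List.range 3).all fun p =>
    ((Lx i).map fun v => term i (i + 1) l v p).sum
      + ((Lx (i + 1)).map fun v => term (i + 1) i l v p).sum == bac i * fx i (co p l)

theorem fwd0 : fwdOK 0 = true := by decide +kernel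
theorem fwd1 : fwdOK 1 = true := by decide +kernel
theorem fwd2 : fwdOK 2 = true := by decide +kernel
theorem fwd3 : fwdOK 3 = true := by decide +kernel
theorem bck0 : bckOK 0 = true := by decide +kernel
theorem bck1 : bckOK 1 = true := by decide +kernel
theorem bck2 : bckOK 2 = true := by decide +kernel
theorem bck3 : bckOK 3 = true := by decide +kernel

theorem cls00 : clsOK 0 0 = true := by decide +kernel
theorem cls01 : clsOK 0 1 = true := by decide +kernel
theorem cls02 : clsOK 0 2 = true := by decide +kernel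
theorem cls03 : clsOK 0 3 = true := by decide +kernel
theorem cls10 : clsOK 1 0 = true := by decide +kernel
theorem cls11 : clsOK 1 1 = true := by decide +kernel
theorem cls12 : clsOK 1 2 = true := by decide +kernel
theorem cls13 : clsOK 1 3 = true := by decide +kernel
theorem cls20 : clsOK 2 0 = true := by decide +kernel
theorem cls21 : clsOK 2 1 = true := by decide +kernel
theorem cls22 : clsOK 2 2 = true := by decide +kernel
theorem cls23 : clsOK 2 3 = true := by decide +kernel
theorem cls30 : clsOK 3 0 = true := by decide +kernel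
theorem cls31 : clsOK 3 1 = true := by decide +kernel
theorem cls32 : clsOK 3 2 = true := by decide +kernel
theorem cls33 : clsOK 3 3 = true := by decide +kernel

end Pool.Agent.Y302.Trunc
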