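import Pool.Agent.Y302.Trunc.Comp

/-!
The levels of the chain of frequencies.
-/

set_option autoImplicit false

open Finset

namespace Pool.Agent.Y302.Trunc

/-- Frequencies. -/
abbrev K3 := Fin 3 → ℤ

/-- Coordinates of a vector. -/
def toK (v : Z3) : K3 := fun p => co p v

lemma toK_inj : Function.Injective toK := by
  intro v w h
  have h0 := congrFun h 0
  have h1 := congrFun h 1
  have h2 := congrFun h 2
  simp only [toK, co, Fin.val_zero, Fin.val_one, Fin.val_two] at h0 h1 h2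
  obtain ⟨a, b, c⟩ := v
  obtain ⟨a', b', c'⟩ := w
  simp_all

lemma toK_sub (v w : Z3) : toK (v - w) = toK v - toK w := by
  funext p
  fin_cases p <;> rfl

lemma toK_add (v w : Z3) : toK (v + w) = toK v + toK w := by
  funext p
  fin_cases p <;> rfl

lemma toK_neg (v : Z3) : toK (-v) = -toK v := by
  funext p
  fin_cases p <;> rfl

lemma dec3 {a b c lo mid hi : ℕ} (hab : a ≤ b) (hbc : b ≤ c) (h1 : lo ≤ mid) (h2 : mid ≤ hi)
    (h3 : hi < 1000) (h : a + 1000 * b + 1000000 * c = lo + 1000 * mid + 1000000 * hi) :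
    a = lo ∧ b = mid ∧ c = hi := by
  have hc : c ≤ hi := by
    by_contra hcon
    have : 1000000 * (hi + 1) ≤ 1000000 * c := Nat.mul_le_mul_left _ (by omega)
    omega
  have hc' : c = hi := by
    by_contra hcon
    have : 1000000 * (c + 1) ≤ 1000000 * hi := Nat.mul_le_mul_left _ (by omega)
    omega
  subst hc'
  have hb : b ≤ mid := by
    by_contra hcon
    have : 1000 * (mid + 1) ≤ 1000 * b := Nat.mul_le_mul_left _ (by omega)
    omega
  have hb' : b = mid := by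
    by_contra hcon
    have : 1000 * (b + 1) ≤ 1000 * mid := Nat.mul_le_mul_left _ (by omega)
    omega
  subst hb'
  exact ⟨by omega, rfl, rfl⟩

/-- decoding the key -/
lemma key_decode {v : Z3} {lo mid hi : ℕ} (h1 : lo ≤ mid) (h2 : mid ≤ hi) (h3 : hi < 1000)
    (h : key v = lo + 1000 * mid + 1000000 * hi) :
    (v.1.natAbs = lo ∧ v.2.1.natAbs = mid ∧ v.2.2.natAbs = hi) ∨
    (v.1.natAbs = lo ∧ v.2.1.natAbs = hi ∧ v.2.2.natAbs = mid) ∨
    (v.1.natAbs = mid ∧ v.2.1.natAbs = lo ∧ v.2.2.natAbs = hi) ∨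
    (v.1.natAbs = mid ∧ v.2.1.natAbs = hi ∧ v.2.2.natAbs = lo) ∨
    (v.1.natAbs = hi ∧ v.2.1.natAbs = lo ∧ v.2.2.natAbs = mid) ∨
    (v.1.natAbs = hi ∧ v.2.1.natAbs = mid ∧ v.2.2.natAbs = lo) := by
  unfold key at h
  simp only at h
  generalize v.1.natAbs = a at *
  generalize v.2.1.natAbs = b at *
  generalize v.2.2.natAbs = c at *
  rcases le_total a b with h4 | h4 <;> rcases le_total b c with h5 | h5 <;>
    rcases le_total a c with h6 | h6 <;>
    simp only [min_eq_left, min_eq_right, max_eq_left, max_eq_right, h4, h5, h6] at h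
  · obtain ⟨r1, r2, r3⟩ := dec3 h4 h5 h1 h2 h3 (by omega : a + 1000 * b + 1000000 * c = _); omega
  · obtain ⟨r1, r2, r3⟩ := dec3 h4 h5 h1 h2 h3 (by omega : a + 1000 * b + 1000000 * c = _); omega
  · obtain ⟨r1, r2, r3⟩ := dec3 h6 h5 h1 h2 h3 (by omega : a + 1000 * c + 1000000 * b = _); omega
  · obtain ⟨r1, r2, r3⟩ := dec3 h6 h4 h1 h2 h3 (by omega : c + 1000 * a + 1000000 * b = _); omega
  · obtain ⟨r1, r2, r3⟩ := dec3 h4 h6 h1 h2 h3 (by omega : b + 1000 * a + 1000000 * c = _); omega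
  · obtain ⟨r1, r2, r3⟩ := dec3 h5 h6 h1 h2 h3 (by omega : b + 1000 * c + 1000000 * a = _); omega
  · obtain ⟨r1, r2, r3⟩ := dec3 h5 h4 h1 h2 h3 (by omega : c + 1000 * b + 1000000 * a = _); omega
  · obtain ⟨r1, r2, r3⟩ := dec3 h5 h4 h1 h2 h3 (by omega : c + 1000 * b + 1000000 * a = _); omega

lemma mem_of_abs {j : ℕ} (hj : j ≤ 4) {v : Z3} (h : key v = keyOf j) : v ∈ Lx j := by
  obtain ⟨a, b, c⟩ := v
  have hs : ∀ (z : ℤ) (n : ℕ), z.natAbs = n → z = n ∨ z = -n := fun z n h => by omega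
  interval_cases j
  · have := key_decode (lo := 1) (mid := 1) (hi := 3) (by norm_num) (by norm_num) (by norm_num)
      (by rw [h]; rfl)
    simp only at this
    rcases this with ⟨h1, h2, h3⟩ | ⟨h1, h2, h3⟩ | ⟨h1, h2, h3⟩ | ⟨h1, h2, h3⟩ | ⟨h1, h2, h3⟩ |
      ⟨h1, h2, h3⟩ <;> rcases hs _ _ h1 with rfl | rfl <;> rcases hs _ _ h2 with rfl | rfl <;>
      rcases hs _ _ h3 with rfl | rfl <;> decide
  · have := key_decode (lo := 0) (mid := 2) (hi := 6) (by norm_num) (by norm_num) (by norm_num)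
      (by rw [h]; rfl)
    simp only at this
    rcases this with ⟨h1, h2, h3⟩ | ⟨h1, h2, h3⟩ | ⟨h1, h2, h3⟩ | ⟨h1, h2, h3⟩ | ⟨h1, h2, h3⟩ |
      ⟨h1, h2, h3⟩ <;> rcases hs _ _ h1 with rfl | rfl <;> rcases hs _ _ h2 with rfl | rfl <;>
      rcases hs _ _ h3 with rfl | rfl <;> decide
  · have := key_decode (lo := 4) (mid := 6) (hi := 6) (by norm_num) (by norm_num) (by norm_num)
      (by rw [h]; rfl)
    simp only at this
    rcases this with ⟨h1, h2, h3⟩ | ⟨h1, h2, h3⟩ | ⟨h1, h2, h3⟩ | ⟨h1, h2, h3⟩ | ⟨h1, h2, h3⟩ |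
      ⟨h1, h2, h3⟩ <;> rcases hs _ _ h1 with rfl | rfl <;> rcases hs _ _ h2 with rfl | rfl <;>
      rcases hs _ _ h3 with rfl | rfl <;> decide
  · have := key_decode (lo := 0) (mid := 8) (hi := 12) (by norm_num) (by norm_num) (by norm_num)
      (by rw [h]; rfl)
    simp only at this
    rcases this with ⟨h1, h2, h3⟩ | ⟨h1, h2, h3⟩ | ⟨h1, h2, h3⟩ | ⟨h1, h2, h3⟩ | ⟨h1, h2, h3⟩ |
      ⟨h1, h2, h3⟩ <;> rcases hs _ _ h1 with rfl | rfl <;> rcases hs _ _ h2 with rfl | rfl <;>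
      rcases hs _ _ h3 with rfl | rfl <;> decide
  · have := key_decode (lo := 8) (mid := 8) (hi := 24) (by norm_num) (by norm_num) (by norm_num)
      (by rw [h]; rfl)
    simp only at this
    rcases this with ⟨h1, h2, h3⟩ | ⟨h1, h2, h3⟩ | ⟨h1, h2, h3⟩ | ⟨h1, h2, h3⟩ | ⟨h1, h2, h3⟩ |
      ⟨h1, h2, h3⟩ <;> rcases hs _ _ h1 with rfl | rfl <;> rcases hs _ _ h2 with rfl | rfl <;>
      rcases hs _ _ h3 with rfl | rfl <;> decide

lemma key_of_mem {j : ℕ} (hj : j ≤ 4) {v : Z3} (h : v ∈ Lx j) : key v = keyOf j := by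
  have h1 : ∀ j ≤ 4, (Lx j).all (fun v => key v == keyOf j) = true := by decide +kernel
  have h2 := List.all_eq_true.1 (h1 j hj) v h
  exact eq_of_beq h2

lemma mem_Lx_iff {j : ℕ} (hj : j ≤ 4) (v : Z3) : v ∈ Lx j ↔ key v = keyOf j :=
  ⟨key_of_mem hj, mem_of_abs hj⟩

lemma nodup_Lx (j : ℕ) (hj : j ≤ 4) : (Lx j).Nodup := by
  interval_cases j <;> decide +kernel

lemma Lx_eq {j : ℕ} (hj : j < 4) : Lx j = L j := by
  interval_cases j <;> rfl

lemma fx_eq {j : ℕ} (hj : j < 4) : fx j = f j := by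
  interval_cases j <;> rfl

lemma neg_mem_L {i : ℕ} {v : Z3} (h : v ∈ L i) : -v ∈ L i := by
  rcases lt_or_ge i 4 with hi | hi
  · have h1 : ∀ j < 4, (L j).all (fun v => decide (-v ∈ L j)) = true := by decide +kernel
    have h2 := List.all_eq_true.1 (h1 i hi) v h
    exact of_decide_eq_true h2
  · exfalso
    have : L i = [] := by
      unfold L
      split <;> first | omega | rfl
    rw [this] at h
    simp at h

lemma f_neg (i : ℕ) (z : ℤ) : f i (-z) = -f i z := by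
  unfold f
  split
  · split_ifs <;> omega
  · split_ifs <;> omega
  · split_ifs <;> omega
  · split_ifs <;> omega
  · simp

end Pool.Agent.Y302.Trunc
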