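import Pool.Agent.Y302.Trunc.Modes

/-!
The initial field in closed form.
-/

set_option autoImplicit false

open Set Filter Topology MeasureTheory

namespace Pool.Agent.Y302.Trunc

open Pool.Agent.H708R2.EulerSign (V)
open Pool.Agent.H708R2.EulerModes (ph)

/-- The initial velocity: for `{i, j, k} = {1, 2, 3}` its `i`-th component is
`3 sin(M xᵢ) (cos(M xⱼ) cos(3M xₖ) + cos(3M xⱼ) cos(M xₖ)) - 2 sin(3M xᵢ) cos(M xⱼ) cos(M xₖ)`. -/
noncomputable def datum (M : ℕ) (x : V) : V := fun i =>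
  3 * Real.sin (M * x i) * (Real.cos (M * x (i + 1)) * Real.cos (3 * M * x (i + 2))
      + Real.cos (3 * M * x (i + 1)) * Real.cos (M * x (i + 2)))
    - 2 * Real.sin (3 * M * x i) * Real.cos (M * x (i + 1)) * Real.cos (M * x (i + 2))

lemma Ef_zero_eq {M : ℕ} (hM : 0 < M) (x : V) (i : Fin 3) :
    Ef M 0 x i = ((L 0).map fun v => Real.sin ((v.1 : ℝ) * (M * x 0) + (v.2.1 : ℝ) * (M * x 1)
      + (v.2.2 : ℝ) * (M * x 2)) * (f 0 (co i v) : ℝ)).sum := by
  have hs := (sg_pos hM 0).ne'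
  have h1 : ((L 0).map fun v => Real.sin ((v.1 : ℝ) * (M * x 0) + (v.2.1 : ℝ) * (M * x 1)
      + (v.2.2 : ℝ) * (M * x 2)) * (f 0 (co i v) : ℝ)).sum
      = ∑ v ∈ (L 0).toFinset, Real.sin ((v.1 : ℝ) * (M * x 0) + (v.2.1 : ℝ) * (M * x 1)
      + (v.2.2 : ℝ) * (M * x 2)) * (f 0 (co i v) : ℝ) :=
    (List.sum_toFinset _ (nodup_Lx 0 (by norm_num))).symm
  rw [h1]
  have h2 : Ef M 0 x i = ∑ v ∈ Lev M 0, Real.sin (ph v x) * (am M 0 v i : ℝ) := by
    simp [Ef, amv]
  rw [h2]
  have h3 : Lev M 0 = ((L 0).toFinset).image fun v => sg M 0 • toK v := rfl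
  rw [h3, Finset.sum_image fun x _ y _ h => smul_toK_inj hs h]
  refine Finset.sum_congr rfl fun v hv => ?_
  have h4 : am M 0 (sg M 0 • toK v) i = f 0 (co i v) := am_smul hM 0 v i
  have h5 : ph (sg M 0 • toK v) x = (v.1 : ℝ) * (M * x 0) + (v.2.1 : ℝ) * (M * x 1)
      + (v.2.2 : ℝ) * (M * x 2) := by
    have e0 : (sg M 0 • toK v) 0 = M * v.1 := by simp [sg, toK, co]
    have e1 : (sg M 0 • toK v) 1 = M * v.2.1 := by simp [sg, toK, co]
    have e2 : (sg M 0 • toK v) 2 = M * v.2.2 := by simp [sg, toK, co]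
    rw [ph, Fin.sum_univ_three, e0, e1, e2]
    push_cast
    ring
  rw [h4, h5]

lemma sin_three (a b c : ℝ) : Real.sin (a + b + c)
    = Real.sin a * Real.cos b * Real.cos c + Real.cos a * Real.sin b * Real.cos c
      + Real.cos a * Real.cos b * Real.sin c - Real.sin a * Real.sin b * Real.sin c := by
  rw [Real.sin_add, Real.sin_add, Real.cos_add]
  ring

lemma Ef_zero {M : ℕ} (hM : 0 < M) (x : V) : Ef M 0 x = (8 : ℝ) • datum M x := by
  funext i
  rw [Ef_zero_eq hM]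
  rw [Pi.smul_apply, smul_eq_mul, datum]
  have e3 : ∀ y : ℝ, 3 * (M : ℝ) * y = 3 * (M * y) := fun y => by ring
  fin_cases i
  · simp only [Fin.zero_eta, Fin.isValue, zero_add, Fin.mk_one, Fin.reduceFinMk, Fin.reduceAdd, e3]
    generalize (M : ℝ) * x 0 = A
    generalize (M : ℝ) * x 1 = B
    generalize (M : ℝ) * x 2 = C
    simp only [L, List.map_cons, List.map_nil, List.sum_cons, List.sum_nil, co, f]
    norm_num [sin_three]
    ring
  · simp only [Fin.zero_eta, Fin.isValue, zero_add, Fin.mk_one, Fin.reduceFinMk, Fin.reduceAdd, e3]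
    generalize (M : ℝ) * x 0 = A
    generalize (M : ℝ) * x 1 = B
    generalize (M : ℝ) * x 2 = C
    simp only [L, List.map_cons, List.map_nil, List.sum_cons, List.sum_nil, co, f]
    norm_num [sin_three]
    ring
  · simp only [Fin.zero_eta, Fin.isValue, zero_add, Fin.mk_one, Fin.reduceFinMk, Fin.reduceAdd, e3]
    generalize (M : ℝ) * x 0 = A
    generalize (M : ℝ) * x 1 = B
    generalize (M : ℝ) * x 2 = C
    simp only [L, List.map_cons, List.map_nil, List.sum_cons, List.sum_nil, co, f]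
    norm_num [sin_three]
    ring

end Pool.Agent.Y302.Trunc
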