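import Pool.Agent.Y302.Trunc.Final
import Pool.Agent.Y302.Trunc.Datum

/-!
The main theorem on the Euler equations with removed modes.
-/

set_option autoImplicit false

open Set Filter Topology MeasureTheory
open scoped ContDiff

namespace Pool.Agent.Y302.Trunc

open Pool.Agent.H708R2.EulerSign (V)
open Pool.Agent.H708R2.EulerModes (cube)
open Pool.Agent.H708R2.EulerTypeI (nrm vort)
open Pool.Agent.Y302.KP

lemma uu_zero {M : ℕ} (hM : 0 < M) {a : ℕ → ℝ → ℝ} (h0 : a 0 0 = 1 / 8)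
    (hn : ∀ n, a (n + 1) 0 = 0) : uu M a 0 = datum M := by
  funext x
  unfold uu
  rw [tsum_eq_single 0]
  · rw [exa_of_nonneg le_rfl, h0, Ef_zero hM, smul_smul]
    norm_num
  · intro n hn'
    obtain ⟨m, rfl⟩ := Nat.exists_eq_succ_of_ne_zero hn'
    rw [exa_of_nonneg le_rfl, Nat.succ_eq_add_one, hn, zero_smul]

theorem main (M : ℕ) (hM : 0 < M) :
    ∃ R : Set (Fin 3 → ℤ),
      (∀ k ∈ R, -k ∈ R) ∧ (∀ k ∈ R, ∃ i, (M : ℤ) ≤ |k i|) ∧
      (∀ N : ℕ, 2 ≤ N → ({k ∈ R | ∀ i, |k i| ≤ N}.ncard : ℝ) ≤ 230400 * Real.log N ^ 2) ∧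
      ∃ (T : ℝ) (u : ℝ → V → V) (p : ℝ → V → ℝ),
        0 < T ∧ T ≤ 56 / M ∧
        IsSolutionWithout R (Ico 0 T) u p ∧ u 0 = datum M ∧
        (∀ t ∈ Ico 0 T, ContDiff ℝ ∞ (u t)) ∧
        (∀ t ∈ Ico 0 T, 39 / (T - t) ≤ ∫ x in cube, nrm (vort (u t) x)) ∧
        ∀ (T' : ℝ) (w : ℝ → V → V) (q : ℝ → V → ℝ),
          IsSolutionWithout R (Ico 0 T') w q → w 0 = datum M →
            T' ≤ T ∧ ∀ t ∈ Ico 0 T', w t = u t := by
  obtain ⟨a, Ts, T, h, h0, hn, hTs, hTs', hT, hdec, hrate⟩ := main_ode hM (δ := 1 / 8) (by norm_num)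
  have hu0 := uu_zero hM h0 hn
  refine ⟨Rset M, fun k hk => neg_mem_Rset hM hk, fun k hk => low_Rset hk, fun N hN => count hM hN, Ts, uu M a, pp M a, hTs, ?_,
    isSolution h hM hT hdec (fun k hk => hk.2.1) subset_rfl, hu0, fun t ht => uu_smooth h hM hT hdec ht,
    fun t ht => blowup_rate h hM hT hdec hrate ht, fun T' w q hw hw0 => ?_⟩
  · refine hTs'.trans (le_of_eq ?_)
    have : (M : ℝ) ≠ 0 := by exact_mod_cast hM.ne'
    field_simp
    norm_num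
  · rw [← hu0] at hw0
    have h1 := no_extension h hM hT hdec hrate (fun k hk => hk.2.1) subset_rfl hTs hw hw0
    exact ⟨h1, fun t ht => unique_before h hM hT hdec (fun k hk => hk.2.1) subset_rfl hw hw0 ht (ht.2.trans_le h1)⟩

end Pool.Agent.Y302.Trunc
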