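import Pool.Agent.Y302.Trunc.Levels

/-!
The chain of frequencies: the quadratic interactions.
-/

set_option autoImplicit false

open Finset

namespace Pool.Agent.Y302.Trunc

/-- The modes of the base level `i`, times `s`. -/
def LevX (s : ℤ) (i : ℕ) : Finset K3 := ((Lx i).toFinset).image fun v => s • toK v

/-- Amplitudes. -/
def amX (s : ℤ) (i : ℕ) (l : K3) (p : Fin 3) : ℤ := fx i (l p / s)

lemma smul_toK_inj {s : ℤ} (hs : s ≠ 0) : Function.Injective fun v : Z3 => s • toK v := by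
  intro v w h
  refine toK_inj (funext fun p => ?_)
  have := congrFun h p
  simp only [Pi.smul_apply, smul_eq_mul] at this
  exact mul_left_cancel₀ hs this

lemma mem_LevX {s : ℤ} (hs : s ≠ 0) {i : ℕ} (v : Z3) : s • toK v ∈ LevX s i ↔ v ∈ Lx i := by
  unfold LevX
  rw [Finset.mem_image]
  constructor
  · rintro ⟨w, hw, h⟩
    rw [← smul_toK_inj hs h]
    exact List.mem_toFinset.1 hw
  · intro h
    exact ⟨v, List.mem_toFinset.2 h, rfl⟩

lemma exists_of_mem_LevX {s : ℤ} {i : ℕ} {l : K3} (h : l ∈ LevX s i) :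
    ∃ v ∈ Lx i, l = s • toK v := by
  unfold LevX at h
  rw [Finset.mem_image] at h
  obtain ⟨v, hv, rfl⟩ := h
  exact ⟨v, List.mem_toFinset.1 hv, rfl⟩

lemma amX_smul {s : ℤ} (hs : s ≠ 0) (i : ℕ) (v : Z3) (p : Fin 3) :
    amX s i (s • toK v) p = fx i (co p v) := by
  simp only [amX, Pi.smul_apply, smul_eq_mul, toK]
  rw [Int.mul_ediv_cancel_left _ hs]

/-- The symbol of the quadratic interaction of two families of modes. -/
def quadSym (S : Finset K3) (e : K3 → Fin 3 → ℤ) (S' : Finset K3) (e' : K3 → Fin 3 → ℤ) (l : K3)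
    (p : Fin 3) : ℤ :=
  ∑ v ∈ S, if l - v ∈ S' then (∑ q, e v q * (l - v) q) * e' (l - v) p else 0

lemma quadSym_eq {s : ℤ} (hs : s ≠ 0) {i j : ℕ} (hi : i ≤ 4) (hj : j ≤ 4) (w : Z3) (p : Fin 3) :
    quadSym (LevX s i) (amX s i) (LevX s j) (amX s j) (s • toK w) p
      = s * ((Lx i).map fun v => term i j w v p).sum := by
  unfold quadSym
  have h1 : ((Lx i).map fun v => term i j w v p).sum
      = ∑ v ∈ (Lx i).toFinset, term i j w v p := (List.sum_toFinset _ (nodup_Lx i hi)).symm
  rw [h1]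
  conv_lhs => rw [LevX]
  rw [Finset.sum_image fun x _ y _ h => smul_toK_inj hs h, Finset.mul_sum]
  refine Finset.sum_congr rfl fun v hv => ?_
  have h2 : s • toK w - s • toK v = s • toK (w - v) := by rw [toK_sub, smul_sub]
  rw [h2]
  simp only [mem_LevX hs, mem_Lx_iff hj, amX_smul hs, term, beq_iff_eq]
  split_ifs with h3
  · simp only [Fin.sum_univ_three, Pi.smul_apply, smul_eq_mul, toK]
    simp only [co, Fin.val_zero, Fin.val_one, Fin.val_two]
    ring
  · simp

/-- The scale of level `n`. -/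
def sg (M n : ℕ) : ℤ := M * 8 ^ (n / 4)

/-- The modes of level `n`. -/
def Lev (M n : ℕ) : Finset K3 := LevX (sg M n) (n % 4)

/-- The amplitudes of level `n`. -/
def am (M n : ℕ) (l : K3) (p : Fin 3) : ℤ := amX (sg M n) (n % 4) l p

lemma sg_pos {M : ℕ} (hM : 0 < M) (n : ℕ) : 0 < sg M n := by
  unfold sg; positivity

lemma Lev_succ (M n : ℕ) : Lev M (n + 1) = LevX (sg M n) (n % 4 + 1) := by
  unfold Lev
  have h4 : n % 4 < 4 := Nat.mod_lt _ (by norm_num)
  rcases Nat.lt_or_ge (n % 4) 3 with h | h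
  · have h1 : (n + 1) % 4 = n % 4 + 1 := by omega
    have h2 : (n + 1) / 4 = n / 4 := by omega
    rw [h1, sg, sg, h2]
  · have h0 : n % 4 = 3 := by omega
    have h1 : (n + 1) % 4 = 0 := by omega
    have h2 : (n + 1) / 4 = n / 4 + 1 := by omega
    rw [h1, h0]
    have h3 : sg M (n + 1) = 8 * sg M n := by
      unfold sg; rw [h2, pow_succ]; ring
    rw [h3]
    unfold LevX
    ext l
    simp only [Finset.mem_image, List.mem_toFinset]
    constructor
    · rintro ⟨v, hv, rfl⟩
      refine ⟨(8 * v.1, 8 * v.2.1, 8 * v.2.2), List.mem_map.2 ⟨v, hv, rfl⟩, ?_⟩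
      funext p
      fin_cases p <;> simp [toK, co] <;> ring
    · rintro ⟨w, hw, rfl⟩
      obtain ⟨v, hv, rfl⟩ := List.mem_map.1 hw
      refine ⟨v, hv, ?_⟩
      funext p
      fin_cases p <;> simp [toK, co] <;> ring

lemma am_succ (M n : ℕ) (l : K3) (p : Fin 3) :
    am M (n + 1) l p = amX (sg M n) (n % 4 + 1) l p := by
  unfold am amX
  have h4 : n % 4 < 4 := Nat.mod_lt _ (by norm_num)
  rcases Nat.lt_or_ge (n % 4) 3 with h | h
  · have h1 : (n + 1) % 4 = n % 4 + 1 := by omega
    have h2 : (n + 1) / 4 = n / 4 := by omega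
    rw [h1, sg, sg, h2]
  · have h0 : n % 4 = 3 := by omega
    have h1 : (n + 1) % 4 = 0 := by omega
    have h2 : (n + 1) / 4 = n / 4 + 1 := by omega
    rw [h1, h0]
    have h3 : sg M (n + 1) = sg M n * 8 := by
      unfold sg; rw [h2, pow_succ]; ring
    rw [h3]
    have h5 : 0 ≤ sg M n := by unfold sg; positivity
    rw [← Int.ediv_ediv_of_nonneg h5]
    rfl

lemma am_eq (M n : ℕ) : am M n = amX (sg M n) (n % 4) := rfl

lemma am_succ' (M n : ℕ) : am M (n + 1) = amX (sg M n) (n % 4 + 1) :=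
  funext fun l => funext fun p => am_succ M n l p

lemma fwd_all : ∀ i < 4, fwdOK i = true := by
  intro i hi
  interval_cases i
  · exact fwd0
  · exact fwd1
  · exact fwd2
  · exact fwd3

lemma bck_all : ∀ i < 4, bckOK i = true := by
  intro i hi
  interval_cases i
  · exact bck0
  · exact bck1
  · exact bck2
  · exact bck3

lemma cls_all : ∀ i < 4, ∀ j < 4, clsOK i j = true := by
  intro i hi j hj
  interval_cases i <;> interval_cases j
  exacts [cls00, cls01, cls02, cls03, cls10, cls11, cls12, cls13, cls20, cls21, cls22, cls23,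
    cls30, cls31, cls32, cls33]

/-- Forward interactions. -/
theorem forward {M : ℕ} (hM : 0 < M) (n : ℕ) {l : K3} (hl : l ∈ Lev M (n + 1)) (p : Fin 3) :
    den (n % 4) * quadSym (Lev M n) (am M n) (Lev M n) (am M n) l p
      = -(sg M n * num (n % 4)) * am M (n + 1) l p + pin (n % 4) * l p := by
  have hi : n % 4 < 4 := Nat.mod_lt _ (by norm_num)
  have hs := (sg_pos hM n).ne'
  rw [Lev_succ] at hl
  obtain ⟨w, hw, rfl⟩ := exists_of_mem_LevX hl
  rw [am_succ', amX_smul hs, Lev, am_eq, quadSym_eq hs hi.le hi.le]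
  have h1 := List.all_eq_true.1 (fwd_all _ hi) w hw
  have h2 := List.all_eq_true.1 h1 p (List.mem_range.2 p.isLt)
  have h3 := eq_of_beq h2
  simp only [Pi.smul_apply, smul_eq_mul, toK]
  linear_combination (sg M n) * h3

/-- Backward interactions. -/
theorem backward {M : ℕ} (hM : 0 < M) (n : ℕ) {l : K3} (hl : l ∈ Lev M n) (p : Fin 3) :
    quadSym (Lev M n) (am M n) (Lev M (n + 1)) (am M (n + 1)) l p
      + quadSym (Lev M (n + 1)) (am M (n + 1)) (Lev M n) (am M n) l p
      = sg M n * bac (n % 4) * am M n l p := by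
  have hi : n % 4 < 4 := Nat.mod_lt _ (by norm_num)
  have hs := (sg_pos hM n).ne'
  rw [Lev] at hl
  obtain ⟨w, hw, rfl⟩ := exists_of_mem_LevX hl
  rw [am_succ', am_eq, amX_smul hs, Lev_succ, Lev, quadSym_eq hs hi.le (by omega),
    quadSym_eq hs (by omega) hi.le]
  have h1 := List.all_eq_true.1 (bck_all _ hi) w hw
  have h2 := List.all_eq_true.1 h1 p (List.mem_range.2 p.isLt)
  have h3 := eq_of_beq h2
  linear_combination (sg M n) * h3

end Pool.Agent.Y302.Trunc
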