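import Pool.Agent.Y302.Trunc.Modes
import Pool.Agent.Y302.KP.Concrete

/-!
Fourier coefficients of the residual.
-/

set_option autoImplicit false

open Set Filter Topology MeasureTheory
open scoped ContDiff

namespace Pool.Agent.Y302.Trunc

open Pool.Agent.H708R2.EulerSign (V Periodic3 Dom dom_lt_top dom_meas)
open Pool.Agent.H708R2.EulerModes
open Pool.Agent.Y302.KP (Fc gc sr)

/-- Half the volume of the period cell. -/
noncomputable def vc : ℝ := (volume Dom).toReal / 2

/-- `g` is continuous and periodic, and its sine coefficient at `l` is `c`. -/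
structure HasSC (l : K3) (g : V → ℝ) (c : ℝ) : Prop where
  cont : Continuous g
  per : Periodic3 g
  int : ∫ x in Dom, g x * Real.sin (ph l x) = c

variable {l : K3} {M : ℕ}

lemma HasSC.integrable {g : V → ℝ} {c : ℝ} (h : HasSC l g c) :
    IntegrableOn (fun x => g x * Real.sin (ph l x)) Dom := by
  refine Periodic3.integrableOn ?_ (h.cont.mul (Real.continuous_sin.comp (ph_contDiff l).continuous))
  intro j x
  have := sin_periodic l j x
  simp only at this ⊢
  rw [this, h.per j x]

lemma HasSC.zero : HasSC l (fun _ => 0) 0 := ⟨continuous_const, fun _ _ => rfl, by simp⟩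

lemma HasSC.add {g h : V → ℝ} {c d : ℝ} (hg : HasSC l g c) (hh : HasSC l h d) :
    HasSC l (fun x => g x + h x) (c + d) := by
  refine ⟨hg.cont.add hh.cont, fun j x => by rw [hg.per, hh.per], ?_⟩
  have e : ∀ x, (g x + h x) * Real.sin (ph l x)
      = g x * Real.sin (ph l x) + h x * Real.sin (ph l x) := fun x => by ring
  simp only [e]
  rw [integral_add hg.integrable hh.integrable, hg.int, hh.int]

lemma HasSC.const_mul {g : V → ℝ} {c : ℝ} (hg : HasSC l g c) (r : ℝ) :
    HasSC l (fun x => r * g x) (r * c) := by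
  refine ⟨continuous_const.mul hg.cont, fun j x => by rw [hg.per], ?_⟩
  have e : ∀ x, r * g x * Real.sin (ph l x) = r * (g x * Real.sin (ph l x)) := fun x => by ring
  simp only [e]
  rw [integral_const_mul, hg.int]

lemma HasSC.sum {ι : Type*} (s : Finset ι) {g : ι → V → ℝ} {c : ι → ℝ}
    (h : ∀ j ∈ s, HasSC l (g j) (c j)) : HasSC l (fun x => ∑ j ∈ s, g j x) (∑ j ∈ s, c j) := by
  classical
  induction s using Finset.induction_on with
  | empty => simpa using HasSC.zero
  | insert a s ha ih =>
    simp only [Finset.sum_insert ha]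
    exact (h a (Finset.mem_insert_self _ _)).add
      (ih fun j hj => h j (Finset.mem_insert_of_mem hj))

lemma HasSC.congr {g h : V → ℝ} {c d : ℝ} (hg : HasSC l g c) (h1 : ∀ x, h x = g x) (h2 : d = c) :
    HasSC l h d := by
  have : h = g := funext h1
  rw [this, h2]; exact hg

/-- delta -/
noncomputable def dl (k l : K3) : ℝ := (if k = l then 1 else 0) - (if k = -l then 1 else 0)

lemma HasSC.sin (k : K3) : HasSC l (fun x => Real.sin (ph k x)) (vc * dl k l) := by
  refine ⟨Real.continuous_sin.comp (ph_contDiff k).continuous, sin_periodic k, ?_⟩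
  have e : ∀ x, Real.sin (ph k x) * Real.sin (ph l x)
      = Real.cos (ph (k - l) x) * (1 / 2) - Real.cos (ph (k + l) x) * (1 / 2) := by
    intro x
    rw [ph_sub_left, ph_add_left, Real.cos_sub, Real.cos_add]; ring
  simp only [e]
  rw [integral_sub ((integrable_cos _).mul_const _) ((integrable_cos _).mul_const _),
    integral_mul_const, integral_mul_const, cos_moment, cos_moment, dl, vc]
  have h1 : (k - l = 0) ↔ k = l := sub_eq_zero
  have h2 : (k + l = 0) ↔ k = -l := add_eq_zero_iff_eq_neg
  simp only [h1, h2]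
  split_ifs <;> ring

lemma hasSC_Ef (hM : 0 < M) (n : ℕ) (i : Fin 3) :
    HasSC l (fun x => Ef M n x i) (vc * (if l ∈ Lev M n then 2 * (am M n l i : ℝ) else 0)) := by
  have h1 : HasSC l (fun x => ∑ v ∈ Lev M n, (am M n v i : ℝ) * Real.sin (ph v x))
      (∑ v ∈ Lev M n, (am M n v i : ℝ) * (vc * dl v l)) :=
    HasSC.sum _ fun v _ => (HasSC.sin v).const_mul _
  refine h1.congr (fun x => ?_) ?_
  · simp only [Ef, Finset.sum_apply, Pi.smul_apply, smul_eq_mul, amv]
    exact Finset.sum_congr rfl fun v _ => mul_comm _ _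
  · have e : ∀ v, (am M n v i : ℝ) * (vc * dl v l)
        = vc * ((if v = l then (am M n v i : ℝ) else 0) - (if v = -l then (am M n v i : ℝ) else 0)) := by
      intro v; unfold dl; split_ifs <;> ring
    simp only [e]
    rw [← Finset.mul_sum, Finset.sum_sub_distrib, Finset.sum_ite_eq', Finset.sum_ite_eq']
    by_cases hl : l ∈ Lev M n
    · have hl' := neg_mem_Lev hM hl
      rw [if_pos hl, if_pos hl, if_pos hl', am_neg hM hl]
      push_cast; ring
    · have hl' : -l ∉ Lev M n := fun h => hl (by simpa using neg_mem_Lev hM h)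
      rw [if_neg hl, if_neg hl, if_neg hl', sub_zero]

lemma hasSC_Pf (hM : 0 < M) (n : ℕ) (i : Fin 3) :
    HasSC l (fun x => fderiv ℝ (Pf M n) x (Pi.single i 1))
      (vc * (if l ∈ Lev M n then -2 * (l i : ℝ) else 0)) := by
  have h1 : HasSC l (fun x => ∑ v ∈ Lev M n, (-(v i : ℝ)) * Real.sin (ph v x))
      (∑ v ∈ Lev M n, (-(v i : ℝ)) * (vc * dl v l)) :=
    HasSC.sum _ fun v _ => (HasSC.sin v).const_mul _
  refine h1.congr (fun x => ?_) ?_
  · rw [fderiv_Pf]
    exact Finset.sum_congr rfl fun v _ => by rw [ph_single]; ring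
  · have e : ∀ v : K3, (-(v i : ℝ)) * (vc * dl v l)
        = vc * ((if v = l then -(v i : ℝ) else 0) - (if v = -l then -(v i : ℝ) else 0)) := by
      intro v; unfold dl; split_ifs <;> ring
    simp only [e]
    rw [← Finset.mul_sum, Finset.sum_sub_distrib, Finset.sum_ite_eq', Finset.sum_ite_eq']
    by_cases hl : l ∈ Lev M n
    · have hl' := neg_mem_Lev hM hl
      rw [if_pos hl, if_pos hl, if_pos hl', Pi.neg_apply]
      push_cast; ring
    · have hl' : -l ∉ Lev M n := fun h => hl (by simpa using neg_mem_Lev hM h)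
      rw [if_neg hl, if_neg hl, if_neg hl', sub_zero]

/-- The interaction coefficient, real version. -/
noncomputable def qs (M n m : ℕ) (l : K3) (i : Fin 3) : ℝ :=
  ∑ v ∈ Lev M n, ∑ w ∈ Lev M m,
    if v + w = l then (∑ q, (am M n v q : ℝ) * (w q : ℝ)) * (am M m w i : ℝ) else 0

lemma qs_eq (n m : ℕ) (l : K3) (i : Fin 3) :
    qs M n m l i = (quadSym (Lev M n) (am M n) (Lev M m) (am M m) l i : ℤ) := by
  unfold qs quadSym
  push_cast
  refine Finset.sum_congr rfl fun v _ => ?_
  have e : ∀ w : K3, (v + w = l) ↔ w = l - v := fun w => by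
    constructor
    · intro h; rw [← h]; abel
    · intro h; rw [h]; abel
  simp only [e]
  rw [Finset.sum_ite_eq']

lemma qs_neg (hM : 0 < M) (n m : ℕ) (l : K3) (i : Fin 3) : qs M n m (-l) i = -qs M n m l i := by
  unfold qs
  rw [← sum_neg_Lev hM, ← Finset.sum_neg_distrib]
  refine Finset.sum_congr rfl fun v hv => ?_
  rw [← sum_neg_Lev hM, ← Finset.sum_neg_distrib]
  refine Finset.sum_congr rfl fun w hw => ?_
  have e : (-v + -w = -l) ↔ v + w = l := by rw [← neg_add, neg_inj]
  simp only [e, am_neg hM hw, am_neg hM hv, Pi.neg_apply]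
  split_ifs
  · have : ∑ q, ((-am M n v q : ℤ) : ℝ) * ((-w q : ℤ) : ℝ)
        = ∑ q, (am M n v q : ℝ) * (w q : ℝ) :=
      Finset.sum_congr rfl fun q _ => by push_cast; ring
    rw [this]; push_cast; ring
  · simp

lemma continuous_quad (n m : ℕ) (i : Fin 3) :
    Continuous (fun x => fderiv ℝ (Ef M m) x (Ef M n x) i) := by
  have h1 : Continuous (fderiv ℝ (Ef M m)) :=
    (Ef_contDiff (M := M) m).continuous_fderiv (by simp)
  exact (continuous_apply i).comp (h1.clm_apply (Ef_contDiff n).continuous)

lemma hasSC_quad (hM : 0 < M) (n m : ℕ) (i : Fin 3) :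
    HasSC l (fun x => fderiv ℝ (Ef M m) x (Ef M n x) i) (vc * (2 * qs M n m l i)) := by
  have h1 : HasSC l (fun x => ∑ v ∈ Lev M n, ∑ w ∈ Lev M m,
      ((∑ q, (am M n v q : ℝ) * (w q : ℝ)) * (am M m w i : ℝ)) * Real.sin (ph (v + w) x))
      (∑ v ∈ Lev M n, ∑ w ∈ Lev M m,
        ((∑ q, (am M n v q : ℝ) * (w q : ℝ)) * (am M m w i : ℝ)) * (vc * dl (v + w) l)) :=
    HasSC.sum _ fun v _ => HasSC.sum _ fun w _ => (HasSC.sin _).const_mul _
  refine h1.congr (fun x => ?_) ?_
  · rw [quad_eq hM]
    simp only [Finset.sum_apply, Pi.smul_apply, smul_eq_mul, amv]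
    exact Finset.sum_congr rfl fun v _ => Finset.sum_congr rfl fun w _ => by ring
  · have e : ∀ v w : K3, ((∑ q, (am M n v q : ℝ) * (w q : ℝ)) * (am M m w i : ℝ))
          * (vc * dl (v + w) l)
        = vc * ((if v + w = l then (∑ q, (am M n v q : ℝ) * (w q : ℝ)) * (am M m w i : ℝ) else 0)
          - (if v + w = -l then (∑ q, (am M n v q : ℝ) * (w q : ℝ)) * (am M m w i : ℝ) else 0)) := by
      intro v w; unfold dl; split_ifs <;> ring
    simp only [e, ← Finset.mul_sum, Finset.sum_sub_distrib]
    have h2 := qs_neg hM n m l i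
    unfold qs at h2 ⊢
    rw [h2]; ring

/-- Pressure coefficients. -/
noncomputable def pc : ℕ → ℝ
  | 0 => 0
  | n + 1 => (pin (n % 4) : ℝ) / (den (n % 4) : ℝ)

lemma den_ne (n : ℕ) : (den (n % 4) : ℝ) ≠ 0 := by
  have h4 : n % 4 < 4 := Nat.mod_lt _ (by norm_num)
  generalize n % 4 = k at *
  interval_cases k <;> norm_num [den]

lemma sr_eq (n : ℕ) : sr M n = (sg M n : ℝ) := by
  unfold sr sg; push_cast; rfl

lemma qs_forward (hM : 0 < M) (n : ℕ) (hl : l ∈ Lev M (n + 1)) (i : Fin 3) :
    qs M n n l i = -Fc M (n + 1) * (am M (n + 1) l i : ℝ) + pc (n + 1) * (l i : ℝ) := by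
  have h := forward hM n hl i
  have h' : (den (n % 4) : ℝ) * qs M n n l i
      = -((sg M n : ℝ) * (num (n % 4) : ℝ)) * (am M (n + 1) l i : ℝ)
        + (pin (n % 4) : ℝ) * (l i : ℝ) := by
    rw [qs_eq]; exact_mod_cast h
  have hd := den_ne n
  rw [Fc, pc, sr_eq]
  field_simp
  linarith

lemma qs_backward (hM : 0 < M) (n : ℕ) (hl : l ∈ Lev M n) (i : Fin 3) :
    qs M n (n + 1) l i + qs M (n + 1) n l i = gc M n * (am M n l i : ℝ) := by
  rw [qs_eq, qs_eq, gc, sr_eq]
  exact_mod_cast backward hM n hl i

/-- Interactions which do not produce `l`. -/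
lemma qs_zero {n m : ℕ} (h : ∀ v ∈ Lev M n, ∀ w ∈ Lev M m, v + w ≠ l) (i : Fin 3) :
    qs M n m l i = 0 := by
  unfold qs
  exact Finset.sum_eq_zero fun v hv => Finset.sum_eq_zero fun w hw => if_neg (h v hv w hw)

/-- Sum of all interactions at a frequency of the chain. -/
lemma sum_qs (hM : 0 < M) {j N : ℕ} (hN : j + 1 < N) (hl : l ∈ Lev M j) (α : ℕ → ℝ) (i : Fin 3) :
    ∑ m ∈ Finset.range N, ∑ n ∈ Finset.range N, (α m * α n) * qs M n m l i
      = (-Fc M j * α (j - 1) ^ 2 + gc M j * α j * α (j + 1)) * (am M j l i : ℝ)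
        + pc j * α (j - 1) ^ 2 * (l i : ℝ) := by
  -- only the classified pairs contribute
  have hz : ∀ m n, ¬ ((n = m ∧ j = n + 1) ∨ (j = n ∧ m = n + 1) ∨ (j = m ∧ n = m + 1)) →
      qs M n m l i = 0 := by
    intro m n h
    refine qs_zero (fun v hv w hw hvw => h ?_) i
    exact classify hM hv hw (by rw [hvw]; exact hl)
  have h1 : ∀ m n, (α m * α n) * qs M n m l i
      = (if m = j + 1 then (if n = j then (α (j + 1) * α j) * qs M j (j + 1) l i else 0) else 0)
        + (if m = j then (if n = j + 1 then (α j * α (j + 1)) * qs M (j + 1) j l i else 0) else 0)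
        + (if m = j - 1 then (if n = j - 1 then
            (if j = 0 then 0 else (α (j - 1) * α (j - 1)) * qs M (j - 1) (j - 1) l i) else 0)
            else 0) := by
    intro m n
    by_cases c1 : m = j + 1 ∧ n = j
    · obtain ⟨rfl, rfl⟩ := c1
      rw [if_pos rfl, if_pos rfl, if_neg (by omega), if_neg (by omega)]
      ring
    · by_cases c2 : m = j ∧ n = j + 1
      · obtain ⟨rfl, rfl⟩ := c2
        rw [if_neg (by omega), if_pos rfl, if_pos rfl]
        by_cases c3 : m = m - 1
        · rw [if_pos c3, if_neg (by omega)]; ring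
        · rw [if_neg c3]; ring
      · by_cases c3 : n = m ∧ j = n + 1
        · obtain ⟨rfl, rfl⟩ := c3
          rw [if_neg (by omega), if_neg (by omega), if_pos (by omega), if_pos (by omega),
            if_neg (by omega)]
          simp
        · rw [hz m n (by omega), mul_zero]
          have e1 : (if m = j + 1 then (if n = j then (α (j + 1) * α j) * qs M j (j + 1) l i
              else 0) else 0) = 0 := by
            split_ifs with a b
            · exact absurd ⟨a, b⟩ c1
            · rfl
            · rfl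
          have e2 : (if m = j then (if n = j + 1 then (α j * α (j + 1)) * qs M (j + 1) j l i
              else 0) else 0) = 0 := by
            split_ifs with a b
            · exact absurd ⟨a, b⟩ c2
            · rfl
            · rfl
          have e3 : (if m = j - 1 then (if n = j - 1 then
            (if j = 0 then 0 else (α (j - 1) * α (j - 1)) * qs M (j - 1) (j - 1) l i) else 0)
            else 0) = 0 := by
            split_ifs with a b c
            · rfl
            · exact absurd ⟨by omega, by omega⟩ c3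
            · rfl
            · rfl
          rw [e1, e2, e3]; ring
  rw [Finset.sum_congr rfl fun m _ => Finset.sum_congr rfl fun n _ => h1 m n]
  simp only [Finset.sum_add_distrib]
  have s1 : ∑ m ∈ Finset.range N, ∑ n ∈ Finset.range N,
      (if m = j + 1 then (if n = j then (α (j + 1) * α j) * qs M j (j + 1) l i else 0) else 0)
      = (α (j + 1) * α j) * qs M j (j + 1) l i := by
    rw [Finset.sum_eq_single_of_mem (j + 1) (Finset.mem_range.2 hN)]
    · rw [Finset.sum_eq_single_of_mem j (Finset.mem_range.2 (by omega))]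
      · simp
      · intro b _ hb; simp [hb]
    · intro b _ hb; simp [hb]
  have s2 : ∑ m ∈ Finset.range N, ∑ n ∈ Finset.range N,
      (if m = j then (if n = j + 1 then (α j * α (j + 1)) * qs M (j + 1) j l i else 0) else 0)
      = (α j * α (j + 1)) * qs M (j + 1) j l i := by
    rw [Finset.sum_eq_single_of_mem j (Finset.mem_range.2 (by omega))]
    · rw [Finset.sum_eq_single_of_mem (j + 1) (Finset.mem_range.2 hN)]
      · simp
      · intro b _ hb; simp [hb]
    · intro b _ hb; simp [hb]
  have s3 : ∑ m ∈ Finset.range N, ∑ n ∈ Finset.range N, (if m = j - 1 then (if n = j - 1 then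
            (if j = 0 then 0 else (α (j - 1) * α (j - 1)) * qs M (j - 1) (j - 1) l i) else 0)
            else 0) = (if j = 0 then 0 else (α (j - 1) * α (j - 1)) * qs M (j - 1) (j - 1) l i) := by
    rw [Finset.sum_eq_single_of_mem (j - 1) (Finset.mem_range.2 (by omega))]
    · rw [Finset.sum_eq_single_of_mem (j - 1) (Finset.mem_range.2 (by omega))]
      · simp
      · intro b _ hb; simp [hb]
    · intro b _ hb; simp [hb]
  rw [s1, s2, s3]
  have hb := qs_backward hM j hl i
  cases j with
  | zero =>
    simp only [if_true, Fc, pc]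
    linear_combination (α 0 * α 1) * hb
  | succ k =>
    have hf := qs_forward hM k hl i
    rw [if_neg (Nat.succ_ne_zero k), Nat.add_sub_cancel, hf]
    linear_combination (α (k + 1) * α (k + 1 + 1)) * hb

end Pool.Agent.Y302.Trunc
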