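import Pool.Agent.Y302.Trunc.Resid

/-!
The coefficients on the symmetric time interval, and their decay.
-/

set_option autoImplicit false

open Set Filter Topology MeasureTheory
open scoped ContDiff

namespace Pool.Agent.Y302.Trunc

open Pool.Agent.H708R2.EulerSign (V)
open Pool.Agent.Y302.KP

/-- Rapid decay, locally uniformly in time. -/
def RD (T : ℝ) (α : ℕ → ℝ → ℝ) : Prop :=
  ∀ T' < T, ∀ s : ℕ, ∃ B, 0 ≤ B ∧ ∀ n, ∀ t ∈ Icc (-T') T', (2 : ℝ) ^ (s * n) * |α n t| ≤ B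

variable {T : ℝ} {α β : ℕ → ℝ → ℝ} {M : ℕ}

lemma RD.add (ha : RD T α) (hb : RD T β) : RD T (fun n t => α n t + β n t) := by
  intro T' hT' s
  obtain ⟨A, hA0, hA⟩ := ha T' hT' s
  obtain ⟨B, hB0, hB⟩ := hb T' hT' s
  refine ⟨A + B, by positivity, fun n t ht => ?_⟩
  calc (2 : ℝ) ^ (s * n) * |α n t + β n t| ≤ 2 ^ (s * n) * (|α n t| + |β n t|) :=
        mul_le_mul_of_nonneg_left (abs_add_le _ _) (by positivity)
    _ = 2 ^ (s * n) * |α n t| + 2 ^ (s * n) * |β n t| := mul_add _ _ _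
    _ ≤ A + B := add_le_add (hA n t ht) (hB n t ht)

lemma RD.mul (ha : RD T α) (hb : RD T β) : RD T (fun n t => α n t * β n t) := by
  intro T' hT' s
  obtain ⟨A, hA0, hA⟩ := ha T' hT' s
  obtain ⟨B, hB0, hB⟩ := hb T' hT' 0
  refine ⟨A * B, by positivity, fun n t ht => ?_⟩
  have h1 := hA n t ht
  have h2 := hB n t ht
  rw [Nat.zero_mul, pow_zero, one_mul] at h2
  calc (2 : ℝ) ^ (s * n) * |α n t * β n t| = (2 ^ (s * n) * |α n t|) * |β n t| := by
        rw [abs_mul]; ring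
    _ ≤ A * B := mul_le_mul h1 h2 (abs_nonneg _) hA0

lemma RD.coef (ha : RD T α) {c : ℕ → ℝ} {C : ℝ} {k : ℕ} (hc : ∀ n, |c n| ≤ C * 2 ^ (k * n)) :
    RD T (fun n t => c n * α n t) := by
  intro T' hT' s
  obtain ⟨A, hA0, hA⟩ := ha T' hT' (s + k)
  have hC : 0 ≤ C := by
    have := (abs_nonneg _).trans (hc 0)
    simpa using this
  refine ⟨C * A, by positivity, fun n t ht => ?_⟩
  calc (2 : ℝ) ^ (s * n) * |c n * α n t| = |c n| * (2 ^ (s * n) * |α n t|) := by
        rw [abs_mul]; ring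
    _ ≤ C * 2 ^ (k * n) * (2 ^ (s * n) * |α n t|) :=
        mul_le_mul_of_nonneg_right (hc n) (by positivity)
    _ = C * (2 ^ ((s + k) * n) * |α n t|) := by rw [add_mul, pow_add]; ring
    _ ≤ C * A := mul_le_mul_of_nonneg_left (hA n t ht) hC

lemma RD.pred (ha : RD T α) : RD T (fun n t => α (n - 1) t) := by
  intro T' hT' s
  obtain ⟨A, hA0, hA⟩ := ha T' hT' s
  refine ⟨2 ^ s * A, by positivity, fun n t ht => ?_⟩
  have h1 := hA (n - 1) t ht
  have h2 : (2 : ℝ) ^ (s * n) ≤ 2 ^ s * 2 ^ (s * (n - 1)) := by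
    rw [← pow_add]
    refine pow_le_pow_right₀ (by norm_num) ?_
    cases n with
    | zero => simp
    | succ n => simp only [Nat.add_sub_cancel]; rw [mul_add, mul_one, add_comm]
  calc (2 : ℝ) ^ (s * n) * |α (n - 1) t| ≤ 2 ^ s * 2 ^ (s * (n - 1)) * |α (n - 1) t| :=
        mul_le_mul_of_nonneg_right h2 (abs_nonneg _)
    _ = 2 ^ s * (2 ^ (s * (n - 1)) * |α (n - 1) t|) := by ring
    _ ≤ _ := mul_le_mul_of_nonneg_left h1 (by positivity)

lemma RD.succ (ha : RD T α) : RD T (fun n t => α (n + 1) t) := by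
  intro T' hT' s
  obtain ⟨A, hA0, hA⟩ := ha T' hT' s
  refine ⟨A, hA0, fun n t ht => ?_⟩
  refine le_trans ?_ (hA (n + 1) t ht)
  exact mul_le_mul_of_nonneg_right (pow_le_pow_right₀ (by norm_num)
    (Nat.mul_le_mul_left s (Nat.le_succ n))) (abs_nonneg _)

/-- Summability. -/
lemma RD.sum (ha : RD T α) (hb : RD T β) {T' : ℝ} (hT' : T' < T) :
    ∃ w : ℕ → ℝ, Summable (fun n => w n * Bd M n) ∧
      ∀ n, ∀ t ∈ Icc (-T') T', |α n t| ≤ w n ∧ |β n t| ≤ w n := by
  obtain ⟨A, hA0, hA⟩ := ha T' hT' 4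
  obtain ⟨B, hB0, hB⟩ := hb T' hT' 4
  refine ⟨fun n => (A + B) * (1 / 16) ^ n, ?_, fun n t ht => ⟨?_, ?_⟩⟩
  · have e : (fun n => (A + B) * (1 / 16 : ℝ) ^ n * Bd M n)
        = fun n => ((A + B) * (72 * (36 * M))) * (1 / 2 : ℝ) ^ n := by
      funext n
      unfold Bd
      have : (1 / 16 : ℝ) ^ n * 8 ^ n = (1 / 2) ^ n := by rw [← mul_pow]; norm_num
      rw [← this]; ring
    rw [e]
    exact summable_geometric_two.mul_left _
  · have h1 := hA n t ht
    have h2 : (2 : ℝ) ^ (4 * n) = 16 ^ n := by rw [pow_mul]; norm_num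
    have h3 : (1 / 16 : ℝ) ^ n * 16 ^ n = 1 := by rw [← mul_pow]; norm_num
    rw [h2] at h1
    have h4 : (0 : ℝ) ≤ (1 / 16) ^ n := by positivity
    calc |α n t| = (1 / 16 : ℝ) ^ n * (16 ^ n * |α n t|) := by rw [← mul_assoc, h3, one_mul]
      _ ≤ (1 / 16) ^ n * A := mul_le_mul_of_nonneg_left h1 h4
      _ ≤ (A + B) * (1 / 16) ^ n := by nlinarith [mul_nonneg h4 hB0]
  · have h1 := hB n t ht
    have h2 : (2 : ℝ) ^ (4 * n) = 16 ^ n := by rw [pow_mul]; norm_num
    have h3 : (1 / 16 : ℝ) ^ n * 16 ^ n = 1 := by rw [← mul_pow]; norm_num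
    rw [h2] at h1
    have h4 : (0 : ℝ) ≤ (1 / 16) ^ n := by positivity
    calc |β n t| = (1 / 16 : ℝ) ^ n * (16 ^ n * |β n t|) := by rw [← mul_assoc, h3, one_mul]
      _ ≤ (1 / 16) ^ n * B := mul_le_mul_of_nonneg_left h1 h4
      _ ≤ (A + B) * (1 / 16) ^ n := by nlinarith [mul_nonneg h4 hA0]

/-- Extension to negative times by reflection. -/
noncomputable def exa (a : ℕ → ℝ → ℝ) (n : ℕ) (t : ℝ) : ℝ :=
  if 0 ≤ t then a n t else 2 * a n 0 - a n (-t)

/-- Its derivative. -/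
noncomputable def exb (M : ℕ) (a : ℕ → ℝ → ℝ) (n : ℕ) (t : ℝ) : ℝ :=
  rhs (Fc M) (gc M) (fun m => a m |t|) n

variable {a : ℕ → ℝ → ℝ} {Ts : ℝ}

lemma exa_of_nonneg {t : ℝ} (ht : 0 ≤ t) (n : ℕ) : exa a n t = a n t := if_pos ht

lemma exa_hasDerivAt (h : IsSol (Fc M) (gc M) T a) (hT : Ts < T) (n : ℕ) {t : ℝ}
    (ht : t ∈ Ioo (-Ts) Ts) : HasDerivAt (exa a n) (exb M a n t) t := by
  have hTpos : 0 < T := by linarith [ht.1, ht.2]
  rcases lt_trichotomy t 0 with h0 | h0 | h0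
  · have h1 : HasDerivWithinAt (a n) (rhs (Fc M) (gc M) (fun m => a m (-t)) n) (Icc 0 T) (-t) :=
      h.deriv n (-t) ⟨by linarith, by linarith [ht.1]⟩
    have h2 : HasDerivAt (a n) (rhs (Fc M) (gc M) (fun m => a m (-t)) n) (-t) :=
      h1.hasDerivAt (Icc_mem_nhds (by linarith) (by linarith [ht.1]))
    have h3 : HasDerivAt (fun s => 2 * a n 0 - a n (-s))
        (rhs (Fc M) (gc M) (fun m => a m (-t)) n) t := by
      have := (h2.comp t (hasDerivAt_neg t)).const_sub (2 * a n 0)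
      simpa using this
    have h4 : exb M a n t = rhs (Fc M) (gc M) (fun m => a m (-t)) n := by
      unfold exb; rw [abs_of_neg h0]
    rw [h4]
    refine h3.congr_of_eventuallyEq ?_
    filter_upwards [Iio_mem_nhds h0] with s hs
    unfold exa
    rw [if_neg (not_le.2 hs)]
  · subst h0
    have h4 : exb M a n 0 = rhs (Fc M) (gc M) (fun m => a m 0) n := by
      unfold exb; rw [abs_zero]
    have h1 := h.deriv n 0 ⟨le_rfl, hTpos.le⟩
    have h1' : HasDerivWithinAt (a n) (rhs (Fc M) (gc M) (fun m => a m 0) n) (Ici 0) 0 :=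
      h1.mono_of_mem_nhdsWithin (Icc_mem_nhdsGE hTpos)
    have hR : HasDerivWithinAt (exa a n) (exb M a n 0) (Ici 0) 0 := by
      rw [h4]
      refine h1'.congr (fun s hs => exa_of_nonneg hs n) (exa_of_nonneg le_rfl n)
    have hL : HasDerivWithinAt (exa a n) (exb M a n 0) (Iic 0) 0 := by
      rw [h4]
      have h5 : HasDerivWithinAt (fun s => 2 * a n 0 - a n (-s))
          (rhs (Fc M) (gc M) (fun m => a m 0) n) (Iic 0) 0 := by
        have e0 : HasDerivWithinAt (fun s : ℝ => -s) (-1) (Iic 0) 0 :=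
          (hasDerivAt_neg (0 : ℝ)).hasDerivWithinAt
        have e1 : HasDerivWithinAt (a n) (rhs (Fc M) (gc M) (fun m => a m 0) n) (Ici 0)
            ((fun s : ℝ => -s) 0) := by simpa using h1'
        have := (HasDerivWithinAt.comp (0 : ℝ) e1 e0
          (fun s (hs : s ≤ 0) => neg_nonneg.2 hs)).const_sub (2 * a n 0)
        simpa using this
      refine h5.congr (fun s hs => ?_) ?_
      · rcases (show s ≤ 0 from hs).lt_or_eq with h6 | h6
        · unfold exa; rw [if_neg (not_le.2 h6)]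
        · subst h6; rw [exa_of_nonneg le_rfl, neg_zero]; ring
      · rw [exa_of_nonneg le_rfl, neg_zero]; ring
    have := hL.union hR
    rwa [Iic_union_Ici, hasDerivWithinAt_univ] at this
  · have h1 : HasDerivAt (a n) (rhs (Fc M) (gc M) (fun m => a m t) n) t :=
      (h.deriv n t ⟨h0.le, by linarith [ht.2]⟩).hasDerivAt
        (Icc_mem_nhds h0 (by linarith [ht.2]))
    have h4 : exb M a n t = rhs (Fc M) (gc M) (fun m => a m t) n := by
      unfold exb; rw [abs_of_pos h0]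
    rw [h4]
    refine h1.congr_of_eventuallyEq ?_
    filter_upwards [Ioi_mem_nhds h0] with s hs
    exact exa_of_nonneg (le_of_lt hs) n

lemma exb_continuousOn (h : IsSol (Fc M) (gc M) T a) (hT : Ts < T) (n : ℕ) :
    ContinuousOn (exb M a n) (Ioo (-Ts) Ts) := by
  have hc : ∀ m, ContinuousOn (fun t : ℝ => a m |t|) (Ioo (-Ts) Ts) := fun m =>
    (h.cont m le_rfl le_rfl).comp continuous_abs.continuousOn fun t ht =>
      ⟨abs_nonneg t, ((abs_lt.2 ht).trans hT).le⟩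
  unfold exb rhs
  exact (continuousOn_const.mul ((hc (n - 1)).pow 2)).sub
    ((continuousOn_const.mul (hc n)).mul (hc (n + 1)))

section main

variable (h : IsSol (Fc M) (gc M) T a) (hM : 0 < M) (hT : Ts < T)
  (hdec : ∀ T' < Ts, ∀ s : ℕ, ∃ B, ∀ t ∈ Icc 0 T', ∀ n, (2 : ℝ) ^ (s * n) * a n t ≤ B)

include h hT hdec

lemma RD_abs : RD Ts (fun n t => a n |t|) := by
  intro T' hT' s
  obtain ⟨B, hB⟩ := hdec T' hT' s
  refine ⟨max B 0, le_max_right _ _, fun n t ht => ?_⟩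
  have h1 : |t| ≤ T' := abs_le.2 ht
  rw [abs_of_nonneg (h.nonneg n |t| ⟨abs_nonneg t, (h1.trans hT'.le).trans hT.le⟩)]
  exact (hB |t| ⟨abs_nonneg t, h1⟩ n).trans (le_max_left _ _)

lemma RD_exa : RD Ts (exa a) := by
  have h1 := RD_abs h hT hdec
  intro T' hT' s
  obtain ⟨B, hB0, hB⟩ := h1 T' hT' s
  simp only at hB
  refine ⟨3 * B, by positivity, fun n t ht => ?_⟩
  have hb := hB n t ht
  unfold exa
  split_ifs with h0
  · rw [abs_of_nonneg h0] at hb
    linarith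
  · have ht0 : |t| = -t := abs_of_neg (not_le.1 h0)
    have hb0 := hB n 0 ⟨by linarith [ht.1, ht.2], by linarith [ht.1, ht.2]⟩
    rw [abs_zero] at hb0
    rw [ht0] at hb
    have h3 : |2 * a n 0 - a n (-t)| ≤ 2 * |a n 0| + |a n (-t)| := by
      refine (abs_sub _ _).trans ?_
      rw [abs_mul, abs_two]
    calc (2 : ℝ) ^ (s * n) * |2 * a n 0 - a n (-t)|
        ≤ 2 ^ (s * n) * (2 * |a n 0| + |a n (-t)|) := mul_le_mul_of_nonneg_left h3 (by positivity)
      _ = 2 * (2 ^ (s * n) * |a n 0|) + 2 ^ (s * n) * |a n (-t)| := by ring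
      _ ≤ 3 * B := by linarith

include hM in
lemma RD_exb : RD Ts (exb M a) := by
  have h1 := RD_abs h hT hdec
  have hF : ∀ n, |Fc M n| ≤ (144 * M) * 2 ^ (3 * n) := by
    intro n
    rw [abs_of_nonneg (Fc_nonneg hM n)]
    cases n with
    | zero => simp only [Fc]; positivity
    | succ n =>
      refine (Fc_le hM n).trans ?_
      have h2 := gc_le M n
      have h3 : (2 : ℝ) ^ (3 * (n + 1)) = 8 * 8 ^ n := by rw [pow_mul, pow_succ]; norm_num; ring
      rw [h3]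
      have : (0 : ℝ) ≤ M * 8 ^ n := by positivity
      nlinarith
  have hg : ∀ n, |-(gc M n)| ≤ (48 * M) * 2 ^ (3 * n) := by
    intro n
    rw [abs_neg, abs_of_nonneg (gc_pos hM n).le, pow_mul]
    have := gc_le M n
    norm_num
    linarith
  have h2 := (((h1.pred).mul h1.pred).coef hF).add ((h1.mul h1.succ).coef hg)
  have e : (fun n t => Fc M n * (a (n - 1) |t| * a (n - 1) |t|)
      + -(gc M n) * (a n |t| * a (n + 1) |t|)) = exb M a := by
    funext n t
    unfold exb rhs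
    ring
  rw [← e]
  exact h2

end main

end Pool.Agent.Y302.Trunc
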