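import Pool.Agent.H708R2.EulerModes.Defs
import Pool.Agent.H708R2.EulerTypeI.Defs

/-!
# Definitions: Euler equations with some Fourier modes removed
-/

set_option autoImplicit false

open MeasureTheory Set

namespace Pool.Agent.Y302.Trunc

open Pool.Agent.H708R2.EulerSign Pool.Agent.H708R2.EulerModes

/-- The Fourier coefficient of `g` at the frequency `k` vanishes: `∫ g cos(k · x) dx = 0` and
`∫ g sin(k · x) dx = 0`, the integrals being over `𝕋³ = [-π, π]³`. -/
def NoMode (k : Fin 3 → ℤ) (g : V → ℝ) : Prop := cosCoeff k g = 0 ∧ sinCoeff k g = 0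

/-- The left hand side `∂ₜ uᵢ + ∑ⱼ uⱼ ∂ⱼ uᵢ + ∂ᵢ p` of the `i`-th momentum equation at the time
`t ∈ I`, as a function of `x`. -/
noncomputable def momentumTerm (I : Set ℝ) (u : ℝ → V → V) (p : ℝ → V → ℝ) (t : ℝ) (i : Fin 3)
    (x : V) : ℝ :=
  derivWithin (fun s => u s x i) I t + ∑ j, u t x j * fderiv ℝ (u t) x (Pi.single j 1) i
    + fderiv ℝ (p t) x (Pi.single i 1)

/-- `(u, p)` is a classical solution for the times in `I` of the incompressible Euler equations on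
`𝕋³` with the Fourier modes in `R` removed: `u` and `p` are continuously differentiable in `(t, x)`
and `2π`-periodic in `x`, `div u = 0`, the velocity `u` has no Fourier modes in `R`, and
`∂ₜ uᵢ + ∑ⱼ uⱼ ∂ⱼ uᵢ + ∂ᵢ p` has no Fourier modes outside of `R`. -/
structure IsSolutionWithout (R : Set (Fin 3 → ℤ)) (I : Set ℝ) (u : ℝ → V → V) (p : ℝ → V → ℝ) :
    Prop where
  contDiffOn_u : ContDiffOn ℝ 1 (fun z : ℝ × V => u z.1 z.2) (I ×ˢ univ)
  contDiffOn_p : ContDiffOn ℝ 1 (fun z : ℝ × V => p z.1 z.2) (I ×ˢ univ)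
  periodic_u : ∀ t ∈ I, Periodic3 (u t)
  periodic_p : ∀ t ∈ I, Periodic3 (p t)
  div_free : ∀ t ∈ I, ∀ x, divergence (u t) x = 0
  modes : ∀ t ∈ I, ∀ k ∈ R, ∀ i, NoMode k (fun x => u t x i)
  momentum : ∀ t ∈ I, ∀ k ∉ R, ∀ i, NoMode k (momentumTerm I u p t i)

end Pool.Agent.Y302.Trunc
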