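import Pool.Agent.H459R3.NS.Four
import Pool.Agent.H708R2.EulerModes.Main

/-!
Functions on the torus with complementary sets of frequencies are orthogonal.
-/

set_option autoImplicit false

open MeasureTheory Set Filter Topology
open scoped ComplexConjugate Pointwise

namespace Pool.Agent.Y302.Trunc

open Pool.Agent.H708R2.EulerSign (V Periodic3 Dom dom_lt_top dom_meas)
open Pool.Agent.H708R2.EulerModes

attribute [local instance] instMeasureSpaceUnitAddCircle

local instance : Measure.IsAddHaarMeasure (volume : Measure UnitAddCircle) :=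
  inferInstanceAs (Measure.IsAddHaarMeasure AddCircle.haarAddCircle)

local instance : IsProbabilityMeasure (volume : Measure UnitAddCircle) :=
  inferInstanceAs (IsProbabilityMeasure AddCircle.haarAddCircle)

/-- Rescaling to period one. -/
noncomputable def resc (f : V → ℝ) (y : V) : ℂ := (f ((2 * Real.pi) • y) : ℂ)

lemma resc_per {f : V → ℝ} (hf : Periodic3 f) : H459R3.NS.Per (resc f) := by
  intro i x
  unfold resc
  have e : (2 * Real.pi) • (x + Pi.single i 1 : V)
      = (2 * Real.pi) • x + Pi.single i (2 * Real.pi) := by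
    rw [smul_add, ← Pi.single_smul, smul_eq_mul, mul_one]
  rw [e, hf]

lemma resc_continuous {f : V → ℝ} (hf : Continuous f) : Continuous (resc f) :=
  Complex.continuous_ofReal.comp (hf.comp (continuous_const_smul _))

lemma smul_cube : ((2 * Real.pi) • H459R3.NS.cube : Set V) =ᵐ[volume] Dom := by
  have hpi : 0 < 2 * Real.pi := by positivity
  have e1 : ((2 * Real.pi) • H459R3.NS.cube : Set V) = Icc 0 (fun _ => 2 * Real.pi) := by
    ext x
    rw [mem_smul_set_iff_inv_smul_mem₀ hpi.ne', H459R3.NS.cube, mem_Icc, mem_Icc, Pi.le_def,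
      Pi.le_def, Pi.le_def, Pi.le_def]
    simp only [Pi.zero_apply, Pi.smul_apply, smul_eq_mul, Pi.one_apply]
    constructor
    · rintro ⟨h1, h2⟩
      refine ⟨fun i => ?_, fun i => ?_⟩
      · have := mul_nonneg hpi.le (h1 i)
        rwa [← mul_assoc, mul_inv_cancel₀ hpi.ne', one_mul] at this
      · have := mul_le_mul_of_nonneg_left (h2 i) hpi.le
        rwa [← mul_assoc, mul_inv_cancel₀ hpi.ne', one_mul, mul_one] at this
    · rintro ⟨h1, h2⟩
      refine ⟨fun i => mul_nonneg (inv_nonneg.2 hpi.le) (h1 i), fun i => ?_⟩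
      rw [inv_mul_le_iff₀ hpi, mul_one]
      exact h2 i
  have e2 : (Dom : Set V) = Set.pi univ (fun i : Fin 3 => Ico ((0 : V) i) (2 * Real.pi)) := by
    ext x
    rw [mem_Dom]
    simp
  rw [e1, e2]
  exact (Measure.univ_pi_Ico_ae_eq_Icc (μ := fun _ : Fin 3 => (volume : Measure ℝ))
    (f := 0) (g := fun _ => 2 * Real.pi)).symm

lemma integral_resc {E : Type*} [NormedAddCommGroup E] [NormedSpace ℝ E] (h : V → E) :
    ∫ y in H459R3.NS.cube, h ((2 * Real.pi) • y)
      = (((2 * Real.pi) ^ Module.finrank ℝ V)⁻¹ : ℝ) • ∫ x in Dom, h x := by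
  rw [Measure.setIntegral_comp_smul_of_pos volume h _ (by positivity),
    Measure.restrict_congr_set smul_cube]

lemma ph_resc (k : Fin 3 → ℤ) (y : V) : ph k ((2 * Real.pi) • y)
    = 2 * Real.pi * H459R3.NS.ph k y := by
  unfold ph H459R3.NS.ph
  rw [Finset.mul_sum]
  exact Finset.sum_congr rfl fun i _ => by rw [Pi.smul_apply, smul_eq_mul]; ring

lemma fc_eq_zero {f : V → ℝ} (hf : Periodic3 f) (hc : Continuous f) {k : Fin 3 → ℤ}
    (h1 : ∫ x in Dom, f x * Real.cos (ph k x) = 0)
    (h2 : ∫ x in Dom, f x * Real.sin (ph k x) = 0) : H459R3.NS.fc (resc f) k = 0 := by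
  have ic : IntegrableOn (fun x => f x * Real.cos (ph k x)) Dom := by
    refine Periodic3.integrableOn ?_
      (hc.mul (Real.continuous_cos.comp (ph_contDiff k).continuous))
    intro j x
    have := cos_periodic k j x
    simp only at this ⊢
    rw [this, hf j x]
  have is : IntegrableOn (fun x => f x * Real.sin (ph k x)) Dom := by
    refine Periodic3.integrableOn ?_
      (hc.mul (Real.continuous_sin.comp (ph_contDiff k).continuous))
    intro j x
    have := sin_periodic k j x
    simp only at this ⊢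
    rw [this, hf j x]
  have e : ∀ y : V, H459R3.NS.ee (-k) y * resc f y
      = (fun x : V => ((f x * Real.cos (ph k x) : ℝ) : ℂ)
        - ((f x * Real.sin (ph k x) : ℝ) : ℂ) * Complex.I) ((2 * Real.pi) • y) := by
    intro y
    simp only [ph_resc]
    unfold resc H459R3.NS.ee
    rw [H459R3.NS.ph_neg]
    have e1 : (2 * Real.pi * Complex.I * ((-H459R3.NS.ph k y : ℝ) : ℂ))
        = ((-(2 * Real.pi * H459R3.NS.ph k y) : ℝ) : ℂ) * Complex.I := by push_cast; ring
    rw [e1, Complex.exp_mul_I, ← Complex.ofReal_cos, ← Complex.ofReal_sin, Real.cos_neg,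
      Real.sin_neg]
    push_cast
    ring
  unfold H459R3.NS.fc
  simp only [e]
  rw [integral_resc (fun x : V => ((f x * Real.cos (ph k x) : ℝ) : ℂ)
        - ((f x * Real.sin (ph k x) : ℝ) : ℂ) * Complex.I),
    integral_sub ic.ofReal (is.ofReal.mul_const _), integral_mul_const, integral_complex_ofReal,
    integral_complex_ofReal, h1, h2]
  simp

/-- Orthogonality. -/
theorem integral_mul_eq_zero {f g : V → ℝ} (hf : Periodic3 f) (hfc : Continuous f)
    (hg : Periodic3 g) (hgc : Continuous g)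
    (h : ∀ k : Fin 3 → ℤ, (∫ x in Dom, f x * Real.cos (ph k x) = 0 ∧
        ∫ x in Dom, f x * Real.sin (ph k x) = 0) ∨
      (∫ x in Dom, g x * Real.cos (ph k x) = 0 ∧ ∫ x in Dom, g x * Real.sin (ph k x) = 0)) :
    ∫ x in Dom, f x * g x = 0 := by
  let F : C(UnitAddTorus (Fin 3), ℂ) :=
    ⟨H459R3.NS.lift (resc f), H459R3.NS.lift_continuous (resc_per hf) (resc_continuous hfc)⟩
  let G : C(UnitAddTorus (Fin 3), ℂ) :=
    ⟨H459R3.NS.lift (resc g), H459R3.NS.lift_continuous (resc_per hg) (resc_continuous hgc)⟩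
  have hF : ∀ k, UnitAddTorus.mFourierCoeff F k = H459R3.NS.fc (resc f) k := fun k =>
    H459R3.NS.fc_eq (resc_per hf) k
  have hG : ∀ k, UnitAddTorus.mFourierCoeff G k = H459R3.NS.fc (resc g) k := fun k =>
    H459R3.NS.fc_eq (resc_per hg) k
  have hs := UnitAddTorus.hasSum_prod_mFourierCoeff (F.toLp 2 volume ℂ) (G.toLp 2 volume ℂ)
  simp only [UnitAddTorus.mFourierCoeff_toLp] at hs
  have h0 : ∀ k, conj (UnitAddTorus.mFourierCoeff F k) * UnitAddTorus.mFourierCoeff G k = 0 := by
    intro k
    rcases h k with ⟨h1, h2⟩ | ⟨h1, h2⟩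
    · rw [hF, fc_eq_zero hf hfc h1 h2]; simp
    · rw [hG, fc_eq_zero hg hgc h1 h2]; simp
  simp only [h0] at hs
  have h3 := hs.unique hasSum_zero
  have h4 : ∫ t, conj ((F.toLp 2 volume ℂ) t) * (G.toLp 2 volume ℂ) t
      = ∫ t, conj (F t) * G t := by
    refine integral_congr_ae ?_
    filter_upwards [ContinuousMap.coeFn_toLp (p := 2) (𝕜 := ℂ) volume F,
      ContinuousMap.coeFn_toLp (p := 2) (𝕜 := ℂ) volume G]
      with t h1 h2
    rw [h1, h2]
  rw [h4, H459R3.NS.integral_torus] at h3
  have h5 : ∀ y : V, conj (F (H459R3.NS.cov y)) * G (H459R3.NS.cov y)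
      = (fun x : V => ((f x * g x : ℝ) : ℂ)) ((2 * Real.pi) • y) := by
    intro y
    have e1 : F (H459R3.NS.cov y) = resc f y := H459R3.NS.lift_cov (resc_per hf) y
    have e2 : G (H459R3.NS.cov y) = resc g y := H459R3.NS.lift_cov (resc_per hg) y
    rw [e1, e2]
    unfold resc
    rw [Complex.conj_ofReal]
    push_cast
    rfl
  simp only [h5] at h3
  rw [integral_resc (fun x : V => ((f x * g x : ℝ) : ℂ)), integral_complex_ofReal,
    smul_eq_zero] at h3
  rcases h3 with h3 | h3
  · exfalso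
    have : (0 : ℝ) < ((2 * Real.pi) ^ Module.finrank ℝ V)⁻¹ := by positivity
    exact this.ne' h3
  · exact_mod_cast h3

end Pool.Agent.Y302.Trunc
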