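import Pool.Agent.Y302.Trunc.Defs
import Pool.Agent.Y302.Trunc.Orth

/-!
Uniqueness.
-/

set_option autoImplicit false

open Set Filter Topology MeasureTheory

namespace Pool.Agent.Y302.Trunc

open Pool.Agent.H708R2.EulerSign (V Periodic3 Dom divergence grad sum_mul_clm sum_mul_clm'
  divergence_eq_sum contDiff_slice sq3 sq3_nonneg sq3_eq_zero sq3_contDiff hasFDerivAt_sq3
  quad_bound divergence_smul dom_bdd dom_meas dom_lt_top integral_divergence_eq_zero
  eq_zero_of_integral_eq_zero continuous_grad)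
open Pool.Agent.H708R2.EulerModes

variable {R : Set (Fin 3 → ℤ)} {T : ℝ} {w u : ℝ → V → V} {q p : ℝ → V → ℝ}

/-- The energy of the difference. -/
noncomputable def en (w u : ℝ → V → V) (t : ℝ) : ℝ := ∫ x in Dom, sq3 (w t x - u t x)

lemma en_nonneg (t : ℝ) : 0 ≤ en w u t := integral_nonneg fun _ => sq3_nonneg _

lemma restrict {T' : ℝ} (hw : IsSolutionWithout R (Ico 0 T) w q) (hT' : T' ≤ T) :
    IsSolutionWithout R (Ico 0 T') w q := by
  have hsub : Ico (0 : ℝ) T' ⊆ Ico 0 T := Ico_subset_Ico_right hT'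
  refine ⟨hw.contDiffOn_u.mono (prod_mono hsub subset_rfl),
    hw.contDiffOn_p.mono (prod_mono hsub subset_rfl), fun t ht => hw.periodic_u t (hsub ht),
    fun t ht => hw.periodic_p t (hsub ht), fun t ht => hw.div_free t (hsub ht),
    fun t ht => hw.modes t (hsub ht), fun t ht k hk i => ?_⟩
  have e : momentumTerm (Ico 0 T') w q t i = momentumTerm (Ico 0 T) w q t i := by
    funext x
    unfold momentumTerm
    have : derivWithin (fun s => w s x i) (Ico 0 T') t
        = derivWithin (fun s => w s x i) (Ico 0 T) t := by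
      refine derivWithin_congr_set ?_
      filter_upwards [Iio_mem_nhds ht.2] with s hs
      apply propext
      constructor
      · intro h; exact ⟨h.1, h.2.trans_le hT'⟩
      · intro h; exact ⟨h.1, hs⟩
    rw [this]
  rw [e]
  exact hw.momentum t (hsub ht) k hk i

lemma contDiffOn_S (hw : IsSolutionWithout R (Ico 0 T) w q)
    (hu : IsSolutionWithout R (Ico 0 T) u p) :
    ContDiffOn ℝ 1 (fun z : ℝ × V => sq3 (w z.1 z.2 - u z.1 z.2)) (Ico 0 T ×ˢ univ) :=
  sq3_contDiff.comp_contDiffOn (hw.contDiffOn_u.sub hu.contDiffOn_u)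

lemma en_continuousOn (hw : IsSolutionWithout R (Ico 0 T) w q)
    (hu : IsSolutionWithout R (Ico 0 T) u p) : ContinuousOn (en w u) (Ico 0 T) := by
  intro t ht
  have hS := (contDiffOn_S hw hu).continuousOn
  obtain ⟨b, hb1, hb2⟩ := exists_between ht.2
  have hK : IsCompact (Icc 0 b ×ˢ closure Dom) := isCompact_Icc.prod dom_bdd.isCompact_closure
  have hsub : Icc 0 b ×ˢ closure Dom ⊆ Ico 0 T ×ˢ (univ : Set V) :=
    prod_mono (fun s hs => ⟨hs.1, hs.2.trans_lt hb2⟩) (subset_univ _)
  obtain ⟨C, hC⟩ := hK.exists_bound_of_continuousOn (hS.mono hsub)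
  have hev : ∀ᶠ s in 𝓝[Ico 0 T] t, s ∈ Icc 0 b := by
    have h1 : ∀ᶠ s in 𝓝[Ico 0 T] t, s < b := nhdsWithin_le_nhds (Iio_mem_nhds hb1)
    filter_upwards [h1, self_mem_nhdsWithin] with s hs1 hs2
    exact ⟨hs2.1, hs1.le⟩
  refine continuousWithinAt_of_dominated (bound := fun _ => C) ?_ ?_ ?_ ?_
  · filter_upwards [hev] with s hs
    have : ContDiff ℝ 1 (fun x => sq3 (w s x - u s x)) :=
      contDiff_slice (f := fun s x => sq3 (w s x - u s x)) (contDiffOn_S hw hu)
        ⟨hs.1, hs.2.trans_lt hb2⟩
    exact this.continuous.aestronglyMeasurable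
  · filter_upwards [hev] with s hs
    refine (ae_restrict_iff' dom_meas).2 (Filter.Eventually.of_forall fun x hx => ?_)
    exact hC (s, x) ⟨hs, subset_closure hx⟩
  · exact integrableOn_const dom_lt_top.ne
  · refine Filter.Eventually.of_forall fun x => ?_
    have h1 : ContinuousWithinAt (fun z : ℝ × V => sq3 (w z.1 z.2 - u z.1 z.2))
        (Ico 0 T ×ˢ univ) (t, x) := hS (t, x) ⟨ht, mem_univ _⟩
    exact h1.comp (t := Ico 0 T ×ˢ univ) (f := fun s : ℝ => ((s, x) : ℝ × V))
      (by fun_prop) (fun s hs => ⟨hs, mem_univ _⟩)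

/-- The time derivative of `|w - u|²`. -/
noncomputable def dS (w u : ℝ → V → V) (t : ℝ) (x : V) : ℝ :=
  fderiv ℝ (fun z : ℝ × V => sq3 (w z.1 z.2 - u z.1 z.2)) (t, x) (1, 0)

lemma hasDerivAt_S (hw : IsSolutionWithout R (Ico 0 T) w q)
    (hu : IsSolutionWithout R (Ico 0 T) u p) {t : ℝ} (ht : t ∈ Ioo 0 T) (x : V) :
    HasDerivAt (fun s => sq3 (w s x - u s x)) (dS w u t x) t := by
  have hmem : Ico 0 T ×ˢ (univ : Set V) ∈ 𝓝 (t, x) :=
    prod_mem_nhds (Ico_mem_nhds ht.1 ht.2) Filter.univ_mem
  have h1 : DifferentiableAt ℝ (fun z : ℝ × V => sq3 (w z.1 z.2 - u z.1 z.2)) (t, x) :=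
    ((contDiffOn_S hw hu).contDiffAt hmem).differentiableAt one_ne_zero
  have h2 : HasDerivAt (fun s : ℝ => ((s, x) : ℝ × V)) (1, 0) t :=
    (hasDerivAt_id t).prodMk (hasDerivAt_const t x)
  exact h1.hasFDerivAt.comp_hasDerivAt t h2

lemma en_hasDerivAt (hw : IsSolutionWithout R (Ico 0 T) w q)
    (hu : IsSolutionWithout R (Ico 0 T) u p) {t : ℝ} (ht : t ∈ Ioo 0 T) :
    HasDerivAt (en w u) (∫ x in Dom, dS w u t x) t := by
  obtain ⟨a, ha1, ha2⟩ := exists_between ht.1
  obtain ⟨b, hb1, hb2⟩ := exists_between ht.2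
  have hO : IsOpen (Ioo 0 T ×ˢ (univ : Set V)) := isOpen_Ioo.prod isOpen_univ
  have hS1 : ContDiffOn ℝ 1 (fun z : ℝ × V => sq3 (w z.1 z.2 - u z.1 z.2)) (Ioo 0 T ×ˢ univ) :=
    (contDiffOn_S hw hu).mono (prod_mono Ioo_subset_Ico_self subset_rfl)
  have hd : ContinuousOn (fun z : ℝ × V =>
      fderiv ℝ (fun z : ℝ × V => sq3 (w z.1 z.2 - u z.1 z.2)) z (1, 0)) (Ioo 0 T ×ˢ univ) :=
    (hS1.continuousOn_fderiv_of_isOpen hO le_rfl).clm_apply continuousOn_const
  have hK : IsCompact (Icc a b ×ˢ closure Dom) := isCompact_Icc.prod dom_bdd.isCompact_closure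
  have hsub : Icc a b ×ˢ closure Dom ⊆ Ioo 0 T ×ˢ (univ : Set V) :=
    prod_mono (fun s hs => ⟨ha1.trans_le hs.1, hs.2.trans_lt hb2⟩) (subset_univ _)
  obtain ⟨C, hC⟩ := hK.exists_bound_of_continuousOn (hd.mono hsub)
  have hslice : ∀ s ∈ Ioo 0 T, Continuous (fun x => sq3 (w s x - u s x)) := fun s hs =>
    (contDiff_slice (f := fun s x => sq3 (w s x - u s x)) (contDiffOn_S hw hu)
        ⟨hs.1.le, hs.2⟩).continuous
  have hnh : Icc a b ∈ 𝓝 t := Icc_mem_nhds ha2 hb1
  refine (hasDerivAt_integral_of_dominated_loc_of_deriv_le (s := Icc a b)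
    (F := fun s x => sq3 (w s x - u s x)) (F' := fun s x => dS w u s x)
    (bound := fun _ => C) (μ := volume.restrict Dom) hnh ?_ ?_ ?_ ?_ ?_ ?_).2
  · filter_upwards [Ioo_mem_nhds ht.1 ht.2] with s hs
    exact (hslice s hs).aestronglyMeasurable
  · have hcl : IntegrableOn (fun x => sq3 (w t x - u t x)) (closure Dom) :=
      (hslice t ht).continuousOn.integrableOn_compact dom_bdd.isCompact_closure
    exact hcl.mono_set subset_closure
  · have : Continuous (fun x => dS w u t x) := by
      have h := hd.comp_continuous (f := fun x : V => ((t, x) : ℝ × V)) (by fun_prop)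
        (fun x => ⟨ht, mem_univ _⟩)
      exact h
    exact this.aestronglyMeasurable
  · refine (ae_restrict_iff' dom_meas).2 (Filter.Eventually.of_forall fun x hx s hs => ?_)
    exact hC (s, x) ⟨hs, subset_closure hx⟩
  · exact integrableOn_const dom_lt_top.ne
  · refine Filter.Eventually.of_forall fun x s hs => ?_
    exact hasDerivAt_S hw hu ⟨ha1.trans_le hs.1, hs.2.trans_lt hb2⟩ x

/-- The time derivative of the velocity. -/
lemma time_deriv (hw : IsSolutionWithout R (Ico 0 T) w q) {t : ℝ} (ht : t ∈ Ioo 0 T) (x : V)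
    (i : Fin 3) : HasDerivAt (fun s => w s x i)
      (momentumTerm (Ico 0 T) w q t i x - fderiv ℝ (w t) x (w t x) i
        - fderiv ℝ (q t) x (Pi.single i 1)) t := by
  have hmem : Ico 0 T ×ˢ (univ : Set V) ∈ 𝓝 (t, x) :=
    prod_mem_nhds (Ico_mem_nhds ht.1 ht.2) Filter.univ_mem
  have hline : HasDerivAt (fun s : ℝ => ((s, x) : ℝ × V)) (1, 0) t :=
    (hasDerivAt_id t).prodMk (hasDerivAt_const t x)
  have hwtime : DifferentiableAt ℝ (fun s => w s x) t := by
    have h1 : DifferentiableAt ℝ (fun z : ℝ × V => w z.1 z.2) (t, x) :=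
      (hw.contDiffOn_u.contDiffAt hmem).differentiableAt one_ne_zero
    exact (h1.hasFDerivAt.comp_hasDerivAt t hline).differentiableAt
  have h1 : HasDerivAt (fun s => w s x i) (deriv (fun s => w s x i) t) t :=
    (hasDerivAt_pi.1 hwtime.hasDerivAt i).differentiableAt.hasDerivAt
  refine h1.congr_deriv ?_
  unfold momentumTerm
  rw [derivWithin_of_mem_nhds (Ico_mem_nhds ht.1 ht.2), sum_mul_clm]
  ring

/-- The momentum term is continuous in `x`. -/
lemma momentum_continuous (hw : IsSolutionWithout R (Ico 0 T) w q) {t : ℝ} (ht : t ∈ Ioo 0 T)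
    (i : Fin 3) : Continuous (momentumTerm (Ico 0 T) w q t i) := by
  have htI : t ∈ Ico 0 T := ⟨ht.1.le, ht.2⟩
  have hwt : ContDiff ℝ 1 (w t) := contDiff_slice hw.contDiffOn_u htI
  have hqt : ContDiff ℝ 1 (q t) := contDiff_slice hw.contDiffOn_p htI
  have hO : IsOpen (Ioo 0 T ×ˢ (univ : Set V)) := isOpen_Ioo.prod isOpen_univ
  have hS1 : ContDiffOn ℝ 1 (fun z : ℝ × V => w z.1 z.2) (Ioo 0 T ×ˢ univ) :=
    hw.contDiffOn_u.mono (prod_mono Ioo_subset_Ico_self subset_rfl)
  have hd : ContinuousOn (fun z : ℝ × V =>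
      fderiv ℝ (fun z : ℝ × V => w z.1 z.2) z (1, 0)) (Ioo 0 T ×ˢ univ) :=
    (hS1.continuousOn_fderiv_of_isOpen hO le_rfl).clm_apply continuousOn_const
  have h1 : Continuous (fun x : V => fderiv ℝ (fun z : ℝ × V => w z.1 z.2) (t, x) (1, 0) i) :=
    (continuous_apply i).comp (hd.comp_continuous (f := fun x : V => ((t, x) : ℝ × V))
      (by fun_prop) (fun x => ⟨ht, mem_univ _⟩))
  have h2 : ∀ x, derivWithin (fun s => w s x i) (Ico 0 T) t
      = fderiv ℝ (fun z : ℝ × V => w z.1 z.2) (t, x) (1, 0) i := by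
    intro x
    have hmem : Ico 0 T ×ˢ (univ : Set V) ∈ 𝓝 (t, x) :=
      prod_mem_nhds (Ico_mem_nhds ht.1 ht.2) Filter.univ_mem
    have hline : HasDerivAt (fun s : ℝ => ((s, x) : ℝ × V)) (1, 0) t :=
      (hasDerivAt_id t).prodMk (hasDerivAt_const t x)
    have h3 : DifferentiableAt ℝ (fun z : ℝ × V => w z.1 z.2) (t, x) :=
      (hw.contDiffOn_u.contDiffAt hmem).differentiableAt one_ne_zero
    rw [derivWithin_of_mem_nhds (Ico_mem_nhds ht.1 ht.2)]
    exact (hasDerivAt_pi.1 (h3.hasFDerivAt.comp_hasDerivAt t hline) i).deriv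
  have h4 : Continuous (fun x => fderiv ℝ (w t) x (w t x) i) :=
    (continuous_apply i).comp ((hwt.continuous_fderiv one_ne_zero).clm_apply hwt.continuous)
  have h5 : Continuous (fun x => fderiv ℝ (q t) x (Pi.single i 1)) :=
    (hqt.continuous_fderiv one_ne_zero).clm_apply continuous_const
  unfold momentumTerm
  simp only [h2, sum_mul_clm]
  exact (h1.add h4).add h5

lemma momentum_periodic (hw : IsSolutionWithout R (Ico 0 T) w q) {t : ℝ} (ht : t ∈ Ico 0 T)
    (i : Fin 3) : Periodic3 (momentumTerm (Ico 0 T) w q t i) := by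
  intro j x
  unfold momentumTerm
  have h1 : derivWithin (fun s => w s (x + Pi.single j (2 * Real.pi)) i) (Ico 0 T) t
      = derivWithin (fun s => w s x i) (Ico 0 T) t :=
    derivWithin_congr (fun s hs => by rw [hw.periodic_u s hs j x])
      (by rw [hw.periodic_u t ht j x])
  rw [h1, hw.periodic_u t ht j x, (hw.periodic_u t ht).fderiv j x, (hw.periodic_p t ht).fderiv j x]

/-- The pointwise energy identity for the difference of two solutions. -/
lemma dS_eq (hw : IsSolutionWithout R (Ico 0 T) w q)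
    (hu : IsSolutionWithout R (Ico 0 T) u p) {t : ℝ} (ht : t ∈ Ioo 0 T)
    (x : V) :
    dS w u t x = ∑ i, 2 * ((w t x i - u t x i)
        * (momentumTerm (Ico 0 T) w q t i x - momentumTerm (Ico 0 T) u p t i x))
      - divergence (fun y => sq3 (w t y - u t y) • w t y) x
      - 2 * divergence (fun y => (q t y - p t y) • (w t y - u t y)) x
      - ∑ i, 2 * (w t x - u t x) i * fderiv ℝ (u t) x (w t x - u t x) i := by
  have htI : t ∈ Ico 0 T := ⟨ht.1.le, ht.2⟩
  have hwt : ContDiff ℝ 1 (w t) := contDiff_slice hw.contDiffOn_u htI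
  have hqt : ContDiff ℝ 1 (q t) := contDiff_slice hw.contDiffOn_p htI
  have hut : ContDiff ℝ 1 (u t) := contDiff_slice hu.contDiffOn_u htI
  have hpt : ContDiff ℝ 1 (p t) := contDiff_slice hu.contDiffOn_p htI
  have dw : DifferentiableAt ℝ (w t) x := hwt.differentiable one_ne_zero x
  have dq : DifferentiableAt ℝ (q t) x := hqt.differentiable one_ne_zero x
  have du : DifferentiableAt ℝ (u t) x := hut.differentiable one_ne_zero x
  have dp : DifferentiableAt ℝ (p t) x := hpt.differentiable one_ne_zero x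
  have dW : DifferentiableAt ℝ (fun y => w t y - u t y) x := dw.sub du
  have dQ : DifferentiableAt ℝ (fun y => q t y - p t y) x := dq.sub dp
  have hwi := time_deriv hw ht x
  have hui := time_deriv hu ht x
  set A := fun i => momentumTerm (Ico 0 T) w q t i x with hA
  set B := fun i => momentumTerm (Ico 0 T) u p t i x with hB
  have hSt : HasDerivAt (fun s => sq3 (w s x - u s x))
      (∑ i, 2 * (w t x - u t x) i * ((A i - fderiv ℝ (w t) x (w t x) i
        - fderiv ℝ (q t) x (Pi.single i 1)) - (B i - fderiv ℝ (u t) x (u t x) i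
        - fderiv ℝ (p t) x (Pi.single i 1)))) t := by
    unfold sq3
    refine HasDerivAt.fun_sum fun i _ => ?_
    have h := ((hwi i).sub (hui i)).pow 2
    refine h.congr_deriv ?_
    simp [hA, hB]
  rw [(hasDerivAt_S hw hu ht x).unique hSt]
  -- space derivatives
  have hSd : HasFDerivAt (fun y => sq3 (w t y - u t y))
      ((∑ i, (2 * (w t x - u t x) i) • (ContinuousLinearMap.proj i : V →L[ℝ] ℝ)) ∘L
        (fderiv ℝ (w t) x - fderiv ℝ (u t) x)) x :=
    HasFDerivAt.comp (g := sq3) (f := fun y => w t y - u t y) x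
      (hasFDerivAt_sq3 (w t x - u t x)) (dw.hasFDerivAt.sub du.hasFDerivAt)
  have hQd : fderiv ℝ (fun y => q t y - p t y) x = fderiv ℝ (q t) x - fderiv ℝ (p t) x :=
    (dq.hasFDerivAt.sub dp.hasFDerivAt).fderiv
  rw [divergence_smul hSd.differentiableAt dw, divergence_smul dQ dW, hSd.fderiv, hQd,
    hw.div_free t htI]
  have hWdiv : divergence (fun y => w t y - u t y) x = 0 := by
    have h1 : fderiv ℝ (fun y => w t y - u t y) x = fderiv ℝ (w t) x - fderiv ℝ (u t) x :=
      (dw.hasFDerivAt.sub du.hasFDerivAt).fderiv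
    have h2 := hw.div_free t htI x
    have h3 := hu.div_free t htI x
    rw [divergence_eq_sum] at h2 h3 ⊢
    rw [h1]
    simp only [sub_apply, Pi.sub_apply, Finset.sum_sub_distrib, h2, h3,
      sub_zero]
  rw [hWdiv, ← sum_mul_clm' (fderiv ℝ (q t) x - fderiv ℝ (p t) x)]
  have hlin : ∀ i, fderiv ℝ (u t) x (w t x - u t x) i
      = fderiv ℝ (u t) x (w t x) i - fderiv ℝ (u t) x (u t x) i := by
    intro i; rw [map_sub]; rfl
  simp only [hlin, ContinuousLinearMap.comp_apply, sum_apply,
    smul_apply, sub_apply, ContinuousLinearMap.proj_apply,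
    Pi.sub_apply, smul_eq_mul, mul_zero, zero_add, Finset.mul_sum,
    ← Finset.sum_sub_distrib]
  refine Finset.sum_congr rfl fun i _ => ?_
  simp only [hA, hB]
  ring

/-- The mixed term vanishes. -/
lemma mixed_zero (hw : IsSolutionWithout R (Ico 0 T) w q)
    (hu : IsSolutionWithout R (Ico 0 T) u p) {t : ℝ} (ht : t ∈ Ioo 0 T) (i : Fin 3) :
    ∫ x in Dom, (w t x i - u t x i)
        * (momentumTerm (Ico 0 T) w q t i x - momentumTerm (Ico 0 T) u p t i x) = 0 := by
  have htI : t ∈ Ico 0 T := ⟨ht.1.le, ht.2⟩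
  have hwt : ContDiff ℝ 1 (w t) := contDiff_slice hw.contDiffOn_u htI
  have hut : ContDiff ℝ 1 (u t) := contDiff_slice hu.contDiffOn_u htI
  have cw : Continuous (fun x => w t x i) := (continuous_apply i).comp hwt.continuous
  have cu : Continuous (fun x => u t x i) := (continuous_apply i).comp hut.continuous
  have pw : Periodic3 (fun x => w t x i) := comp_periodic (hw.periodic_u t htI) i
  have pu : Periodic3 (fun x => u t x i) := comp_periodic (hu.periodic_u t htI) i
  have cA := momentum_continuous hw ht i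
  have cB := momentum_continuous hu ht i
  have pA := momentum_periodic hw htI i
  have pB := momentum_periodic hu htI i
  -- coefficients of a difference
  have sub_sin : ∀ {f g : V → ℝ}, Continuous f → Continuous g → Periodic3 f → Periodic3 g →
      ∀ k : Fin 3 → ℤ, ∫ x in Dom, (f x - g x) * Real.sin (ph k x) = sinCoeff k f - sinCoeff k g := by
    intro f g cf cg pf pg k
    have i1 : IntegrableOn (fun x => f x * Real.sin (ph k x)) Dom := by
      refine Periodic3.integrableOn ?_
        (cf.mul (Real.continuous_sin.comp (ph_contDiff k).continuous))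
      intro j x
      have := sin_periodic k j x
      simp only at this ⊢
      rw [this, pf j x]
    have i2 : IntegrableOn (fun x => g x * Real.sin (ph k x)) Dom := by
      refine Periodic3.integrableOn ?_
        (cg.mul (Real.continuous_sin.comp (ph_contDiff k).continuous))
      intro j x
      have := sin_periodic k j x
      simp only at this ⊢
      rw [this, pg j x]
    rw [sinCoeff_eq pf, sinCoeff_eq pg, ← integral_sub i1 i2]
    simp only [sub_mul]
  have sub_cos : ∀ {f g : V → ℝ}, Continuous f → Continuous g → Periodic3 f → Periodic3 g →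
      ∀ k : Fin 3 → ℤ, ∫ x in Dom, (f x - g x) * Real.cos (ph k x) = cosCoeff k f - cosCoeff k g := by
    intro f g cf cg pf pg k
    have i1 : IntegrableOn (fun x => f x * Real.cos (ph k x)) Dom := by
      refine Periodic3.integrableOn ?_
        (cf.mul (Real.continuous_cos.comp (ph_contDiff k).continuous))
      intro j x
      have := cos_periodic k j x
      simp only at this ⊢
      rw [this, pf j x]
    have i2 : IntegrableOn (fun x => g x * Real.cos (ph k x)) Dom := by
      refine Periodic3.integrableOn ?_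
        (cg.mul (Real.continuous_cos.comp (ph_contDiff k).continuous))
      intro j x
      have := cos_periodic k j x
      simp only at this ⊢
      rw [this, pg j x]
    rw [cosCoeff_eq pf, cosCoeff_eq pg, ← integral_sub i1 i2]
    simp only [sub_mul]
  refine integral_mul_eq_zero (f := fun x => w t x i - u t x i)
    (g := fun x => momentumTerm (Ico 0 T) w q t i x - momentumTerm (Ico 0 T) u p t i x)
    ?_ (cw.sub cu) ?_ (cA.sub cB) fun k => ?_
  · intro j x
    have h1 := pw j x
    have h2 := pu j x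
    simp only at h1 h2 ⊢
    rw [h1, h2]
  · intro j x
    simp only
    rw [pA j x, pB j x]
  · by_cases hk : k ∈ R
    · left
      obtain ⟨a1, a2⟩ := hw.modes t htI k hk i
      obtain ⟨b1, b2⟩ := hu.modes t htI k hk i
      exact ⟨by rw [sub_cos cw cu pw pu, a1, b1, sub_zero],
        by rw [sub_sin cw cu pw pu, a2, b2, sub_zero]⟩
    · right
      obtain ⟨a1, a2⟩ := hw.momentum t htI k hk i
      obtain ⟨b1, b2⟩ := hu.momentum t htI k hk i
      exact ⟨by rw [sub_cos cA cB pA pB, a1, b1, sub_zero],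
        by rw [sub_sin cA cB pA pB, a2, b2, sub_zero]⟩

/-- The derivative of the energy of the difference is controlled by the energy. -/
lemma en_deriv_le (hw : IsSolutionWithout R (Ico 0 T) w q)
    (hu : IsSolutionWithout R (Ico 0 T) u p) {K : ℝ}
    (hK : ∀ t ∈ Ico 0 T, ∀ x i j, |grad (u t) x i j| ≤ K) {t : ℝ} (ht : t ∈ Ioo 0 T) :
    |∫ x in Dom, dS w u t x| ≤ 6 * K * en w u t := by
  have htI : t ∈ Ico 0 T := ⟨ht.1.le, ht.2⟩
  have hwt : ContDiff ℝ 1 (w t) := contDiff_slice hw.contDiffOn_u htI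
  have hqt : ContDiff ℝ 1 (q t) := contDiff_slice hw.contDiffOn_p htI
  have hut : ContDiff ℝ 1 (u t) := contDiff_slice hu.contDiffOn_u htI
  have hpt : ContDiff ℝ 1 (p t) := contDiff_slice hu.contDiffOn_p htI
  have hup := hu.periodic_u t htI
  have hW : ContDiff ℝ 1 (fun y => w t y - u t y) := hwt.sub hut
  have g1 : ContDiff ℝ 1 (fun y => sq3 (w t y - u t y) • w t y) :=
    (sq3_contDiff.comp hW).smul hwt
  have g1p : Periodic3 (fun y => sq3 (w t y - u t y) • w t y) := by
    intro i x
    simp only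
    rw [hw.periodic_u t htI i x, hup i x]
  have g2 : ContDiff ℝ 1 (fun y => (q t y - p t y) • (w t y - u t y)) := (hqt.sub hpt).smul hW
  have g2p : Periodic3 (fun y => (q t y - p t y) • (w t y - u t y)) := by
    intro i x
    simp only
    rw [hw.periodic_u t htI i x, hup i x, hw.periodic_p t htI i x, hu.periodic_p t htI i x]
  set Rm : V → ℝ := fun x => ∑ i, 2 * (w t x - u t x) i * fderiv ℝ (u t) x (w t x - u t x) i
    with hRm
  have hRc : Continuous Rm := by
    have hf : Continuous (fun x => fderiv ℝ (u t) x (w t x - u t x)) :=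
      (hut.continuous_fderiv one_ne_zero).clm_apply hW.continuous
    refine continuous_finsetSum _ fun i _ => ?_
    exact (continuous_const.mul ((continuous_apply i).comp hW.continuous)).mul
      ((continuous_apply i).comp hf)
  have hRp : Periodic3 Rm := by
    intro i x
    simp only [hRm]
    rw [hw.periodic_u t htI i x, hup i x, hup.fderiv i x]
  set X : Fin 3 → V → ℝ := fun i x => (w t x i - u t x i)
        * (momentumTerm (Ico 0 T) w q t i x - momentumTerm (Ico 0 T) u p t i x) with hX
  have hXp : ∀ i, Periodic3 (X i) := by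
    intro i j x
    simp only [hX]
    rw [hw.periodic_u t htI j x, hup j x, momentum_periodic hw htI i j x,
      momentum_periodic hu htI i j x]
  have hXc : ∀ i, Continuous (X i) := fun i =>
    (((continuous_apply i).comp hwt.continuous).sub ((continuous_apply i).comp hut.continuous)).mul
      ((momentum_continuous hw ht i).sub (momentum_continuous hu ht i))
  have iX : ∀ i, IntegrableOn (X i) Dom := fun i => (hXp i).integrableOn (hXc i)
  have iX' : IntegrableOn (fun x => ∑ i, 2 * X i x) Dom :=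
    integrable_finsetSum _ fun i _ => (iX i).const_mul 2
  have i1 : IntegrableOn (fun x => divergence (fun y => sq3 (w t y - u t y) • w t y) x) Dom :=
    g1p.trace.integrableOn (continuous_grad g1).matrix_trace
  have i2 : IntegrableOn (fun x => divergence (fun y => (q t y - p t y) • (w t y - u t y)) x) Dom :=
    g2p.trace.integrableOn (continuous_grad g2).matrix_trace
  have iR : IntegrableOn Rm Dom := hRp.integrableOn hRc
  have e1 : ∫ x in Dom, dS w u t x = -∫ x in Dom, Rm x := by
    have : ∀ x, dS w u t x = ((∑ i, 2 * X i x)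
        - divergence (fun y => sq3 (w t y - u t y) • w t y) x)
        - 2 * divergence (fun y => (q t y - p t y) • (w t y - u t y)) x - Rm x :=
      fun x => dS_eq hw hu ht x
    simp_rw [this]
    have a1 : ∫ x in Dom, (((∑ i, 2 * X i x)
        - divergence (fun y => sq3 (w t y - u t y) • w t y) x)
        - 2 * divergence (fun y => (q t y - p t y) • (w t y - u t y)) x - Rm x)
        = (∫ x in Dom, (((∑ i, 2 * X i x)
        - divergence (fun y => sq3 (w t y - u t y) • w t y) x)
        - 2 * divergence (fun y => (q t y - p t y) • (w t y - u t y)) x)) - ∫ x in Dom, Rm x :=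
      integral_sub ((iX'.sub i1).sub (i2.const_mul 2)) iR
    have a2 : ∫ x in Dom, (((∑ i, 2 * X i x)
        - divergence (fun y => sq3 (w t y - u t y) • w t y) x)
        - 2 * divergence (fun y => (q t y - p t y) • (w t y - u t y)) x)
        = (∫ x in Dom, ((∑ i, 2 * X i x)
        - divergence (fun y => sq3 (w t y - u t y) • w t y) x))
        - ∫ x in Dom, 2 * divergence (fun y => (q t y - p t y) • (w t y - u t y)) x :=
      integral_sub (iX'.sub i1) (i2.const_mul 2)
    have a3 : ∫ x in Dom, ((∑ i, 2 * X i x)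
        - divergence (fun y => sq3 (w t y - u t y) • w t y) x)
        = (∫ x in Dom, ∑ i, 2 * X i x)
          - ∫ x in Dom, divergence (fun y => sq3 (w t y - u t y) • w t y) x :=
      integral_sub iX' i1
    rw [a1, a2, a3, integral_finsetSum _ fun i _ => (iX i).const_mul 2, integral_const_mul,
      integral_divergence_eq_zero g1 g1p, integral_divergence_eq_zero g2 g2p]
    have hz : ∀ i, ∫ x in Dom, 2 * X i x = 0 := by
      intro i
      rw [integral_const_mul, hX]
      simp only
      rw [mixed_zero hw hu ht i, mul_zero]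
    simp [hz]
  rw [e1, abs_neg]
  have hK0 : 0 ≤ K := (abs_nonneg _).trans (hK t htI 0 0 0)
  have hpt : ∀ x, ‖Rm x‖ ≤ 6 * K * sq3 (w t x - u t x) := fun x =>
    quad_bound (L := fderiv ℝ (u t) x) (fun i j => hK t htI x i j) (w t x - u t x)
  have iS : IntegrableOn (fun x => 6 * K * sq3 (w t x - u t x)) Dom := by
    have : Periodic3 (fun x => sq3 (w t x - u t x)) := by
      intro i x
      simp only
      rw [hw.periodic_u t htI i x, hup i x]
    exact (this.integrableOn ((sq3_contDiff (n := 1)).comp hW).continuous).const_mul (6 * K)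
  have := norm_integral_le_of_norm_le iS (Filter.Eventually.of_forall hpt)
  rw [integral_const_mul] at this
  exact this

/-- Uniqueness. -/
theorem unique (hw : IsSolutionWithout R (Ico 0 T) w q)
    (hu : IsSolutionWithout R (Ico 0 T) u p) {K : ℝ}
    (hK : ∀ t ∈ Ico 0 T, ∀ x i j, |grad (u t) x i j| ≤ K)
    (h0 : w 0 = u 0) : ∀ t ∈ Ico 0 T, w t = u t := by
  intro t ht
  have hTpos : 0 < T := ht.1.trans_lt ht.2
  have hcont := en_continuousOn hw hu
  have hE0 : en w u 0 = 0 := by
    unfold en
    rw [h0]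
    simp [sq3]
  have hEz : en w u t = 0 := by
    refine le_antisymm ?_ (en_nonneg t)
    have hanti : AntitoneOn (fun s => en w u s * Real.exp (-(6 * K) * s)) (Ico 0 T) := by
      have hder : ∀ s ∈ interior (Ico 0 T), HasDerivAt
          (fun s => en w u s * Real.exp (-(6 * K) * s))
          ((∫ x in Dom, dS w u s x) * Real.exp (-(6 * K) * s)
            + en w u s * (Real.exp (-(6 * K) * s) * (-(6 * K) * 1))) s := by
        intro s hs
        rw [interior_Ico] at hs
        exact (en_hasDerivAt hw hu hs).mul (((hasDerivAt_id s).const_mul (-(6 * K))).exp)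
      refine antitoneOn_of_deriv_nonpos (convex_Ico _ _) ?_ ?_ ?_
      · exact hcont.mul (by fun_prop)
      · intro s hs
        exact (hder s hs).differentiableAt.differentiableWithinAt
      · intro s hs
        rw [(hder s hs).deriv]
        rw [interior_Ico] at hs
        have h1 := (abs_le.1 (en_deriv_le hw hu hK hs)).2
        have h2 : 0 < Real.exp (-(6 * K) * s) := Real.exp_pos _
        nlinarith
    have h1 := hanti ⟨le_rfl, hTpos⟩ ht ht.1
    simp only [hE0, zero_mul] at h1
    exact nonpos_of_mul_nonpos_left h1 (Real.exp_pos _)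
  have hwt : ContDiff ℝ 1 (w t) := contDiff_slice hw.contDiffOn_u ht
  have hut : ContDiff ℝ 1 (u t) := contDiff_slice hu.contDiffOn_u ht
  have hW : ContDiff ℝ 1 (fun y => w t y - u t y) := hwt.sub hut
  have hper : Periodic3 (fun x => sq3 (w t x - u t x)) := by
    intro i x
    simp only
    rw [hw.periodic_u t ht i x, hu.periodic_u t ht i x]
  have hz := eq_zero_of_integral_eq_zero hper ((sq3_contDiff (n := 1)).comp hW).continuous
    (fun x => sq3_nonneg _) hEz
  ext1 x
  exact sub_eq_zero.1 (sq3_eq_zero (hz x))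

end Pool.Agent.Y302.Trunc
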