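import Pool.Agent.Y302.Trunc.Sol
import Pool.Agent.Y302.Trunc.Uniq

/-!
Blow-up and the final statement.
-/

set_option autoImplicit false

open Set Filter Topology MeasureTheory
open scoped ContDiff

namespace Pool.Agent.Y302.Trunc

open Pool.Agent.H708R2.EulerSign (V Periodic3 Dom divergence grad sum_mul_clm sum_mul_clm'
  divergence_eq_sum contDiff_slice divergence_smul dom_bdd dom_meas dom_lt_top
  integral_divergence_eq_zero continuous_grad)
open Pool.Agent.H708R2.EulerModes
open Pool.Agent.H708R2.EulerTypeI (nrm vort)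
open Pool.Agent.Y302.KP

/-- Integration by parts against a cosine. -/
lemma int_deriv_cos {v : V → V} (hv : ContDiff ℝ 1 v) (hp : Periodic3 v) (l : K3) (j k : Fin 3) :
    ∫ x in Dom, grad v x k j * Real.cos (ph l x)
      = (l j : ℝ) * ∫ x in Dom, v x k * Real.sin (ph l x) := by
  have hφ : ContDiff ℝ 1 (fun x => v x k * Real.cos (ph l x)) :=
    ((contDiff_apply ℝ ℝ k).comp hv).mul ((Real.contDiff_cos.comp (ph_contDiff l)).of_le
      (by exact_mod_cast le_top))
  have hg : ContDiff ℝ 1 (fun x => (v x k * Real.cos (ph l x)) • (Pi.single j (1 : ℝ) : V)) :=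
    hφ.smul contDiff_const
  have hgp : Periodic3 (fun x => (v x k * Real.cos (ph l x)) • (Pi.single j (1 : ℝ) : V)) := by
    intro i x
    have := cos_periodic l i x
    simp only at this ⊢
    rw [this, hp i x]
  have h1 := integral_divergence_eq_zero hg hgp
  have h2 : ∀ x, divergence (fun x => (v x k * Real.cos (ph l x)) • (Pi.single j (1 : ℝ) : V)) x
      = grad v x k j * Real.cos (ph l x) - (l j : ℝ) * (v x k * Real.sin (ph l x)) := by
    intro x
    rw [divergence_smul (hφ.differentiable one_ne_zero x) (differentiableAt_const _)]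
    have h3 : divergence (fun _ : V => (Pi.single j (1 : ℝ) : V)) x = 0 := by
      rw [divergence_eq_sum]
      simp
    have h4 : HasFDerivAt (fun x => v x k)
        ((ContinuousLinearMap.proj k : V →L[ℝ] ℝ).comp (fderiv ℝ v x)) x :=
      (ContinuousLinearMap.proj k : V →L[ℝ] ℝ).hasFDerivAt.comp x
        ((hv.differentiable one_ne_zero) x).hasFDerivAt
    have h5 : HasFDerivAt (fun x => Real.cos (ph l x)) ((-Real.sin (ph l x)) • phL l) x :=
      (Real.hasDerivAt_cos (ph l x)).comp_hasFDerivAt x (fderiv_ph l x)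
    have h6 := (h4.mul h5).fderiv
    rw [h3, mul_zero, zero_add]
    have h7 : fderiv ℝ (fun x => v x k * Real.cos (ph l x)) x (Pi.single j 1)
        = v x k * (-Real.sin (ph l x) * (l j : ℝ)) + Real.cos (ph l x) * fderiv ℝ v x
          (Pi.single j 1) k := by
      have h8 : (fun x => v x k * Real.cos (ph l x))
        = (fun x => v x k) * (fun x => Real.cos (ph l x)) := rfl
      rw [h8, h6]
      simp [phL_apply, ph_single]
    rw [h7]
    have h9 : grad v x k j = fderiv ℝ v x (Pi.single j 1) k := rfl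
    rw [h9]
    ring
  simp only [h2] at h1
  have cc : Continuous (fun x => Real.cos (ph l x)) :=
    Real.continuous_cos.comp (ph_contDiff l).continuous
  have cs : Continuous (fun x => Real.sin (ph l x)) :=
    Real.continuous_sin.comp (ph_contDiff l).continuous
  have cg : Continuous (fun x => grad v x k j) :=
    (continuous_grad hv).matrix_elem k j
  have i1 : IntegrableOn (fun x => grad v x k j * Real.cos (ph l x)) Dom := by
    refine Periodic3.integrableOn ?_ (cg.mul cc)
    intro i x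
    have := cos_periodic l i x
    simp only at this ⊢
    rw [this, hp.grad i x]
  have i2 : IntegrableOn (fun x => v x k * Real.sin (ph l x)) Dom := by
    refine Periodic3.integrableOn ?_ (((continuous_apply k).comp hv.continuous).mul cs)
    intro i x
    have := sin_periodic l i x
    simp only at this ⊢
    rw [this, hp i x]
  rw [integral_sub i1 (i2.const_mul _), integral_const_mul] at h1
  linarith

lemma vort_zero (v : V → V) (x : V) : vort v x 0 = grad v x 2 1 - grad v x 1 2 := rfl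

lemma abs_le_nrm (y : V) (i : Fin 3) : |y i| ≤ nrm y := by
  unfold nrm
  refine Real.abs_le_sqrt ?_
  rw [dotProduct, Fin.sum_univ_three]
  fin_cases i <;> simp <;> nlinarith [sq_nonneg (y 0), sq_nonneg (y 1), sq_nonneg (y 2)]

lemma continuous_vort {v : V → V} (hv : ContDiff ℝ 1 v) : Continuous (vort v) := by
  have h := continuous_grad hv
  refine continuous_pi fun i => ?_
  fin_cases i
  · exact (h.matrix_elem 2 1).sub (h.matrix_elem 1 2)
  · exact (h.matrix_elem 0 2).sub (h.matrix_elem 2 0)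
  · exact (h.matrix_elem 1 0).sub (h.matrix_elem 0 1)

lemma continuous_nrm : Continuous nrm := by
  unfold nrm
  exact Real.continuous_sqrt.comp (continuous_id.dotProduct continuous_id)

lemma nrm_vort_periodic {v : V → V} (hp : Periodic3 v) : Periodic3 (fun x => nrm (vort v x)) := by
  intro i x
  have h : grad v (x + Pi.single i (2 * Real.pi)) = grad v x := hp.grad i x
  simp only [vort, h]

/-- A lower bound for the `L¹` norm of the vorticity. -/
lemma vort_lower {v : V → V} (hv : ContDiff ℝ 1 v) (hp : Periodic3 v) (l : K3) :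
    |(l 1 : ℝ) * (∫ x in Dom, v x 2 * Real.sin (ph l x))
      - (l 2 : ℝ) * ∫ x in Dom, v x 1 * Real.sin (ph l x)| ≤ ∫ x in cube, nrm (vort v x) := by
  rw [integral_cube (nrm_vort_periodic hp), ← int_deriv_cos hv hp, ← int_deriv_cos hv hp]
  have cc : Continuous (fun x => Real.cos (ph l x)) :=
    Real.continuous_cos.comp (ph_contDiff l).continuous
  have ig : ∀ k j, IntegrableOn (fun x => grad v x k j * Real.cos (ph l x)) Dom := by
    intro k j
    refine Periodic3.integrableOn ?_ (((continuous_grad hv).matrix_elem k j).mul cc)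
    intro i x
    have := cos_periodic l i x
    simp only at this ⊢
    rw [this, hp.grad i x]
  rw [← integral_sub (ig 2 1) (ig 1 2)]
  have iN : IntegrableOn (fun x => nrm (vort v x)) Dom :=
    (nrm_vort_periodic hp).integrableOn (continuous_nrm.comp (continuous_vort hv))
  rw [← Real.norm_eq_abs]
  refine norm_integral_le_of_norm_le iN (Eventually.of_forall fun x => ?_)
  rw [← sub_mul, norm_mul]
  have h1 : ‖grad v x 2 1 - grad v x 1 2‖ ≤ nrm (vort v x) := by
    rw [← vort_zero]; exact abs_le_nrm _ 0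
  calc _ ≤ nrm (vort v x) * 1 := mul_le_mul h1 (Real.abs_cos_le_one _) (abs_nonneg _)
        ((norm_nonneg _).trans h1)
    _ = _ := mul_one _

/-- The volume of the period cell. -/
lemma volume_Dom : (volume (Dom : Set V)).toReal = (2 * Real.pi) ^ 3 := by
  have e2 : (Dom : Set V) = Set.pi univ (fun _ : Fin 3 => Ico (0 : ℝ) (2 * Real.pi)) := by
    ext x
    rw [mem_Dom]
    simp
  rw [e2, volume_pi_pi]
  simp only [Real.volume_Ico, sub_zero, Finset.prod_const, Finset.card_univ, Fintype.card_fin]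
  rw [ENNReal.toReal_pow, ENNReal.toReal_ofReal (by positivity)]

lemma exists_big_L : ∀ i < 4, ∃ v ∈ L i,
    11 * bac i ≤ 12 * |v.2.1 * f i v.2.2 - v.2.2 * f i v.2.1| := by decide +kernel

variable {M : ℕ}

lemma exists_big (hM : 0 < M) (n : ℕ) : ∃ l ∈ Lev M n,
    11 * gc M n ≤ 12 * |(l 1 : ℝ) * (am M n l 2 : ℝ) - (l 2 : ℝ) * (am M n l 1 : ℝ)| := by
  obtain ⟨v, hv, h⟩ := exists_big_L (n % 4) (Nat.mod_lt _ (by norm_num))
  refine ⟨sg M n • toK v, (mem_Lev hM).2 hv, ?_⟩
  have hs := sg_pos hM n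
  rw [gc, sr_eq]
  have e1 : (sg M n • toK v) 1 = sg M n * v.2.1 := rfl
  have e2 : (sg M n • toK v) 2 = sg M n * v.2.2 := rfl
  have e3 : am M n (sg M n • toK v) 1 = f (n % 4) v.2.1 := am_smul hM n v 1
  have e4 : am M n (sg M n • toK v) 2 = f (n % 4) v.2.2 := am_smul hM n v 2
  rw [e1, e2, e3, e4]
  have h2 : 11 * (sg M n * bac (n % 4))
      ≤ 12 * |sg M n * v.2.1 * f (n % 4) v.2.2 - sg M n * v.2.2 * f (n % 4) v.2.1| := by
    have e5 : sg M n * v.2.1 * f (n % 4) v.2.2 - sg M n * v.2.2 * f (n % 4) v.2.1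
        = sg M n * (v.2.1 * f (n % 4) v.2.2 - v.2.2 * f (n % 4) v.2.1) := by ring
    rw [e5, abs_mul, abs_of_pos hs]
    nlinarith
  exact_mod_cast h2

variable {T Ts : ℝ} {a : ℕ → ℝ → ℝ}

section main

variable (h : IsSol (Fc M) (gc M) T a) (hM : 0 < M) (hT : Ts < T)
  (hdec : ∀ T' < Ts, ∀ s : ℕ, ∃ B, ∀ t ∈ Icc 0 T', ∀ n, (2 : ℝ) ^ (s * n) * a n t ≤ B)
  (hrate : ∀ t ∈ Ico 0 Ts, ∀ B, (∀ n, gc M n * a n t ≤ B) → 1 / (5 * (Ts - t)) ≤ B)

include h hM hT hdec

lemma contDiff_uu {t : ℝ} (ht : t ∈ Ico 0 Ts) : ContDiff ℝ 1 (uu M a t) :=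
  (uu_smooth h hM hT hdec ht).of_le (by exact_mod_cast le_top)

include hrate in
/-- The blow-up rate. -/
theorem blowup_rate {t : ℝ} (ht : t ∈ Ico 0 Ts) :
    39 / (Ts - t) ≤ ∫ x in cube, nrm (vort (uu M a t) x) := by
  set I := ∫ x in cube, nrm (vort (uu M a t) x) with hI
  have hvol := volume_Dom
  have hpos : 0 < (volume (Dom : Set V)).toReal := vol_pos
  have hbd : ∀ n, gc M n * a n t ≤ 12 / 11 * (I / (volume (Dom : Set V)).toReal) := by
    intro n
    obtain ⟨l, hl, hbig⟩ := exists_big hM n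
    have h1 := vort_lower (contDiff_uu h hM hT hdec ht) (uu_periodic (M := M) (a := a) t) l
    rw [uu_coeff h hM hT hdec ht hl, uu_coeff h hM hT hdec ht hl, ← hI] at h1
    have hn : 0 ≤ a n t := h.nonneg n t ⟨ht.1, (ht.2.trans hT).le⟩
    have e : (l 1 : ℝ) * (a n t * (2 * vc * (am M n l 2 : ℝ)))
        - (l 2 : ℝ) * (a n t * (2 * vc * (am M n l 1 : ℝ)))
        = (a n t * (volume (Dom : Set V)).toReal)
          * ((l 1 : ℝ) * (am M n l 2 : ℝ) - (l 2 : ℝ) * (am M n l 1 : ℝ)) := by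
      unfold vc; ring
    rw [e, abs_mul, abs_of_nonneg (mul_nonneg hn hpos.le)] at h1
    have h2 : (a n t * (volume (Dom : Set V)).toReal) * (11 * gc M n) ≤ 12 * I := by
      calc _ ≤ (a n t * (volume (Dom : Set V)).toReal)
            * (12 * |(l 1 : ℝ) * (am M n l 2 : ℝ) - (l 2 : ℝ) * (am M n l 1 : ℝ)|) :=
            mul_le_mul_of_nonneg_left hbig (mul_nonneg hn hpos.le)
        _ ≤ 12 * I := by linarith
    have h3 : 12 / 11 * (I / (volume (Dom : Set V)).toReal)
        = (12 * I) / (11 * (volume (Dom : Set V)).toReal) := by field_simp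
    rw [h3, le_div_iff₀ (by positivity)]
    linarith
  have h4 := hrate t ht _ hbd
  have hd : 0 < Ts - t := by linarith [ht.2]
  have hvge : 216 ≤ (volume (Dom : Set V)).toReal := by
    rw [hvol]
    have h5 := Real.pi_gt_three
    calc (216 : ℝ) = (2 * 3) ^ 3 := by norm_num
      _ ≤ (2 * Real.pi) ^ 3 := by gcongr
  have h6 : 1 / (5 * (Ts - t)) * (11 / 12) * (volume (Dom : Set V)).toReal ≤ I := by
    calc _ ≤ (12 / 11 * (I / (volume (Dom : Set V)).toReal)) * (11 / 12)
          * (volume (Dom : Set V)).toReal := by gcongr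
      _ = I := by field_simp
  refine le_trans ?_ h6
  have h7 : 1 / (5 * (Ts - t)) * (11 / 12) * (volume (Dom : Set V)).toReal
      = (11 / 60 * (volume (Dom : Set V)).toReal) / (Ts - t) := by field_simp; ring
  rw [h7]
  exact div_le_div_of_nonneg_right (by linarith) hd.le

/-- A bound for the gradient before the blow-up time. -/
lemma grad_bound {T' : ℝ} (hT' : T' < Ts) :
    ∃ K, ∀ t ∈ Ico 0 T', ∀ x i j, |grad (uu M a t) x i j| ≤ K := by
  obtain ⟨w, hw, hb⟩ := (RD_exa h hT hdec).sum (M := M) (RD_exb h hM hT hdec) hT'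
  refine ⟨∑' n, w n * Bd M n, fun t ht x i j => ?_⟩
  have ht' : t ∈ Ico 0 Ts := ⟨ht.1, ht.2.trans hT'⟩
  have htI : t ∈ Icc (-T') T' := ⟨by linarith [ht.1, ht.2], ht.2.le⟩
  have h1 : grad (uu M a t) x i j = fderiv ℝ (uu M a t) x (Pi.single j 1) i := rfl
  rw [h1, fderiv_uu h hM hT hdec ht']
  have h2 : ‖∑' n, exa a n t • fderiv ℝ (Ef M n) x‖ ≤ ∑' n, w n * Bd M n := by
    refine tsum_of_norm_bounded hw.hasSum fun n => ?_
    rw [norm_smul]
    exact mul_le_mul (hb n t htI).1 (norm_dEf hM n x) (norm_nonneg _)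
      ((abs_nonneg _).trans (hb n t htI).1)
  have h3 := (∑' n, exa a n t • fderiv ℝ (Ef M n) x).le_opNorm (Pi.single j (1 : ℝ) : V)
  rw [Pi.norm_single, norm_one, mul_one] at h3
  exact (norm_le_pi_norm _ i).trans (h3.trans h2)

/-- Uniqueness before the blow-up time. -/
lemma unique_before {R : Set K3} (hR1 : ∀ k ∈ R, k ∉ Cset M) (hR2 : Rset M ⊆ R)
    {T₁ : ℝ} {w : ℝ → V → V} {q : ℝ → V → ℝ}
    (hw : IsSolutionWithout R (Ico 0 T₁) w q) (h0 : w 0 = uu M a 0) {t : ℝ}
    (ht : t ∈ Ico 0 T₁) (ht' : t < Ts) : w t = uu M a t := by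
  obtain ⟨T', h1, h2⟩ := exists_between (lt_min ht.2 ht')
  have hT1 : T' ≤ T₁ := h2.le.trans (min_le_left _ _)
  have hT2 : T' < Ts := h2.trans_le (min_le_right _ _)
  obtain ⟨K, hK⟩ := grad_bound h hM hT hdec hT2
  exact unique (restrict hw hT1) (restrict (isSolution h hM hT hdec hR1 hR2) hT2.le) hK h0 t ⟨ht.1, h1⟩

omit h hM hT hdec in
/-- The gradient of a solution is bounded on compact time intervals. -/
lemma vort_bound {R : Set (Fin 3 → ℤ)} {T₁ : ℝ} {w : ℝ → V → V} {q : ℝ → V → ℝ}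
    (hw : IsSolutionWithout R (Ico 0 T₁) w q) {b c : ℝ} (hb : 0 < b) (hc : c < T₁) :
    ∃ C, ∀ t ∈ Icc b c, ∫ x in cube, nrm (vort (w t) x) ≤ C := by
  have hO : IsOpen (Ioo 0 T₁ ×ˢ (univ : Set V)) := isOpen_Ioo.prod isOpen_univ
  have hS1 : ContDiffOn ℝ 1 (fun z : ℝ × V => w z.1 z.2) (Ioo 0 T₁ ×ˢ univ) :=
    hw.contDiffOn_u.mono (prod_mono Ioo_subset_Ico_self subset_rfl)
  have hd : ContinuousOn (fderiv ℝ (fun z : ℝ × V => w z.1 z.2)) (Ioo 0 T₁ ×ˢ univ) :=
    hS1.continuousOn_fderiv_of_isOpen hO le_rfl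
  have hK : IsCompact (Icc b c ×ˢ closure Dom) := isCompact_Icc.prod dom_bdd.isCompact_closure
  have hsub : Icc b c ×ˢ closure Dom ⊆ Ioo 0 T₁ ×ˢ (univ : Set V) :=
    prod_mono (fun s hs => ⟨hb.trans_le hs.1, hs.2.trans_lt hc⟩) (subset_univ _)
  obtain ⟨C, hC⟩ := hK.exists_bound_of_continuousOn (hd.mono hsub)
  refine ⟨(6 * C) * (volume (Dom : Set V)).toReal, fun t ht => ?_⟩
  have htI : t ∈ Ioo 0 T₁ := ⟨hb.trans_le ht.1, ht.2.trans_lt hc⟩
  have hwp := hw.periodic_u t ⟨htI.1.le, htI.2⟩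
  have hwt : ContDiff ℝ 1 (w t) := contDiff_slice hw.contDiffOn_u ⟨htI.1.le, htI.2⟩
  rw [integral_cube (nrm_vort_periodic hwp)]
  have hg : ∀ x ∈ Dom, ∀ i j, |grad (w t) x i j| ≤ C := by
    intro x hx i j
    have h1 : DifferentiableAt ℝ (fun z : ℝ × V => w z.1 z.2) (t, x) :=
      (hS1.contDiffAt (hO.mem_nhds ⟨htI, mem_univ _⟩)).differentiableAt one_ne_zero
    have h2 : HasFDerivAt (fun y : V => ((t, y) : ℝ × V)) (ContinuousLinearMap.inr ℝ ℝ V) x :=
      hasFDerivAt_prodMk_right t x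
    have h3 : HasFDerivAt (w t) ((fderiv ℝ (fun z : ℝ × V => w z.1 z.2) (t, x)).comp
        (ContinuousLinearMap.inr ℝ ℝ V)) x :=
      HasFDerivAt.comp (g := fun z : ℝ × V => w z.1 z.2) (f := fun y : V => ((t, y) : ℝ × V)) x
        h1.hasFDerivAt h2
    have h4 : grad (w t) x i j = fderiv ℝ (fun z : ℝ × V => w z.1 z.2) (t, x)
        (0, Pi.single j 1) i := by
      have : grad (w t) x i j = fderiv ℝ (w t) x (Pi.single j 1) i := rfl
      rw [this, h3.fderiv]
      rfl
    rw [h4]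
    have h5 := (fderiv ℝ (fun z : ℝ × V => w z.1 z.2) (t, x)).le_opNorm
      ((0, Pi.single j 1) : ℝ × V)
    have h6 : ‖((0, Pi.single j 1) : ℝ × V)‖ = 1 := by
      rw [Prod.norm_def]
      simp only [norm_zero]
      rw [Pi.norm_single, norm_one]
      norm_num
    rw [h6, mul_one] at h5
    exact (norm_le_pi_norm _ i).trans (h5.trans (hC (t, x) ⟨ht, subset_closure hx⟩))
  have hv : ∀ x ∈ Dom, nrm (vort (w t) x) ≤ 6 * C := by
    intro x hx
    have hg' := hg x hx
    have hC0 : 0 ≤ C := (abs_nonneg _).trans (hg' 0 0)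
    have hcomp : ∀ i, |vort (w t) x i| ≤ 2 * C := by
      intro i
      have key : ∀ i j k l : Fin 3, |grad (w t) x i j - grad (w t) x k l| ≤ 2 * C := by
        intro i j k l
        have := abs_sub (grad (w t) x i j) (grad (w t) x k l)
        linarith [hg' i j, hg' k l]
      fin_cases i
      · exact key 2 1 1 2
      · exact key 0 2 2 0
      · exact key 1 0 0 1
    unfold nrm
    refine Real.sqrt_le_iff.2 ⟨by positivity, ?_⟩
    rw [dotProduct, Fin.sum_univ_three]
    have k0 := abs_le.1 (hcomp 0)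
    have k1 := abs_le.1 (hcomp 1)
    have k2 := abs_le.1 (hcomp 2)
    nlinarith
  have hn : ∀ x, 0 ≤ nrm (vort (w t) x) := fun x => Real.sqrt_nonneg _
  have iN : IntegrableOn (fun x => nrm (vort (w t) x)) Dom :=
    (nrm_vort_periodic hwp).integrableOn (continuous_nrm.comp (continuous_vort hwt))
  calc ∫ x in Dom, nrm (vort (w t) x) ≤ ∫ _x in Dom, 6 * C :=
        setIntegral_mono_on iN (integrableOn_const dom_lt_top.ne) dom_meas hv
    _ = _ := by rw [setIntegral_const, smul_eq_mul, Measure.real, mul_comm]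

include hrate in
/-- No solution lives beyond the blow-up time. -/
lemma no_extension {R : Set K3} (hR1 : ∀ k ∈ R, k ∉ Cset M) (hR2 : Rset M ⊆ R)
    {T₁ : ℝ} {w : ℝ → V → V} {q : ℝ → V → ℝ} (hTs : 0 < Ts)
    (hw : IsSolutionWithout R (Ico 0 T₁) w q) (h0 : w 0 = uu M a 0) : T₁ ≤ Ts := by
  by_contra hcon
  push Not at hcon
  obtain ⟨C, hC⟩ := vort_bound hw (b := Ts / 2) (c := Ts) (by positivity) hcon
  -- choose a time close to the blow-up time
  set D := max C 1 with hD
  have hD1 : 1 ≤ D := le_max_right _ _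
  set δ := min (Ts / 2) (1 / D) with hδ
  have hδ0 : 0 < δ := lt_min (by positivity) (by positivity)
  have h1 : δ ≤ Ts / 2 := min_le_left _ _
  have h2 : δ ≤ 1 / D := min_le_right _ _
  have ht : Ts - δ ∈ Icc (Ts / 2) Ts := ⟨by linarith, by linarith⟩
  have ht' : Ts - δ ∈ Ico 0 Ts := ⟨by linarith, by linarith⟩
  have h3 := hC _ ht
  rw [unique_before h hM hT hdec hR1 hR2 hw h0 ⟨ht'.1, ht'.2.trans hcon⟩ ht'.2] at h3
  have h4 := blowup_rate h hM hT hdec hrate ht'
  have h5 : Ts - (Ts - δ) = δ := by ring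
  rw [h5] at h4
  have h6 : 39 * D ≤ 39 / δ := by
    rw [le_div_iff₀ hδ0]
    calc 39 * D * δ ≤ 39 * D * (1 / D) := by gcongr
      _ = 39 := by field_simp
  have h7 : C ≤ D := le_max_left _ _
  linarith

end main

end Pool.Agent.Y302.Trunc
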