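import Pool.Agent.Y302.Trunc.Sparse

/-!
The levels are full spheres when `M` is a power of two.
-/

set_option autoImplicit false

open Finset

namespace Pool.Agent.Y302.Trunc

/-- The squared length. -/
def sql (l : K3) : ℤ := ∑ i, l i ^ 2

/-- The squared lengths of the base levels. -/
def rb : ℕ → ℤ
  | 0 => 11
  | 1 => 40
  | 2 => 88
  | 3 => 208
  | _ => 0

/-- The squared length of the elements of the level `n`. -/
def rho (M n : ℕ) : ℤ := sg M n ^ 2 * rb (n % 4)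

lemma rb_of_mem {i : ℕ} {v : Z3} (hv : v ∈ L i) : v.1 ^ 2 + v.2.1 ^ 2 + v.2.2 ^ 2 = rb i := by
  have h := forall_L (P := fun i v => decide (v.1 ^ 2 + v.2.1 ^ 2 + v.2.2 ^ 2 = rb i))
    (by decide +kernel) hv
  exact of_decide_eq_true h

lemma sql_smul (s : ℤ) (v : Z3) : sql (s • toK v) = s ^ 2 * (v.1 ^ 2 + v.2.1 ^ 2 + v.2.2 ^ 2) := by
  simp only [sql, Fin.sum_univ_three, Pi.smul_apply, smul_eq_mul, toK, co, Fin.val_zero,
    Fin.val_one, Fin.val_two]
  ring

lemma sql_of_mem {M n : ℕ} {l : K3} (h : l ∈ Lev M n) : sql l = rho M n := by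
  obtain ⟨v, hv, rfl⟩ := exists_of_mem_Lev h
  rw [sql_smul, rb_of_mem hv, rho]

lemma descent (e : ℕ) : ∀ (x y z r : ℤ), x ^ 2 + y ^ 2 + z ^ 2 = 4 ^ e * r →
    ∃ x' y' z' : ℤ, x = 2 ^ e * x' ∧ y = 2 ^ e * y' ∧ z = 2 ^ e * z' ∧
      x' ^ 2 + y' ^ 2 + z' ^ 2 = r := by
  induction e with
  | zero =>
    intro x y z r h
    exact ⟨x, y, z, by ring, by ring, by ring, by simpa using h⟩
  | succ e ih =>
    intro x y z r h
    have key : ∀ m : ℤ, x ^ 2 + y ^ 2 + z ^ 2 = 4 * m →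
        ∃ x' y' z' : ℤ, x = 2 * x' ∧ y = 2 * y' ∧ z = 2 * z' := by
      intro m h'
      obtain ⟨x', hx⟩ := Int.even_or_odd' x
      obtain ⟨y', hy⟩ := Int.even_or_odd' y
      obtain ⟨z', hz⟩ := Int.even_or_odd' z
      refine ⟨x', y', z', ?_⟩
      rcases hx with rfl | rfl <;> rcases hy with rfl | rfl <;> rcases hz with rfl | rfl
      · exact ⟨rfl, rfl, rfl⟩
      all_goals
        exfalso
        ring_nf at h'
        omega
    obtain ⟨x', y', z', rfl, rfl, rfl⟩ := key (4 ^ e * r) (by rw [h, pow_succ]; ring)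
    have h2 : x' ^ 2 + y' ^ 2 + z' ^ 2 = 4 ^ e * r := by
      have h5 : (4 : ℤ) ^ (e + 1) = 4 * 4 ^ e := by rw [pow_succ]; ring
      rw [h5] at h
      linarith
    obtain ⟨x, y, z, rfl, rfl, rfl, h3⟩ := ih x' y' z' r h2
    exact ⟨x, y, z, by rw [pow_succ]; ring, by rw [pow_succ]; ring, by rw [pow_succ]; ring, h3⟩

/-- A box. -/
def box : List ℤ := [-4, -3, -2, -1, 0, 1, 2, 3, 4]

/-- All solutions of `x² + y² + z² = r` are, times `c`, in the base level `i`. -/
def sphOK (r c : ℤ) (i : ℕ) : Bool :=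
  box.all fun x => box.all fun y => box.all fun z =>
    !(x ^ 2 + y ^ 2 + z ^ 2 == r) || decide ((c * x, c * y, c * z) ∈ L i)

lemma sph0 : sphOK 11 1 0 = true := by decide +kernel
lemma sph1 : sphOK 10 2 1 = true := by decide +kernel
lemma sph2 : sphOK 22 2 2 = true := by decide +kernel
lemma sph3 : sphOK 13 4 3 = true := by decide +kernel

lemma mem_box {x : ℤ} (h : x ^ 2 ≤ 22) : x ∈ box := by
  have h1 : -4 ≤ x := by nlinarith
  have h2 : x ≤ 4 := by nlinarith
  interval_cases x <;> decide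

lemma mem_of_sph {r c : ℤ} {i : ℕ} (hr : r ≤ 22) (h : sphOK r c i = true) {x y z : ℤ}
    (hx : x ^ 2 + y ^ 2 + z ^ 2 = r) : ((c * x, c * y, c * z) : Z3) ∈ L i := by
  have h1 := List.all_eq_true.1 h x (mem_box (by nlinarith [sq_nonneg y, sq_nonneg z]))
  have h2 := List.all_eq_true.1 h1 y (mem_box (by nlinarith [sq_nonneg x, sq_nonneg z]))
  have h3 := List.all_eq_true.1 h2 z (mem_box (by nlinarith [sq_nonneg x, sq_nonneg y]))
  have h4 : (x ^ 2 + y ^ 2 + z ^ 2 == r) = true := by rw [hx]; exact beq_self_eq_true _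
  rw [h4] at h3
  simpa using h3

/-- The data of the four base levels. -/
lemma base {i : ℕ} (hi : i < 4) : ∃ (e : ℕ) (r : ℤ), r ≤ 22 ∧ rb i = 4 ^ e * r ∧
    sphOK r (2 ^ e) i = true := by
  interval_cases i
  · exact ⟨0, 11, by norm_num, rfl, sph0⟩
  · exact ⟨1, 10, by norm_num, rfl, sph1⟩
  · exact ⟨1, 22, by norm_num, rfl, sph2⟩
  · exact ⟨2, 13, by norm_num, rfl, sph3⟩

lemma sg_two (a n : ℕ) : sg (2 ^ a) n = 2 ^ (a + 3 * (n / 4)) := by
  unfold sg
  rw [pow_add, pow_mul]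
  norm_num

/-- The levels are full spheres. -/
theorem mem_Lev_iff {a n : ℕ} {l : K3} : l ∈ Lev (2 ^ a) n ↔ sql l = rho (2 ^ a) n := by
  refine ⟨sql_of_mem, fun h => ?_⟩
  obtain ⟨e, r, hr, h1, h2⟩ := base (Nat.mod_lt n (by norm_num : 4 > 0))
  have h3 : l 0 ^ 2 + l 1 ^ 2 + l 2 ^ 2 = 4 ^ (a + 3 * (n / 4) + e) * r := by
    rw [sql, Fin.sum_univ_three] at h
    rw [h, rho, h1, sg_two, pow_add 4 _ e, ← pow_mul, mul_comm (a + 3 * (n / 4)) 2, pow_mul]
    ring
  obtain ⟨x, y, z, hx, hy, hz, h4⟩ := descent _ _ _ _ _ h3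
  have h5 := mem_of_sph hr h2 h4
  have h6 : l = sg (2 ^ a) n • toK (2 ^ e * x, 2 ^ e * y, 2 ^ e * z) := by
    rw [sg_two]
    funext p
    rw [Pi.smul_apply, smul_eq_mul]
    rw [pow_add] at hx hy hz
    fin_cases p
    · exact hx.trans (mul_assoc _ _ _)
    · exact hy.trans (mul_assoc _ _ _)
    · exact hz.trans (mul_assoc _ _ _)
  rw [h6]
  exact (mem_Lev (by positivity)).2 h5

/-- The set of the squared lengths of the removed frequencies. -/
def Sset (a : ℕ) : Set ℕ := {s | s ≠ 0 ∧ (∀ n, (s : ℤ) ≠ rho (2 ^ a) n) ∧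
  ∃ v ∈ Cset (2 ^ a), ∃ w ∈ Cset (2 ^ a), sql (v + w) = s}

lemma sql_nonneg (l : K3) : 0 ≤ sql l := Finset.sum_nonneg fun i _ => sq_nonneg _

lemma Rset_sub {a : ℕ} {k : K3} (h : k ∈ Rset (2 ^ a)) : ∃ s ∈ Sset a, sql k = s := by
  obtain ⟨⟨v, hv, w, hw, rfl⟩, h2, h3⟩ := h
  obtain ⟨s, hs⟩ := Int.eq_ofNat_of_zero_le (sql_nonneg (v + w))
  refine ⟨s, ⟨?_, fun n hn => h2 ⟨n, mem_Lev_iff.2 (hs.trans hn)⟩, v, hv, w, hw, hs⟩, hs⟩
  rintro rfl
  apply h3
  funext p
  have h4 : (v + w) p ^ 2 ≤ sql (v + w) :=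
    Finset.single_le_sum (f := fun i => (v + w) i ^ 2) (fun _ _ => sq_nonneg _) (Finset.mem_univ p)
  rw [hs] at h4
  have h5 : (v + w) p ^ 2 = 0 := le_antisymm (by simpa using h4) (sq_nonneg _)
  exact pow_eq_zero_iff (two_ne_zero) |>.1 h5

lemma not_mem_Cset {a : ℕ} {k : K3} {s : ℕ} (hs : s ∈ Sset a) (hk : sql k = s) :
    k ∉ Cset (2 ^ a) := by
  rintro ⟨n, hn⟩
  exact hs.2.1 n (hk.symm.trans (sql_of_mem hn))

lemma dvd_sql {M : ℕ} {v w : K3} (hv : v ∈ Cset M) (hw : w ∈ Cset M) :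
    (M : ℤ) ^ 2 ∣ sql (v + w) :=
  Finset.dvd_sum fun i _ => pow_dvd_pow_of_dvd (dvd_add (dvd_Cset hv i) (dvd_Cset hw i)) 2

lemma low_Sset {a s : ℕ} (hs : s ∈ Sset a) : 4 ^ a ≤ s := by
  obtain ⟨h1, -, v, hv, w, hw, h⟩ := hs
  have h2 := dvd_sql hv hw
  rw [h] at h2
  have h3 := Int.le_of_dvd (by positivity) h2
  have h4 : ((4 ^ a : ℕ) : ℤ) ≤ s := by
    push_cast at h3 ⊢
    rw [← pow_mul, mul_comm, pow_mul] at h3
    norm_num at h3
    exact h3
  exact_mod_cast h4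

/-- The set of removed squared lengths is sparse. -/
theorem count_Sset (a : ℕ) {N : ℕ} (hN : 2 ≤ N) :
    ({s ∈ Sset a | s ≤ N}.ncard : ℝ) ≤ 230400 * Real.log N ^ 2 := by
  classical
  have hM : 0 < 2 ^ a := by positivity
  set K : ℕ := Nat.sqrt N with hK
  set m1 : ℕ := 4 * (3 + Nat.log 8 K) with hm1
  set T : Finset ℕ := ((range m1) ×ˢ (range m1)).biUnion fun q =>
    ((Lev (2 ^ a) q.1) ×ˢ (Lev (2 ^ a) q.2)).image fun vw => (sql (vw.1 + vw.2)).toNat with hT
  have hsub : {s ∈ Sset a | s ≤ N} ⊆ (T : Set ℕ) := by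
    rintro s ⟨⟨hs0, _, v, ⟨n, hv⟩, w, ⟨m, hw⟩, h⟩, hb⟩
    have h0 : v + w ≠ 0 := by
      intro h0
      rw [h0] at h
      have : sql 0 = 0 := by simp [sql]
      rw [this] at h
      exact hs0 (by exact_mod_cast h.symm)
    have hb' : ∀ p, |(v + w) p| ≤ K := by
      intro p
      have h4 : (v + w) p ^ 2 ≤ sql (v + w) :=
        Finset.single_le_sum (f := fun i => (v + w) i ^ 2) (fun _ _ => sq_nonneg _)
          (Finset.mem_univ p)
      rw [h] at h4
      have h5 : ((v + w) p).natAbs ^ 2 ≤ N := by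
        have : (((v + w) p).natAbs ^ 2 : ℤ) ≤ N := by
          rw [Int.natCast_natAbs, sq_abs]
          exact h4.trans (by exact_mod_cast hb)
        exact_mod_cast this
      have h6 : ((v + w) p).natAbs ≤ K := by
        rw [hK, Nat.le_sqrt']
        exact h5
      rw [← Int.natCast_natAbs]
      exact_mod_cast h6
    rw [hT, Finset.mem_coe, Finset.mem_biUnion]
    have hn : n < m1 ∧ m < m1 := by
      rcases le_total n m with hnm | hnm
      · have := level_lt hM hnm hv hw h0 hb'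
        omega
      · have := level_lt (N := K) hM hnm hw hv (by rwa [add_comm])
          (fun p => by rw [add_comm]; exact hb' p)
        omega
    refine ⟨(n, m), Finset.mem_product.2 ⟨mem_range.2 hn.1, mem_range.2 hn.2⟩, ?_⟩
    refine Finset.mem_image.2 ⟨(v, w), Finset.mem_product.2 ⟨hv, hw⟩, ?_⟩
    simp only [h]
    exact Int.toNat_natCast s
  have h1 : {s ∈ Sset a | s ≤ N}.ncard ≤ T.card := by
    rw [← Set.ncard_coe_finset]
    exact Set.ncard_le_ncard hsub (Finset.finite_toSet T)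
  have h2 : T.card ≤ m1 * m1 * 576 := by
    rw [hT]
    refine (Finset.card_biUnion_le_card_mul _ _ 576 fun q _ => ?_).trans ?_
    · refine Finset.card_image_le.trans ?_
      rw [Finset.card_product]
      calc (Lev (2 ^ a) q.1).card * (Lev (2 ^ a) q.2).card ≤ 24 * 24 :=
            Nat.mul_le_mul (card_Lev _ _) (card_Lev _ _)
        _ = 576 := by norm_num
    · rw [Finset.card_product, Finset.card_range]
  have hx : (2 : ℝ) / 3 ≤ Real.log N := by
    have h3 : Real.log 2 ≤ Real.log N :=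
      Real.log_le_log (by norm_num) (by exact_mod_cast hN)
    have := Real.log_two_gt_d9
    linarith
  have hK1 : 1 ≤ K := by
    rw [hK, Nat.le_sqrt']
    omega
  have hlogK : Real.log K ≤ Real.log N := by
    refine Real.log_le_log (by exact_mod_cast hK1) ?_
    exact_mod_cast Nat.sqrt_le_self N
  have h4 : (m1 : ℝ) ≤ 20 * Real.log N := by
    have h5 : (Nat.log 8 K : ℝ) ≤ Real.log K / 2 := by
      have h6 := Real.natLog_le_logb K 8
      have h7 : Real.logb (8 : ℕ) K = Real.log K / Real.log 8 := by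
        rw [Real.logb]; norm_num
      rw [h7] at h6
      have h8 : (2 : ℝ) ≤ Real.log 8 := by
        have : Real.log 8 = 3 * Real.log 2 := by
          rw [show (8 : ℝ) = 2 ^ (3 : ℕ) by norm_num, Real.log_pow]; norm_num
        rw [this]
        have := Real.log_two_gt_d9
        linarith
      refine h6.trans ?_
      exact div_le_div_of_nonneg_left (Real.log_nonneg (by exact_mod_cast hK1)) (by norm_num) h8
    rw [hm1]
    push_cast
    linarith
  have h9 : (0 : ℝ) ≤ m1 := Nat.cast_nonneg _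
  calc ({s ∈ Sset a | s ≤ N}.ncard : ℝ) ≤ (m1 * m1 * 576 : ℕ) := by
        exact_mod_cast h1.trans h2
    _ = (m1 : ℝ) * m1 * 576 := by push_cast; ring
    _ ≤ (20 * Real.log N) * (20 * Real.log N) * 576 := by gcongr
    _ = _ := by ring

end Pool.Agent.Y302.Trunc
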