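import Pool.Agent.Y302.Trunc.Main
import Pool.Agent.Y302.Trunc.Sphere

/-!
The main theorem on the Euler equations with removed modes: isotropic form.
-/

set_option autoImplicit false

open Set Filter Topology MeasureTheory
open scoped ContDiff

namespace Pool.Agent.Y302.Trunc

open Pool.Agent.H708R2.EulerSign (V)
open Pool.Agent.H708R2.EulerModes (cube)
open Pool.Agent.H708R2.EulerTypeI (nrm vort)
open Pool.Agent.Y302.KP

theorem main_iso (b : ℕ) :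
    ∃ (R₀ : Set (Fin 3 → ℤ)) (S : Set ℕ),
      (∀ k ∈ R₀, -k ∈ R₀) ∧ (∀ k ∈ R₀, ∃ s ∈ S, ∑ i, k i ^ 2 = (s : ℤ)) ∧ (∀ s ∈ S, 4 ^ b ≤ s) ∧
      (∀ N : ℕ, 2 ≤ N → ({k ∈ R₀ | ∀ i, |k i| ≤ N}.ncard : ℝ) ≤ 230400 * Real.log N ^ 2) ∧
      (∀ N : ℕ, 2 ≤ N → ({s ∈ S | s ≤ N}.ncard : ℝ) ≤ 230400 * Real.log N ^ 2) ∧
      ∃ (T : ℝ) (u : ℝ → V → V) (p : ℝ → V → ℝ),
        0 < T ∧ T ≤ 56 / 2 ^ b ∧ u 0 = datum (2 ^ b) ∧
        (∀ t ∈ Ico 0 T, ContDiff ℝ ∞ (u t)) ∧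
        (∀ t ∈ Ico 0 T, 39 / (T - t) ≤ ∫ x in cube, nrm (vort (u t) x)) ∧
        ∀ R : Set (Fin 3 → ℤ), R₀ ⊆ R → (∀ k ∈ R, ∃ s ∈ S, ∑ i, k i ^ 2 = (s : ℤ)) →
          IsSolutionWithout R (Ico 0 T) u p ∧
          ∀ (T' : ℝ) (w : ℝ → V → V) (q : ℝ → V → ℝ),
            IsSolutionWithout R (Ico 0 T') w q → w 0 = datum (2 ^ b) →
              T' ≤ T ∧ ∀ t ∈ Ico 0 T', w t = u t := by
  have hM : 0 < 2 ^ b := by positivity
  obtain ⟨a, Ts, T, h, h0, hn, hTs, hTs', hT, hdec, hrate⟩ := main_ode hM (δ := 1 / 8) (by norm_num)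
  have hu0 := uu_zero hM h0 hn
  refine ⟨Rset (2 ^ b), Sset b, fun k hk => neg_mem_Rset hM hk, fun k hk => Rset_sub hk,
    fun s hs => low_Sset hs, fun N hN => count hM hN, fun N hN => count_Sset b hN, Ts,
    uu (2 ^ b) a, pp (2 ^ b) a, hTs, ?_, hu0, fun t ht => uu_smooth h hM hT hdec ht,
    fun t ht => blowup_rate h hM hT hdec hrate ht, fun R hR0 hRS => ?_⟩
  · refine hTs'.trans (le_of_eq ?_)
    push_cast
    field_simp
    norm_num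
  · have hR1 : ∀ k ∈ R, k ∉ Cset (2 ^ b) := by
      intro k hk
      obtain ⟨s, hs, hks⟩ := hRS k hk
      exact not_mem_Cset hs hks
    refine ⟨isSolution h hM hT hdec hR1 hR0, fun T' w q hw hw0 => ?_⟩
    rw [← hu0] at hw0
    have h1 := no_extension h hM hT hdec hrate hR1 hR0 hTs hw hw0
    exact ⟨h1, fun t ht => unique_before h hM hT hdec hR1 hR0 hw hw0 ht (ht.2.trans_le h1)⟩

end Pool.Agent.Y302.Trunc
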