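import Pool.Agent.H708R2.EulerSign.Defs

/-!
Series of functions with separated variables.
-/

set_option autoImplicit false

open Set Filter Topology
open scoped ContDiff

namespace Pool.Agent.Y302.Trunc

open Pool.Agent.H708R2.EulerSign (V)

variable {F : Type*} [NormedAddCommGroup F] [NormedSpace ℝ F] [CompleteSpace F]
  {T : ℝ} {α α' : ℕ → ℝ → ℝ} {φ : ℕ → V → F} {B : ℕ → ℝ}

/-- The hypotheses. -/
structure Ser (T : ℝ) (α α' : ℕ → ℝ → ℝ) (φ : ℕ → V → F) (B : ℕ → ℝ) : Prop where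
  der : ∀ n, ∀ t ∈ Ioo (-T) T, HasDerivAt (α n) (α' n t) t
  cont : ∀ n, ContinuousOn (α' n) (Ioo (-T) T)
  smooth : ∀ n, ContDiff ℝ 1 (φ n)
  b0 : ∀ n x, ‖φ n x‖ ≤ B n
  b1 : ∀ n x, ‖fderiv ℝ (φ n) x‖ ≤ B n
  sum : ∀ T' < T, ∃ w : ℕ → ℝ, Summable (fun n => w n * B n) ∧
    ∀ n, ∀ t ∈ Icc (-T') T', |α n t| ≤ w n ∧ |α' n t| ≤ w n

lemma Ser.B_nonneg (h : Ser T α α' φ B) (n : ℕ) : 0 ≤ B n := (norm_nonneg _).trans (h.b0 n 0)

lemma exists_mid {t : ℝ} (ht : t ∈ Ioo (-T) T) : ∃ T' < T, t ∈ Ioo (-T') T' := by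
  obtain ⟨c, h1, h2⟩ := exists_between (abs_lt.2 ht)
  exact ⟨c, h2, abs_lt.1 h1⟩

lemma Ser.summable (h : Ser T α α' φ B) {t : ℝ} (ht : t ∈ Ioo (-T) T) (x : V) :
    Summable fun n => α n t • φ n x := by
  obtain ⟨T', hT', htT'⟩ := exists_mid ht
  obtain ⟨w, hw, hb⟩ := h.sum T' hT'
  refine .of_norm_bounded hw fun n => ?_
  rw [norm_smul]
  exact mul_le_mul (hb n t (Ioo_subset_Icc_self htT')).1 (h.b0 n x) (norm_nonneg _)
    ((abs_nonneg _).trans (hb n t (Ioo_subset_Icc_self htT')).1)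

lemma Ser.summable' (h : Ser T α α' φ B) {t : ℝ} (ht : t ∈ Ioo (-T) T) (x : V) :
    Summable fun n => α' n t • φ n x := by
  obtain ⟨T', hT', htT'⟩ := exists_mid ht
  obtain ⟨w, hw, hb⟩ := h.sum T' hT'
  refine .of_norm_bounded hw fun n => ?_
  rw [norm_smul]
  exact mul_le_mul (hb n t (Ioo_subset_Icc_self htT')).2 (h.b0 n x) (norm_nonneg _)
    ((abs_nonneg _).trans (hb n t (Ioo_subset_Icc_self htT')).2)

lemma Ser.summable_fderiv (h : Ser T α α' φ B) {t : ℝ} (ht : t ∈ Ioo (-T) T) (x : V) :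
    Summable fun n => α n t • fderiv ℝ (φ n) x := by
  obtain ⟨T', hT', htT'⟩ := exists_mid ht
  obtain ⟨w, hw, hb⟩ := h.sum T' hT'
  refine .of_norm_bounded hw fun n => ?_
  rw [norm_smul]
  exact mul_le_mul (hb n t (Ioo_subset_Icc_self htT')).1 (h.b1 n x) (norm_nonneg _)
    ((abs_nonneg _).trans (hb n t (Ioo_subset_Icc_self htT')).1)

/-- The time derivative. -/
theorem Ser.hasDerivAt (h : Ser T α α' φ B) {t : ℝ} (ht : t ∈ Ioo (-T) T) (x : V) :
    HasDerivAt (fun s => ∑' n, α n s • φ n x) (∑' n, α' n t • φ n x) t := by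
  obtain ⟨T', hT', htT'⟩ := exists_mid ht
  obtain ⟨w, hw, hb⟩ := h.sum T' hT'
  refine hasDerivAt_tsum_of_isPreconnected (t := Ioo (-T') T') hw isOpen_Ioo isPreconnected_Ioo
    (fun n s hs => (h.der n s ⟨?_, ?_⟩).smul_const _) (fun n s hs => ?_) htT'
    (h.summable ht x) htT'
  · linarith [hs.1]
  · linarith [hs.2]
  · rw [norm_smul]
    exact mul_le_mul (hb n s (Ioo_subset_Icc_self hs)).2 (h.b0 n x) (norm_nonneg _)
      ((abs_nonneg _).trans (hb n s (Ioo_subset_Icc_self hs)).2)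

/-- The space derivative. -/
theorem Ser.hasFDerivAt (h : Ser T α α' φ B) {t : ℝ} (ht : t ∈ Ioo (-T) T) (x : V) :
    HasFDerivAt (fun y => ∑' n, α n t • φ n y) (∑' n, α n t • fderiv ℝ (φ n) x) x := by
  obtain ⟨T', hT', htT'⟩ := exists_mid ht
  obtain ⟨w, hw, hb⟩ := h.sum T' hT'
  refine hasFDerivAt_tsum (𝕜 := ℝ) (f := fun n y => α n t • φ n y)
    (f' := fun n y => α n t • fderiv ℝ (φ n) y) hw (fun n y => ?_) (fun n y => ?_)
    (h.summable ht x) x
  · exact (((h.smooth n).differentiable one_ne_zero) y).hasFDerivAt.const_smul (α n t)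
  · rw [norm_smul]
    exact mul_le_mul (hb n t (Ioo_subset_Icc_self htT')).1 (h.b1 n y) (norm_nonneg _)
      ((abs_nonneg _).trans (hb n t (Ioo_subset_Icc_self htT')).1)

/-- The joint derivative of a term. -/
noncomputable def jd (α α' : ℕ → ℝ → ℝ) (φ : ℕ → V → F) (n : ℕ) (z : ℝ × V) : ℝ × V →L[ℝ] F :=
  α n z.1 • (fderiv ℝ (φ n) z.2).comp (ContinuousLinearMap.snd ℝ ℝ V)
    + (α' n z.1 • ContinuousLinearMap.fst ℝ ℝ V).smulRight (φ n z.2)

lemma Ser.hasFDerivAt_term (h : Ser T α α' φ B) (n : ℕ) {z : ℝ × V}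
    (hz : z ∈ Ioo (-T) T ×ˢ (univ : Set V)) :
    HasFDerivAt (fun z : ℝ × V => α n z.1 • φ n z.2) (jd α α' φ n z) z := by
  have h1 : HasFDerivAt (fun z : ℝ × V => α n z.1)
      (α' n z.1 • ContinuousLinearMap.fst ℝ ℝ V) z :=
    (h.der n z.1 hz.1).comp_hasFDerivAt z hasFDerivAt_fst
  have h2 : HasFDerivAt (fun z : ℝ × V => φ n z.2)
      ((fderiv ℝ (φ n) z.2).comp (ContinuousLinearMap.snd ℝ ℝ V)) z :=
    (((h.smooth n).differentiable one_ne_zero) z.2).hasFDerivAt.comp z hasFDerivAt_snd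
  exact h1.smul h2

lemma Ser.norm_jd (h : Ser T α α' φ B) (n : ℕ) {z : ℝ × V} {w : ℝ}
    (h1 : |α n z.1| ≤ w) (h2 : |α' n z.1| ≤ w) : ‖jd α α' φ n z‖ ≤ 2 * (w * B n) := by
  have hB := h.B_nonneg n
  have hw : 0 ≤ w := (abs_nonneg _).trans h1
  have e1 : ‖α n z.1 • (fderiv ℝ (φ n) z.2).comp (ContinuousLinearMap.snd ℝ ℝ V)‖ ≤ w * B n := by
    rw [norm_smul]
    refine mul_le_mul h1 ?_ (norm_nonneg _) hw
    refine (ContinuousLinearMap.opNorm_comp_le _ _).trans ?_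
    calc ‖fderiv ℝ (φ n) z.2‖ * ‖ContinuousLinearMap.snd ℝ ℝ V‖ ≤ B n * 1 :=
          mul_le_mul (h.b1 n _) (ContinuousLinearMap.norm_snd_le _ _ _) (norm_nonneg _) hB
      _ = B n := mul_one _
  have e2 : ‖(α' n z.1 • ContinuousLinearMap.fst ℝ ℝ V).smulRight (φ n z.2)‖ ≤ w * B n := by
    rw [ContinuousLinearMap.norm_smulRight_apply, norm_smul]
    refine mul_le_mul ?_ (h.b0 n _) (norm_nonneg _) hw
    calc ‖α' n z.1‖ * ‖ContinuousLinearMap.fst ℝ ℝ V‖ ≤ w * 1 :=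
          mul_le_mul h2 (ContinuousLinearMap.norm_fst_le _ _ _) (norm_nonneg _) hw
      _ = w := mul_one _
  calc _ ≤ _ := norm_add_le _ _
    _ ≤ w * B n + w * B n := add_le_add e1 e2
    _ = _ := by ring

lemma Ser.continuousOn_jd (h : Ser T α α' φ B) (n : ℕ) :
    ContinuousOn (jd α α' φ n) (Ioo (-T) T ×ˢ (univ : Set V)) := by
  have c1 : ContinuousOn (fun z : ℝ × V => α n z.1) (Ioo (-T) T ×ˢ (univ : Set V)) := by
    have : ContinuousOn (α n) (Ioo (-T) T) := fun t ht =>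
      (h.der n t ht).continuousAt.continuousWithinAt
    exact this.comp continuousOn_fst fun z hz => hz.1
  have c2 : ContinuousOn (fun z : ℝ × V => α' n z.1) (Ioo (-T) T ×ˢ (univ : Set V)) :=
    (h.cont n).comp continuousOn_fst fun z hz => hz.1
  have c3 : Continuous (fun z : ℝ × V => fderiv ℝ (φ n) z.2) :=
    ((h.smooth n).continuous_fderiv one_ne_zero).comp continuous_snd
  have c4 : Continuous (fun z : ℝ × V => φ n z.2) := (h.smooth n).continuous.comp continuous_snd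
  unfold jd
  refine (c1.smul (c3.clm_comp continuous_const).continuousOn).add ?_
  have e : ∀ z : ℝ × V, (α' n z.1 • ContinuousLinearMap.fst ℝ ℝ V).smulRight (φ n z.2)
      = α' n z.1 • (ContinuousLinearMap.smulRightL ℝ (ℝ × V) F
        (ContinuousLinearMap.fst ℝ ℝ V) (φ n z.2)) := by
    intro z
    ext <;> simp
  simp only [e]
  exact c2.smul ((ContinuousLinearMap.continuous _).comp c4).continuousOn

/-- The sum is of class `C¹`. -/
theorem Ser.contDiffOn (h : Ser T α α' φ B) :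
    ContDiffOn ℝ 1 (fun z : ℝ × V => ∑' n, α n z.1 • φ n z.2) (Ioo (-T) T ×ˢ univ) := by
  have hopen : IsOpen (Ioo (-T) T ×ˢ (univ : Set V)) := isOpen_Ioo.prod isOpen_univ
  have key : ∀ z ∈ Ioo (-T) T ×ˢ (univ : Set V), HasFDerivAt
      (fun z : ℝ × V => ∑' n, α n z.1 • φ n z.2) (∑' n, jd α α' φ n z) z ∧
      ContinuousAt (fun z => ∑' n, jd α α' φ n z) z := by
    rintro z hz
    obtain ⟨T', hT', htT'⟩ := exists_mid hz.1
    obtain ⟨w, hw, hb⟩ := h.sum T' hT'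
    have hsub : Ioo (-T') T' ×ˢ (univ : Set V) ⊆ Ioo (-T) T ×ˢ univ :=
      prod_mono (Ioo_subset_Ioo (by linarith) hT'.le) subset_rfl
    have hopen' : IsOpen (Ioo (-T') T' ×ˢ (univ : Set V)) := isOpen_Ioo.prod isOpen_univ
    have hz' : z ∈ Ioo (-T') T' ×ˢ (univ : Set V) := ⟨htT', mem_univ _⟩
    have hbd : ∀ n, ∀ y ∈ Ioo (-T') T' ×ˢ (univ : Set V),
        ‖jd α α' φ n y‖ ≤ 2 * (w n * B n) := fun n y hy =>
      h.norm_jd n (hb n y.1 (Ioo_subset_Icc_self hy.1)).1 (hb n y.1 (Ioo_subset_Icc_self hy.1)).2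
    constructor
    · exact hasFDerivAt_tsum_of_isPreconnected (hw.mul_left 2) hopen'
        (isPreconnected_Ioo.prod isPreconnected_univ)
        (fun n y hy => h.hasFDerivAt_term n (hsub hy)) hbd hz' (h.summable hz.1 z.2) hz'
    · refine ContinuousOn.continuousAt ?_ (hopen'.mem_nhds hz')
      exact continuousOn_tsum (fun n => (h.continuousOn_jd n).mono hsub) (hw.mul_left 2) hbd
  have e1 : (1 : WithTop ℕ∞) = 0 + 1 := by norm_num
  rw [e1, contDiffOn_succ_iff_fderiv_of_isOpen hopen]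
  refine ⟨fun z hz => (key z hz).1.differentiableAt.differentiableWithinAt, by simp, ?_⟩
  rw [contDiffOn_zero]
  intro z hz
  refine ContinuousWithinAt.congr (f := fun z => ∑' n, jd α α' φ n z)
    (key z hz).2.continuousWithinAt (fun y hy => (key y hy).1.fderiv) (key z hz).1.fderiv

end Pool.Agent.Y302.Trunc
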