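import Pool.Agent.Y302.Trunc.Sparse
import Pool.Agent.Y302.Trunc.Series
import Pool.Agent.H708R2.EulerModes.Main

/-!
The fields of the levels of the chain.
-/

set_option autoImplicit false

open Set Filter Topology
open scoped ContDiff

namespace Pool.Agent.Y302.Trunc

open Pool.Agent.H708R2.EulerSign (V Periodic3 grad divergence)
open Pool.Agent.H708R2.EulerModes (ph fderiv_ph ph_contDiff sin_periodic cos_periodic ph_neg
  ph_add_left)

section gen

variable {F : Type*} [NormedAddCommGroup F] [NormedSpace ℝ F]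

/-- `ph` as a continuous linear map. -/
noncomputable def phL (v : K3) : V →L[ℝ] ℝ := ∑ i, (v i : ℝ) • ContinuousLinearMap.proj i

lemma phL_apply (v : K3) (x : V) : phL v x = ph v x := by
  simp [phL, ph]

lemma norm_phL (v : K3) : ‖phL v‖ ≤ ∑ i, |(v i : ℝ)| := by
  refine ContinuousLinearMap.opNorm_le_bound _ (Finset.sum_nonneg fun _ _ => abs_nonneg _) ?_
  intro x
  rw [phL_apply, ph, Real.norm_eq_abs, Finset.sum_mul]
  refine (Finset.abs_sum_le_sum_abs _ _).trans (Finset.sum_le_sum fun i _ => ?_)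
  rw [abs_mul]
  exact mul_le_mul_of_nonneg_left (norm_le_pi_norm x i) (abs_nonneg _)

lemma norm_iter_comp {g : ℝ → ℝ} (hg : ContDiff ℝ ∞ g) (hb : ∀ k y, |iteratedDeriv k g y| ≤ 1)
    (v : K3) (c : F) (k : ℕ) (x : V) :
    ‖iteratedFDeriv ℝ k (fun x => g (ph v x) • c) x‖ ≤ (∑ i, |(v i : ℝ)|) ^ k * ‖c‖ := by
  have e : (fun x : V => g (ph v x) • c)
      = (ContinuousLinearMap.toSpanSingleton ℝ c) ∘ (g ∘ phL v) := by
    funext x
    simp [phL_apply]
  have hc : ContDiff ℝ ∞ (g ∘ phL v) := hg.comp (phL v).contDiff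
  rw [e]
  have h1 := (ContinuousLinearMap.toSpanSingleton ℝ c).norm_iteratedFDeriv_comp_left
    (f := g ∘ phL v) (x := x) (N := ∞) (n := k) hc.contDiffAt (by exact_mod_cast le_top)
  refine h1.trans ?_
  rw [(phL v).iteratedFDeriv_comp_right hg x (i := k) (by exact_mod_cast le_top)]
  have h2 := (iteratedFDeriv ℝ k g (phL v x)).norm_compContinuousLinearMap_le
    (fun _ : Fin k => phL v)
  rw [Finset.prod_const, Finset.card_univ, Fintype.card_fin,
    norm_iteratedFDeriv_eq_norm_iteratedDeriv] at h2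
  have h3 : ‖iteratedDeriv k g (phL v x)‖ * ‖phL v‖ ^ k ≤ 1 * (∑ i, |(v i : ℝ)|) ^ k :=
    mul_le_mul (hb k _) (pow_le_pow_left₀ (norm_nonneg _) (norm_phL v) k) (by positivity)
      zero_le_one
  rw [ContinuousLinearMap.norm_toSpanSingleton, mul_comm]
  exact mul_le_mul_of_nonneg_right (h2.trans (h3.trans (le_of_eq (one_mul _)))) (norm_nonneg _)

lemma norm_iter_sin (v : K3) (c : F) (k : ℕ) (x : V) :
    ‖iteratedFDeriv ℝ k (fun x => Real.sin (ph v x) • c) x‖ ≤ (∑ i, |(v i : ℝ)|) ^ k * ‖c‖ :=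
  norm_iter_comp Real.contDiff_sin Real.abs_iteratedDeriv_sin_le_one v c k x

lemma norm_iter_cos (v : K3) (c : F) (k : ℕ) (x : V) :
    ‖iteratedFDeriv ℝ k (fun x => Real.cos (ph v x) • c) x‖ ≤ (∑ i, |(v i : ℝ)|) ^ k * ‖c‖ :=
  norm_iter_comp Real.contDiff_cos Real.abs_iteratedDeriv_cos_le_one v c k x

lemma sin_smul_contDiff (v : K3) (c : F) : ContDiff ℝ ∞ (fun x : V => Real.sin (ph v x) • c) :=
  (Real.contDiff_sin.comp (ph_contDiff v)).smul_const c

lemma cos_smul_contDiff (v : K3) (c : F) : ContDiff ℝ ∞ (fun x : V => Real.cos (ph v x) • c) :=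
  (Real.contDiff_cos.comp (ph_contDiff v)).smul_const c

end gen

/-- The amplitude vectors. -/
noncomputable def amv (M n : ℕ) (v : K3) : V := fun i => (am M n v i : ℝ)

/-- The field of level `n`. -/
noncomputable def Ef (M n : ℕ) (x : V) : V := ∑ v ∈ Lev M n, Real.sin (ph v x) • amv M n v

/-- The scalar function of level `n`. -/
noncomputable def Pf (M n : ℕ) (x : V) : ℝ := ∑ v ∈ Lev M n, Real.cos (ph v x) • (1 : ℝ)

variable {M : ℕ}

lemma norm_amv (n : ℕ) (v : K3) : ‖amv M n v‖ ≤ 3 := by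
  refine (pi_norm_le_iff_of_nonneg (by norm_num)).2 fun i => ?_
  rw [Real.norm_eq_abs, amv]
  exact_mod_cast am_bd M n v i

lemma sg_le (n : ℕ) : (sg M n : ℝ) ≤ M * 8 ^ n := by
  unfold sg
  push_cast
  exact mul_le_mul_of_nonneg_left (pow_le_pow_right₀ (by norm_num) (Nat.div_le_self _ _))
    (Nat.cast_nonneg M)

lemma sum_abs_le (hM : 0 < M) {n : ℕ} {v : K3} (hv : v ∈ Lev M n) :
    ∑ i, |(v i : ℝ)| ≤ 36 * M * 8 ^ n := by
  have h1 : ∀ i, |(v i : ℝ)| ≤ 12 * (M * 8 ^ n) := by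
    intro i
    have h2 : |(v i : ℝ)| ≤ 12 * (sg M n : ℝ) := by exact_mod_cast Lev_up hM hv i
    exact h2.trans (mul_le_mul_of_nonneg_left (sg_le n) (by norm_num))
  calc ∑ i, |(v i : ℝ)| ≤ ∑ _i : Fin 3, 12 * ((M : ℝ) * 8 ^ n) :=
        Finset.sum_le_sum fun i _ => h1 i
    _ = _ := by rw [Finset.sum_const, Finset.card_univ, Fintype.card_fin]; ring

lemma Ef_contDiff (n : ℕ) : ContDiff ℝ ∞ (Ef M n) := by
  unfold Ef
  exact ContDiff.sum fun v _ => sin_smul_contDiff v _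

lemma Pf_contDiff (n : ℕ) : ContDiff ℝ ∞ (Pf M n) := by
  unfold Pf
  exact ContDiff.sum fun v _ => cos_smul_contDiff v _

lemma norm_iter_Ef (hM : 0 < M) (n k : ℕ) (x : V) :
    ‖iteratedFDeriv ℝ k (Ef M n) x‖ ≤ 72 * (36 * M * 8 ^ n) ^ k := by
  unfold Ef
  rw [iteratedFDeriv_fun_sum_apply fun v _ =>
    ((sin_smul_contDiff v _).of_le (by exact_mod_cast le_top)).contDiffAt]
  refine (norm_sum_le _ _).trans ?_
  calc ∑ v ∈ Lev M n, ‖iteratedFDeriv ℝ k (fun x => Real.sin (ph v x) • amv M n v) x‖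
      ≤ ∑ _v ∈ Lev M n, (36 * (M : ℝ) * 8 ^ n) ^ k * 3 := by
        refine Finset.sum_le_sum fun v hv => (norm_iter_sin v _ k x).trans ?_
        exact mul_le_mul (pow_le_pow_left₀ (Finset.sum_nonneg fun _ _ => abs_nonneg _)
          (sum_abs_le hM hv) k) (norm_amv n v) (norm_nonneg _) (by positivity)
    _ = ((Lev M n).card : ℝ) * ((36 * (M : ℝ) * 8 ^ n) ^ k * 3) := by
        rw [Finset.sum_const, nsmul_eq_mul]
    _ ≤ 24 * ((36 * (M : ℝ) * 8 ^ n) ^ k * 3) := by
        refine mul_le_mul_of_nonneg_right ?_ (by positivity)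
        exact_mod_cast card_Lev M n
    _ = _ := by ring

lemma norm_iter_Pf (hM : 0 < M) (n k : ℕ) (x : V) :
    ‖iteratedFDeriv ℝ k (Pf M n) x‖ ≤ 72 * (36 * M * 8 ^ n) ^ k := by
  unfold Pf
  rw [iteratedFDeriv_fun_sum_apply fun v _ =>
    ((cos_smul_contDiff v _).of_le (by exact_mod_cast le_top)).contDiffAt]
  refine (norm_sum_le _ _).trans ?_
  calc ∑ v ∈ Lev M n, ‖iteratedFDeriv ℝ k (fun x => Real.cos (ph v x) • (1 : ℝ)) x‖
      ≤ ∑ _v ∈ Lev M n, (36 * (M : ℝ) * 8 ^ n) ^ k * 3 := by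
        refine Finset.sum_le_sum fun v hv => (norm_iter_cos v _ k x).trans ?_
        exact mul_le_mul (pow_le_pow_left₀ (Finset.sum_nonneg fun _ _ => abs_nonneg _)
          (sum_abs_le hM hv) k) (by norm_num) (norm_nonneg _) (by positivity)
    _ = ((Lev M n).card : ℝ) * ((36 * (M : ℝ) * 8 ^ n) ^ k * 3) := by
        rw [Finset.sum_const, nsmul_eq_mul]
    _ ≤ 24 * ((36 * (M : ℝ) * 8 ^ n) ^ k * 3) := by
        refine mul_le_mul_of_nonneg_right ?_ (by positivity)
        exact_mod_cast card_Lev M n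
    _ = _ := by ring

/-- The common bound. -/
noncomputable def Bd (M n : ℕ) : ℝ := 72 * (36 * M * 8 ^ n)

lemma one_le_scale (hM : 0 < M) (n : ℕ) : (1 : ℝ) ≤ 36 * M * 8 ^ n := by
  have h1 : (1 : ℝ) ≤ M := by exact_mod_cast hM
  have h2 : (1 : ℝ) ≤ 8 ^ n := one_le_pow₀ (by norm_num)
  nlinarith

lemma norm_Ef (hM : 0 < M) (n : ℕ) (x : V) : ‖Ef M n x‖ ≤ 72 := by
  have := norm_iter_Ef hM n 0 x
  rwa [norm_iteratedFDeriv_zero, pow_zero, mul_one] at this

lemma norm_Pf (hM : 0 < M) (n : ℕ) (x : V) : ‖Pf M n x‖ ≤ 72 := by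
  have := norm_iter_Pf hM n 0 x
  rwa [norm_iteratedFDeriv_zero, pow_zero, mul_one] at this

lemma norm_dEf (hM : 0 < M) (n : ℕ) (x : V) : ‖fderiv ℝ (Ef M n) x‖ ≤ Bd M n := by
  have := norm_iter_Ef hM n 1 x
  rwa [norm_iteratedFDeriv_one, pow_one] at this

lemma norm_dPf (hM : 0 < M) (n : ℕ) (x : V) : ‖fderiv ℝ (Pf M n) x‖ ≤ Bd M n := by
  have := norm_iter_Pf hM n 1 x
  rwa [norm_iteratedFDeriv_one, pow_one] at this

lemma le_Bd (hM : 0 < M) (n : ℕ) : (72 : ℝ) ≤ Bd M n := by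
  have := one_le_scale hM n
  unfold Bd
  linarith

lemma Ef_periodic (n : ℕ) : Periodic3 (Ef M n) := by
  intro i x
  unfold Ef
  refine Finset.sum_congr rfl fun v _ => ?_
  have := sin_periodic v i x
  simp only at this
  rw [this]

lemma Pf_periodic (n : ℕ) : Periodic3 (Pf M n) := by
  intro i x
  unfold Pf
  refine Finset.sum_congr rfl fun v _ => ?_
  have := cos_periodic v i x
  simp only at this
  rw [this]

lemma fderiv_Ef (n : ℕ) (x y : V) :
    fderiv ℝ (Ef M n) x y = ∑ v ∈ Lev M n, (Real.cos (ph v x) * ph v y) • amv M n v := by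
  have h : HasFDerivAt (Ef M n)
      (∑ v ∈ Lev M n, (Real.cos (ph v x) • phL v).smulRight (amv M n v)) x := by
    unfold Ef
    refine HasFDerivAt.fun_sum fun v _ => ?_
    have h1 : HasFDerivAt (fun x => Real.sin (ph v x)) (Real.cos (ph v x) • phL v) x :=
      (Real.hasDerivAt_sin (ph v x)).comp_hasFDerivAt x (fderiv_ph v x)
    exact h1.smul_const _
  rw [h.fderiv]
  simp [phL_apply]

lemma fderiv_Pf (n : ℕ) (x y : V) :
    fderiv ℝ (Pf M n) x y = ∑ v ∈ Lev M n, -(Real.sin (ph v x) * ph v y) := by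
  have h : HasFDerivAt (Pf M n)
      (∑ v ∈ Lev M n, ((-Real.sin (ph v x)) • phL v).smulRight (1 : ℝ)) x := by
    unfold Pf
    refine HasFDerivAt.fun_sum fun v _ => ?_
    have h1 : HasFDerivAt (fun x => Real.cos (ph v x)) ((-Real.sin (ph v x)) • phL v) x :=
      (Real.hasDerivAt_cos (ph v x)).comp_hasFDerivAt x (fderiv_ph v x)
    exact h1.smul_const _
  rw [h.fderiv]
  simp [phL_apply]

lemma ph_single (v : K3) (i : Fin 3) : ph v (Pi.single i 1) = v i := by
  simp [ph, Pi.single_apply]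

lemma div_Ef (hM : 0 < M) (n : ℕ) (x : V) :
    ∑ i, fderiv ℝ (Ef M n) x (Pi.single i 1) i = 0 := by
  simp only [fderiv_Ef, Finset.sum_apply, Pi.smul_apply, smul_eq_mul, ph_single]
  rw [Finset.sum_comm]
  refine Finset.sum_eq_zero fun v hv => ?_
  have h := am_orth hM hv
  have h' : ∑ p, (am M n v p : ℝ) * (v p : ℝ) = 0 := by exact_mod_cast h
  calc ∑ i, Real.cos (ph v x) * (v i : ℝ) * amv M n v i
      = Real.cos (ph v x) * ∑ p, (am M n v p : ℝ) * (v p : ℝ) := by
        rw [Finset.mul_sum]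
        exact Finset.sum_congr rfl fun i _ => by rw [amv]; ring
    _ = 0 := by rw [h', mul_zero]

lemma amv_neg (hM : 0 < M) {n : ℕ} {v : K3} (hv : v ∈ Lev M n) : amv M n (-v) = -amv M n v := by
  funext i
  simp only [amv, Pi.neg_apply, am_neg hM hv]
  push_cast
  ring

lemma Ef_neg (n : ℕ) (x : V) : Ef M n (-x) = -Ef M n x := by
  unfold Ef
  rw [← Finset.sum_neg_distrib]
  refine Finset.sum_congr rfl fun v _ => ?_
  have : ph v (-x) = -ph v x := by simp [ph]
  rw [this, Real.sin_neg, neg_smul]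

lemma Pf_neg (n : ℕ) (x : V) : Pf M n (-x) = Pf M n x := by
  unfold Pf
  refine Finset.sum_congr rfl fun v _ => ?_
  have : ph v (-x) = -ph v x := by simp [ph]
  rw [this, Real.cos_neg]

/-- Reindexing a sum over a level. -/
lemma sum_neg_Lev (hM : 0 < M) {E : Type*} [AddCommMonoid E] (n : ℕ) (g : K3 → E) :
    ∑ v ∈ Lev M n, g (-v) = ∑ v ∈ Lev M n, g v := by
  refine Finset.sum_nbij' (fun v => -v) (fun v => -v) (fun v hv => neg_mem_Lev hM hv)
    (fun v hv => neg_mem_Lev hM hv) (fun v _ => neg_neg v) (fun v _ => neg_neg v) (fun v _ => rfl)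

/-- The quadratic term. -/
lemma quad_eq (hM : 0 < M) (n m : ℕ) (x : V) :
    fderiv ℝ (Ef M m) x (Ef M n x) = ∑ v ∈ Lev M n, ∑ w ∈ Lev M m,
      (Real.sin (ph (v + w) x) * ∑ q, (am M n v q : ℝ) * (w q : ℝ)) • amv M m w := by
  have h1 : fderiv ℝ (Ef M m) x (Ef M n x) = ∑ v ∈ Lev M n, ∑ w ∈ Lev M m,
      ((Real.sin (ph v x) * Real.cos (ph w x)) * ∑ q, (am M n v q : ℝ) * (w q : ℝ))
        • amv M m w := by
    rw [fderiv_Ef, Finset.sum_comm]
    refine Finset.sum_congr rfl fun w _ => ?_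
    rw [← Finset.sum_smul]
    congr 1
    have : ph w (Ef M n x) = ∑ v ∈ Lev M n, Real.sin (ph v x) *
        ∑ q, (am M n v q : ℝ) * (w q : ℝ) := by
      rw [← phL_apply, Ef, map_sum]
      refine Finset.sum_congr rfl fun v _ => ?_
      rw [map_smul, phL_apply, ph, smul_eq_mul]
      congr 1
      exact Finset.sum_congr rfl fun q _ => by rw [amv, mul_comm]
    rw [this, Finset.mul_sum]
    exact Finset.sum_congr rfl fun v _ => by ring
  rw [h1]
  refine Finset.sum_congr rfl fun v _ => ?_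
  have h2 : ∑ w ∈ Lev M m, ((Real.cos (ph v x) * Real.sin (ph w x))
      * ∑ q, (am M n v q : ℝ) * (w q : ℝ)) • amv M m w = 0 := by
    set S := ∑ w ∈ Lev M m, ((Real.cos (ph v x) * Real.sin (ph w x))
      * ∑ q, (am M n v q : ℝ) * (w q : ℝ)) • amv M m w with hS
    have h3 : S = -S := by
      conv_lhs => rw [hS, ← sum_neg_Lev hM]
      rw [hS, ← Finset.sum_neg_distrib]
      refine Finset.sum_congr rfl fun w hw => ?_
      rw [amv_neg hM hw, ph_neg, Real.sin_neg]
      have : ∑ q, (am M n v q : ℝ) * ((-w) q : ℝ) = -∑ q, (am M n v q : ℝ) * (w q : ℝ) := by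
        rw [← Finset.sum_neg_distrib]
        refine Finset.sum_congr rfl fun q _ => ?_
        rw [Pi.neg_apply]; push_cast; ring
      rw [this, smul_neg]
      congr 1
      congr 1
      ring
    have h4 : (2 : ℝ) • S = 0 := by
      rw [two_smul]
      nth_rewrite 1 [h3]
      exact neg_add_cancel S
    exact (smul_eq_zero.1 h4).resolve_left (by norm_num)
  calc ∑ w ∈ Lev M m, ((Real.sin (ph v x) * Real.cos (ph w x))
        * ∑ q, (am M n v q : ℝ) * (w q : ℝ)) • amv M m w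
      = ∑ w ∈ Lev M m, ((Real.sin (ph v x) * Real.cos (ph w x))
        * ∑ q, (am M n v q : ℝ) * (w q : ℝ)) • amv M m w
        + ∑ w ∈ Lev M m, ((Real.cos (ph v x) * Real.sin (ph w x))
      * ∑ q, (am M n v q : ℝ) * (w q : ℝ)) • amv M m w := by rw [h2, add_zero]
    _ = _ := by
      rw [← Finset.sum_add_distrib]
      refine Finset.sum_congr rfl fun w _ => ?_
      rw [← add_smul, ph_add_left, Real.sin_add]
      congr 1
      ring

end Pool.Agent.Y302.Trunc
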