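import Pool.Agent.Y302.Trunc.Coeff

/-!
The residual of the truncated equations and its Fourier coefficients.
-/

set_option autoImplicit false

open Set Filter Topology MeasureTheory
open scoped ContDiff

namespace Pool.Agent.Y302.Trunc

open Pool.Agent.H708R2.EulerSign (V Periodic3 Dom dom_lt_top dom_meas)
open Pool.Agent.H708R2.EulerModes
open Pool.Agent.Y302.KP (Fc gc sr)

variable {M : ℕ} {α β γ w : ℕ → ℝ} {l : K3}

/-- Partial sums of the residual. -/
noncomputable def Rp (M : ℕ) (α β γ : ℕ → ℝ) (N : ℕ) (x : V) (i : Fin 3) : ℝ :=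
  (∑ n ∈ Finset.range N, β n * Ef M n x i
    + ∑ m ∈ Finset.range N, ∑ n ∈ Finset.range N,
      (α m * α n) * fderiv ℝ (Ef M m) x (Ef M n x) i)
    + ∑ n ∈ Finset.range N, γ n * fderiv ℝ (Pf M n) x (Pi.single i 1)

/-- The residual. -/
noncomputable def Rf (M : ℕ) (α β γ : ℕ → ℝ) (x : V) (i : Fin 3) : ℝ :=
  ((∑' n, β n • Ef M n x) i + (∑' m, α m • fderiv ℝ (Ef M m) x) (∑' n, α n • Ef M n x) i)
    + (∑' n, γ n • fderiv ℝ (Pf M n) x) (Pi.single i 1)

lemma norm_Ef' (hM : 0 < M) (n : ℕ) (x : V) : ‖Ef M n x‖ ≤ Bd M n :=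
  (norm_Ef hM n x).trans (le_Bd hM n)

lemma norm_Pf' (hM : 0 < M) (n : ℕ) (x : V) : ‖Pf M n x‖ ≤ Bd M n :=
  (norm_Pf hM n x).trans (le_Bd hM n)

lemma Bd_pos (hM : 0 < M) (n : ℕ) : 0 < Bd M n := lt_of_lt_of_le (by norm_num) (le_Bd hM n)

section gen

variable {E : Type*} [NormedAddCommGroup E] [NormedSpace ℝ E] [CompleteSpace E]

lemma summable_w (hw : Summable fun n => w n * Bd M n) (hα : ∀ n, |α n| ≤ w n) {g : ℕ → E}
    (hg : ∀ n, ‖g n‖ ≤ Bd M n) : Summable fun n => α n • g n := by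
  refine .of_norm_bounded hw fun n => ?_
  rw [norm_smul]
  exact mul_le_mul (hα n) (hg n) (norm_nonneg _) ((abs_nonneg _).trans (hα n))

omit [CompleteSpace E] in
lemma partial_le (hw : Summable fun n => w n * Bd M n) (hα : ∀ n, |α n| ≤ w n) {g : ℕ → E}
    (hg : ∀ n, ‖g n‖ ≤ Bd M n) (N : ℕ) :
    ‖∑ n ∈ Finset.range N, α n • g n‖ ≤ ∑' n, w n * Bd M n := by
  have hnn : ∀ n, ‖α n • g n‖ ≤ w n * Bd M n := fun n => by
    rw [norm_smul]
    exact mul_le_mul (hα n) (hg n) (norm_nonneg _) ((abs_nonneg _).trans (hα n))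
  calc _ ≤ ∑ n ∈ Finset.range N, ‖α n • g n‖ := norm_sum_le _ _
    _ ≤ ∑ n ∈ Finset.range N, w n * Bd M n := Finset.sum_le_sum fun n _ => hnn n
    _ ≤ _ := hw.sum_le_tsum _ fun n _ => (norm_nonneg _).trans (hnn n)

end gen

lemma Rp_eq (N : ℕ) (x : V) (i : Fin 3) : Rp M α β γ N x i
    = ((∑ n ∈ Finset.range N, β n • Ef M n x) i
      + (∑ m ∈ Finset.range N, α m • fderiv ℝ (Ef M m) x)
        (∑ n ∈ Finset.range N, α n • Ef M n x) i)
      + (∑ n ∈ Finset.range N, γ n • fderiv ℝ (Pf M n) x) (Pi.single i 1) := by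
  unfold Rp
  congr 1
  · congr 1
    · simp
    · simp only [map_sum, map_smul, sum_apply, Finset.sum_apply, smul_apply, Pi.smul_apply,
        smul_eq_mul, Finset.mul_sum]
      rw [Finset.sum_comm]
      refine Finset.sum_congr rfl fun m _ => Finset.sum_congr rfl fun n _ => by ring
  · simp only [sum_apply, smul_apply, smul_eq_mul]

lemma Rp_tendsto (hM : 0 < M) (hw : Summable fun n => w n * Bd M n) (hα : ∀ n, |α n| ≤ w n)
    (hβ : ∀ n, |β n| ≤ w n) (hγ : ∀ n, |γ n| ≤ w n) (x : V) (i : Fin 3) :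
    Tendsto (fun N => Rp M α β γ N x i) atTop (𝓝 (Rf M α β γ x i)) := by
  simp only [Rp_eq]
  have h1 := (summable_w hw hβ (g := fun n => Ef M n x) fun n => norm_Ef' hM n x).hasSum.tendsto_sum_nat
  have h2 := (summable_w hw hα (g := fun n => Ef M n x) fun n => norm_Ef' hM n x).hasSum.tendsto_sum_nat
  have h3 := (summable_w hw hα (g := fun n => fderiv ℝ (Ef M n) x)
    fun n => norm_dEf hM n x).hasSum.tendsto_sum_nat
  have h4 := (summable_w hw hγ (g := fun n => fderiv ℝ (Pf M n) x)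
    fun n => norm_dPf hM n x).hasSum.tendsto_sum_nat
  have h5 := (isBoundedBilinearMap_apply.continuous.tendsto _).comp (h3.prodMk_nhds h2)
  have h6 := (isBoundedBilinearMap_apply.continuous.tendsto _).comp
    (h4.prodMk_nhds (tendsto_const_nhds (x := (Pi.single i (1 : ℝ) : V))))
  exact (((tendsto_pi_nhds.1 h1 i).add (tendsto_pi_nhds.1 h5 i))).add h6

lemma Rp_bound (hM : 0 < M) (hw : Summable fun n => w n * Bd M n) (hα : ∀ n, |α n| ≤ w n)
    (hβ : ∀ n, |β n| ≤ w n) (hγ : ∀ n, |γ n| ≤ w n) :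
    ∃ C, ∀ N (x : V) (i : Fin 3), |Rp M α β γ N x i| ≤ C := by
  set S := ∑' n, w n * Bd M n with hS
  refine ⟨S + S * S + S, fun N x i => ?_⟩
  rw [Rp_eq]
  have h1 := partial_le hw hβ (g := fun n => Ef M n x) (fun n => norm_Ef' hM n x) N
  have h2 := partial_le hw hα (g := fun n => Ef M n x) (fun n => norm_Ef' hM n x) N
  have h3 := partial_le hw hα (g := fun n => fderiv ℝ (Ef M n) x) (fun n => norm_dEf hM n x) N
  have h4 := partial_le hw hγ (g := fun n => fderiv ℝ (Pf M n) x) (fun n => norm_dPf hM n x) N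
  have hS0 : 0 ≤ S := (norm_nonneg _).trans h1
  have g1 : |(∑ n ∈ Finset.range N, β n • Ef M n x) i| ≤ S := (norm_le_pi_norm _ i).trans h1
  have g2 : |(∑ m ∈ Finset.range N, α m • fderiv ℝ (Ef M m) x)
        (∑ n ∈ Finset.range N, α n • Ef M n x) i| ≤ S * S := by
    have h5 := (∑ m ∈ Finset.range N, α m • fderiv ℝ (Ef M m) x).le_opNorm
      (∑ n ∈ Finset.range N, α n • Ef M n x)
    exact (norm_le_pi_norm _ i).trans (h5.trans (mul_le_mul h3 h2 (norm_nonneg _) hS0))
  have g3 : |(∑ n ∈ Finset.range N, γ n • fderiv ℝ (Pf M n) x) (Pi.single i 1)| ≤ S := by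
    have h5 := (∑ n ∈ Finset.range N, γ n • fderiv ℝ (Pf M n) x).le_opNorm
      (Pi.single i (1 : ℝ) : V)
    rw [Pi.norm_single, norm_one, mul_one] at h5
    exact h5.trans h4
  exact (abs_add_le _ _).trans (add_le_add ((abs_add_le _ _).trans (add_le_add g1 g2)) g3)

lemma hasSC_Rp (hM : 0 < M) (N : ℕ) (i : Fin 3) : HasSC l (fun x => Rp M α β γ N x i)
    ((∑ n ∈ Finset.range N, β n * (vc * (if l ∈ Lev M n then 2 * (am M n l i : ℝ) else 0))
      + ∑ m ∈ Finset.range N, ∑ n ∈ Finset.range N, (α m * α n) * (vc * (2 * qs M n m l i)))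
      + ∑ n ∈ Finset.range N, γ n * (vc * (if l ∈ Lev M n then -2 * (l i : ℝ) else 0))) := by
  unfold Rp
  refine ((HasSC.sum _ fun n _ => (hasSC_Ef hM n i).const_mul _).add
    (HasSC.sum _ fun m _ => HasSC.sum _ fun n _ => (hasSC_quad hM n m i).const_mul _)).add
    (HasSC.sum _ fun n _ => (hasSC_Pf hM n i).const_mul _)

/-- The relations between the coefficients. -/
structure Rel (M : ℕ) (α β γ : ℕ → ℝ) : Prop where
  b : ∀ j, β j = Fc M j * α (j - 1) ^ 2 - gc M j * α j * α (j + 1)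
  c : ∀ j, γ j = pc j * α (j - 1) ^ 2

lemma Rp_coeff (hM : 0 < M) (hr : Rel M α β γ) (hl : l ∉ Rset M) (i : Fin 3) :
    ∃ N₀, ∀ N ≥ N₀, ∫ x in Dom, Rp M α β γ N x i * Real.sin (ph l x) = 0 := by
  by_cases h0 : l = 0
  · refine ⟨0, fun N _ => ?_⟩
    subst h0
    simp [ph_zero]
  by_cases hC : l ∈ Cset M
  · obtain ⟨j, hj⟩ := hC
    refine ⟨j + 2, fun N hN => ?_⟩
    rw [(hasSC_Rp hM N i).int]
    have s1 : ∑ n ∈ Finset.range N, β n * (vc * (if l ∈ Lev M n then 2 * (am M n l i : ℝ) else 0))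
        = β j * (vc * (2 * (am M j l i : ℝ))) := by
      rw [Finset.sum_eq_single_of_mem j (Finset.mem_range.2 (by omega))]
      · rw [if_pos hj]
      · intro n _ hn
        rw [if_neg fun h => hn (Lev_disjoint hM h hj)]
        ring
    have s3 : ∑ n ∈ Finset.range N, γ n * (vc * (if l ∈ Lev M n then -2 * (l i : ℝ) else 0))
        = γ j * (vc * (-2 * (l i : ℝ))) := by
      rw [Finset.sum_eq_single_of_mem j (Finset.mem_range.2 (by omega))]
      · rw [if_pos hj]
      · intro n _ hn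
        rw [if_neg fun h => hn (Lev_disjoint hM h hj)]
        ring
    have s2 : ∑ m ∈ Finset.range N, ∑ n ∈ Finset.range N, (α m * α n) * (vc * (2 * qs M n m l i))
        = (2 * vc) * ∑ m ∈ Finset.range N, ∑ n ∈ Finset.range N, (α m * α n) * qs M n m l i := by
      simp only [Finset.mul_sum]
      exact Finset.sum_congr rfl fun m _ => Finset.sum_congr rfl fun n _ => by ring
    rw [s1, s2, s3, sum_qs hM (by omega) hj, hr.b, hr.c]
    ring
  · refine ⟨0, fun N _ => ?_⟩
    rw [(hasSC_Rp hM N i).int]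
    have hq : ∀ n m, qs M n m l i = 0 := by
      intro n m
      refine qs_zero (fun v hv w hw hvw => hl ?_) i
      exact ⟨⟨v, ⟨n, hv⟩, w, ⟨m, hw⟩, hvw.symm⟩, hC, h0⟩
    have hn : ∀ n, l ∉ Lev M n := fun n h => hC ⟨n, h⟩
    simp [hq, hn]

/-- The sine coefficients of the residual vanish outside of the removed set. -/
theorem Rf_coeff (hM : 0 < M) (hw : Summable fun n => w n * Bd M n) (hα : ∀ n, |α n| ≤ w n)
    (hβ : ∀ n, |β n| ≤ w n) (hγ : ∀ n, |γ n| ≤ w n) (hr : Rel M α β γ) (hl : l ∉ Rset M)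
    (i : Fin 3) : ∫ x in Dom, Rf M α β γ x i * Real.sin (ph l x) = 0 := by
  obtain ⟨C, hC⟩ := Rp_bound hM hw hα hβ hγ
  obtain ⟨N₀, hN₀⟩ := Rp_coeff hM hr hl i
  have h1 : Tendsto (fun N => ∫ x in Dom, Rp M α β γ N x i * Real.sin (ph l x)) atTop
      (𝓝 (∫ x in Dom, Rf M α β γ x i * Real.sin (ph l x))) := by
    refine tendsto_integral_of_dominated_convergence (fun _ => C) (fun N => ?_) ?_ (fun N => ?_) ?_
    · exact ((hasSC_Rp (l := l) hM N i).cont.mul
        (Real.continuous_sin.comp (ph_contDiff l).continuous)).aestronglyMeasurable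
    · exact integrableOn_const dom_lt_top.ne
    · refine Eventually.of_forall fun x => ?_
      rw [norm_mul]
      calc ‖Rp M α β γ N x i‖ * ‖Real.sin (ph l x)‖ ≤ C * 1 :=
            mul_le_mul (hC N x i) (Real.abs_sin_le_one _) (norm_nonneg _)
              ((abs_nonneg _).trans (hC N x i))
        _ = C := mul_one _
    · exact Eventually.of_forall fun x => (Rp_tendsto hM hw hα hβ hγ x i).mul_const _
  refine tendsto_nhds_unique h1 (tendsto_const_nhds.congr' ?_)
  filter_upwards [eventually_ge_atTop N₀] with N hN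
  exact (hN₀ N hN).symm

/-- Termwise integration. -/
theorem tsum_Ef_coeff (hM : 0 < M) (hw : Summable fun n => w n * Bd M n) (hα : ∀ n, |α n| ≤ w n)
    (l : K3) (i : Fin 3) :
    Tendsto (fun N => ∑ n ∈ Finset.range N,
      α n * (vc * (if l ∈ Lev M n then 2 * (am M n l i : ℝ) else 0))) atTop
      (𝓝 (∫ x in Dom, (∑' n, α n • Ef M n x) i * Real.sin (ph l x))) := by
  have hsc : ∀ N, HasSC l (fun x => ∑ n ∈ Finset.range N, α n * Ef M n x i)
      (∑ n ∈ Finset.range N, α n * (vc * (if l ∈ Lev M n then 2 * (am M n l i : ℝ) else 0))) :=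
    fun N => HasSC.sum _ fun n _ => (hasSC_Ef hM n i).const_mul _
  have e1 : ∀ N x, ∑ n ∈ Finset.range N, α n * Ef M n x i
      = (∑ n ∈ Finset.range N, α n • Ef M n x) i := fun N x => by simp
  have h1 : Tendsto (fun N => ∫ x in Dom, (∑ n ∈ Finset.range N, α n * Ef M n x i)
      * Real.sin (ph l x)) atTop
      (𝓝 (∫ x in Dom, (∑' n, α n • Ef M n x) i * Real.sin (ph l x))) := by
    refine tendsto_integral_of_dominated_convergence (fun _ => ∑' n, w n * Bd M n)
      (fun N => ?_) ?_ (fun N => ?_) ?_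
    · exact ((hsc N).cont.mul
        (Real.continuous_sin.comp (ph_contDiff l).continuous)).aestronglyMeasurable
    · exact integrableOn_const dom_lt_top.ne
    · refine Eventually.of_forall fun x => ?_
      rw [norm_mul, e1]
      have h2 := partial_le hw hα (g := fun n => Ef M n x) (fun n => norm_Ef' hM n x) N
      calc _ ≤ (∑' n, w n * Bd M n) * 1 :=
            mul_le_mul ((norm_le_pi_norm _ i).trans h2) (Real.abs_sin_le_one _) (abs_nonneg _)
              ((norm_nonneg _).trans h2)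
        _ = _ := mul_one _
    · refine Eventually.of_forall fun x => Tendsto.mul_const _ ?_
      simp only [e1]
      exact tendsto_pi_nhds.1 (summable_w hw hα (g := fun n => Ef M n x)
        fun n => norm_Ef' hM n x).hasSum.tendsto_sum_nat i
  simp only [(hsc _).int] at h1
  exact h1

end Pool.Agent.Y302.Trunc
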