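import Pool.Agent.Y302.Trunc.Decay
import Pool.Agent.Y302.Trunc.Defs

/-!
The solution.
-/

set_option autoImplicit false

open Set Filter Topology MeasureTheory
open scoped ContDiff

namespace Pool.Agent.Y302.Trunc

open Pool.Agent.H708R2.EulerSign (V Periodic3 Dom divergence sum_mul_clm divergence_eq_sum)
open Pool.Agent.H708R2.EulerModes
open Pool.Agent.Y302.KP

/-- The pressure coefficients. -/
noncomputable def exc (a : ℕ → ℝ → ℝ) (n : ℕ) (t : ℝ) : ℝ := pc n * exa a (n - 1) t ^ 2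

/-- Their derivatives. -/
noncomputable def exd (M : ℕ) (a : ℕ → ℝ → ℝ) (n : ℕ) (t : ℝ) : ℝ :=
  pc n * (2 * exa a (n - 1) t * exb M a (n - 1) t)

/-- The velocity. -/
noncomputable def uu (M : ℕ) (a : ℕ → ℝ → ℝ) (t : ℝ) (x : V) : V := ∑' n, exa a n t • Ef M n x

/-- The pressure. -/
noncomputable def pp (M : ℕ) (a : ℕ → ℝ → ℝ) (t : ℝ) (x : V) : ℝ := ∑' n, exc a n t • Pf M n x

variable {M : ℕ} {T Ts : ℝ} {a : ℕ → ℝ → ℝ}

lemma pc_bd (n : ℕ) : |pc n| ≤ 2 * 2 ^ (0 * n) := by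
  rw [Nat.zero_mul, pow_zero, mul_one]
  cases n with
  | zero => simp [pc]
  | succ n =>
    rw [pc]
    have h4 : n % 4 < 4 := Nat.mod_lt _ (by norm_num)
    generalize n % 4 = k at *
    interval_cases k <;> norm_num [pin, den, abs_le]

lemma odd_cosCoeff {g : V → ℝ} (hg : ∀ x, g (-x) = -g x) (k : K3) : cosCoeff k g = 0 := by
  have h1 : ∫ x in (fun x : V => -x) ⁻¹' cube, g (-x) * Real.cos (ph k (-x))
      = ∫ x in cube, g x * Real.cos (ph k x) :=
    (Measure.measurePreserving_neg (volume : Measure V)).setIntegral_preimage_emb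
      (MeasurableEquiv.neg V).measurableEmbedding (fun x => g x * Real.cos (ph k x)) cube
  have h2 : (fun x : V => -x) ⁻¹' cube = cube := by
    ext x
    simp only [cube, mem_preimage, mem_Icc, Pi.le_def, Pi.neg_apply]
    constructor
    · rintro ⟨h1, h2⟩
      exact ⟨fun i => by linarith [h2 i], fun i => by linarith [h1 i]⟩
    · rintro ⟨h1, h2⟩
      exact ⟨fun i => by linarith [h2 i], fun i => by linarith [h1 i]⟩
  rw [h2] at h1
  have h3 : ∀ x : V, g (-x) * Real.cos (ph k (-x)) = -(g x * Real.cos (ph k x)) := by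
    intro x
    have : ph k (-x) = -ph k x := by simp [ph]
    rw [this, Real.cos_neg, hg]; ring
  simp only [h3] at h1
  rw [integral_neg] at h1
  unfold cosCoeff
  linarith

section main

variable (h : IsSol (Fc M) (gc M) T a) (hM : 0 < M) (hT : Ts < T)
  (hdec : ∀ T' < Ts, ∀ s : ℕ, ∃ B, ∀ t ∈ Icc 0 T', ∀ n, (2 : ℝ) ^ (s * n) * a n t ≤ B)

include h hM hT hdec

lemma ser_u : Ser Ts (exa a) (exb M a) (Ef M) (Bd M) where
  der n t ht := exa_hasDerivAt h hT n ht
  cont n := exb_continuousOn h hT n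
  smooth n := (Ef_contDiff n).of_le (by exact_mod_cast le_top)
  b0 n x := norm_Ef' hM n x
  b1 n x := norm_dEf hM n x
  sum _ hT' := (RD_exa h hT hdec).sum (RD_exb h hM hT hdec) hT'

lemma RD_exc : RD Ts (exc a) := by
  have h1 := RD_exa h hT hdec
  have h2 := ((h1.pred).mul h1.pred).coef pc_bd
  have e : (fun n t => pc n * (exa a (n - 1) t * exa a (n - 1) t)) = exc a := by
    funext n t; unfold exc; ring
  rwa [e] at h2

lemma RD_exd : RD Ts (exd M a) := by
  have h1 := RD_exa h hT hdec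
  have h1' := RD_exb h hM hT hdec
  have h2 := ((h1.pred).mul h1'.pred).coef (c := fun n => 2 * pc n) (C := 4) (k := 0) (by
    intro n
    have := pc_bd n
    rw [abs_mul, abs_two]
    linarith)
  have e : (fun n t => 2 * pc n * (exa a (n - 1) t * exb M a (n - 1) t)) = exd M a := by
    funext n t; unfold exd; ring
  rwa [e] at h2

lemma ser_p : Ser Ts (exc a) (exd M a) (Pf M) (Bd M) where
  der n t ht := by
    have h1 := ((exa_hasDerivAt h hT (n - 1) ht).pow 2).const_mul (pc n)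
    refine h1.congr_deriv ?_
    unfold exd
    norm_num
  cont n := by
    unfold exd
    have h1 : ContinuousOn (exa a (n - 1)) (Ioo (-Ts) Ts) := fun t ht =>
      (exa_hasDerivAt h hT (n - 1) ht).continuousAt.continuousWithinAt
    exact continuousOn_const.mul ((continuousOn_const.mul h1).mul
      (exb_continuousOn h hT (n - 1)))
  smooth n := (Pf_contDiff n).of_le (by exact_mod_cast le_top)
  b0 n x := norm_Pf' hM n x
  b1 n x := norm_dPf hM n x
  sum _ hT' := (RD_exc h hM hT hdec).sum (RD_exd h hM hT hdec) hT'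

lemma rel {t : ℝ} (ht : t ∈ Ico 0 Ts) :
    Rel M (fun n => exa a n t) (fun n => exb M a n t) (fun n => exc a n t) where
  b j := by
    simp only [exb, rhs, abs_of_nonneg ht.1, exa_of_nonneg ht.1]
  c j := rfl

lemma exists_w {t : ℝ} (ht : t ∈ Ico 0 Ts) : ∃ w : ℕ → ℝ, Summable (fun n => w n * Bd M n) ∧
    (∀ n, |exa a n t| ≤ w n) ∧ (∀ n, |exb M a n t| ≤ w n) ∧ ∀ n, |exc a n t| ≤ w n := by
  obtain ⟨T', h1, h2⟩ := exists_between ht.2
  have htI : t ∈ Icc (-T') T' := ⟨by linarith [ht.1], h1.le⟩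
  obtain ⟨w₁, hw₁, hb₁⟩ := (RD_exa h hT hdec).sum (M := M) (RD_exb h hM hT hdec) h2
  obtain ⟨w₂, hw₂, hb₂⟩ := (RD_exc h hM hT hdec).sum (M := M) (RD_exc h hM hT hdec) h2
  have hn1 : ∀ n, 0 ≤ w₁ n := fun n => (abs_nonneg _).trans (hb₁ n t htI).1
  have hn2 : ∀ n, 0 ≤ w₂ n := fun n => (abs_nonneg _).trans (hb₂ n t htI).1
  refine ⟨fun n => w₁ n + w₂ n, ?_, fun n => ?_, fun n => ?_, fun n => ?_⟩
  · simp only [add_mul]
    exact hw₁.add hw₂
  · linarith [(hb₁ n t htI).1, hn2 n]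
  · linarith [(hb₁ n t htI).2, hn2 n]
  · linarith [(hb₂ n t htI).1, hn1 n]

lemma mem_sym {t : ℝ} (ht : t ∈ Ico 0 Ts) : t ∈ Ioo (-Ts) Ts :=
  ⟨by linarith [ht.1, ht.2], ht.2⟩

lemma fderiv_uu {t : ℝ} (ht : t ∈ Ico 0 Ts) (x : V) :
    fderiv ℝ (uu M a t) x = ∑' n, exa a n t • fderiv ℝ (Ef M n) x :=
  ((ser_u h hM hT hdec).hasFDerivAt (mem_sym h hM hT hdec ht) x).fderiv

lemma fderiv_pp {t : ℝ} (ht : t ∈ Ico 0 Ts) (x : V) :
    fderiv ℝ (pp M a t) x = ∑' n, exc a n t • fderiv ℝ (Pf M n) x :=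
  ((ser_p h hM hT hdec).hasFDerivAt (mem_sym h hM hT hdec ht) x).fderiv

lemma momentumTerm_eq {t : ℝ} (ht : t ∈ Ico 0 Ts) (i : Fin 3) (x : V) :
    momentumTerm (Ico 0 Ts) (uu M a) (pp M a) t i x
      = Rf M (fun n => exa a n t) (fun n => exb M a n t) (fun n => exc a n t) x i := by
  unfold momentumTerm Rf
  rw [sum_mul_clm, fderiv_uu h hM hT hdec ht, fderiv_pp h hM hT hdec ht]
  have h1 : HasDerivAt (fun s => uu M a s x) (∑' n, exb M a n t • Ef M n x) t :=
    (ser_u h hM hT hdec).hasDerivAt (mem_sym h hM hT hdec ht) x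
  have h2 := (hasDerivAt_pi.1 h1 i).hasDerivWithinAt.derivWithin (uniqueDiffOn_Ico 0 Ts t ht)
  rw [h2]
  rfl

omit h hM hT hdec in
lemma Rf_odd (α β γ : ℕ → ℝ) (i : Fin 3) (x : V) : Rf M α β γ (-x) i = -Rf M α β γ x i := by
  unfold Rf
  have h1 : ∀ n, fderiv ℝ (Ef M n) (-x) = fderiv ℝ (Ef M n) x := by
    intro n
    ext y : 1
    rw [fderiv_Ef, fderiv_Ef]
    refine Finset.sum_congr rfl fun v _ => ?_
    have : ph v (-x) = -ph v x := by simp [ph]
    rw [this, Real.cos_neg]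
  have h2 : ∀ n, fderiv ℝ (Pf M n) (-x) = -fderiv ℝ (Pf M n) x := by
    intro n
    ext y : 1
    rw [neg_apply, fderiv_Pf, fderiv_Pf, ← Finset.sum_neg_distrib]
    refine Finset.sum_congr rfl fun v _ => ?_
    have : ph v (-x) = -ph v x := by simp [ph]
    rw [this, Real.sin_neg]; ring
  simp only [Ef_neg, h1, h2, smul_neg, tsum_neg, map_neg, Pi.neg_apply, neg_apply]
  ring

omit h hM hT hdec in
lemma Rf_periodic (α β γ : ℕ → ℝ) (i : Fin 3) : Periodic3 (fun x => Rf M α β γ x i) := by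
  intro j x
  unfold Rf
  have h1 : ∀ n, Ef M n (x + Pi.single j (2 * Real.pi)) = Ef M n x := fun n => Ef_periodic n j x
  have h2 : ∀ n, fderiv ℝ (Ef M n) (x + Pi.single j (2 * Real.pi)) = fderiv ℝ (Ef M n) x :=
    fun n => (Ef_periodic n).fderiv j x
  have h3 : ∀ n, fderiv ℝ (Pf M n) (x + Pi.single j (2 * Real.pi)) = fderiv ℝ (Pf M n) x :=
    fun n => (Pf_periodic n).fderiv j x
  simp only [h1, h2, h3]

omit h hM hT hdec in
lemma uu_periodic (t : ℝ) : Periodic3 (uu M a t) := by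
  intro j x
  unfold uu
  have h1 : ∀ n, Ef M n (x + Pi.single j (2 * Real.pi)) = Ef M n x := fun n => Ef_periodic n j x
  simp only [h1]

omit h hM hT hdec in
lemma pp_periodic (t : ℝ) : Periodic3 (pp M a t) := by
  intro j x
  unfold pp
  have h1 : ∀ n, Pf M n (x + Pi.single j (2 * Real.pi)) = Pf M n x := fun n => Pf_periodic n j x
  simp only [h1]

omit h hM hT hdec in
lemma uu_odd (t : ℝ) (x : V) : uu M a t (-x) = -uu M a t x := by
  unfold uu
  simp only [Ef_neg, smul_neg, tsum_neg]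

lemma uu_coeff {t : ℝ} (ht : t ∈ Ico 0 Ts) {j : ℕ} {l : K3} (hl : l ∈ Lev M j) (i : Fin 3) :
    ∫ x in Dom, uu M a t x i * Real.sin (ph l x) = a j t * (2 * vc * (am M j l i : ℝ)) := by
  obtain ⟨w, hw, hα, -, -⟩ := exists_w h hM hT hdec ht
  have h1 := tsum_Ef_coeff hM hw hα l i
  refine tendsto_nhds_unique h1 (tendsto_const_nhds.congr' ?_)
  filter_upwards [eventually_gt_atTop j] with N hN
  rw [Finset.sum_eq_single_of_mem j (Finset.mem_range.2 hN)]
  · rw [if_pos hl, exa_of_nonneg ht.1]; ring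
  · intro n _ hn
    rw [if_neg fun h => hn (Lev_disjoint hM h hl)]
    ring

lemma uu_coeff_zero {t : ℝ} (ht : t ∈ Ico 0 Ts) {l : K3} (hl : l ∉ Cset M) (i : Fin 3) :
    ∫ x in Dom, uu M a t x i * Real.sin (ph l x) = 0 := by
  obtain ⟨w, hw, hα, -, -⟩ := exists_w h hM hT hdec ht
  have h1 := tsum_Ef_coeff hM hw hα l i
  refine tendsto_nhds_unique h1 (tendsto_const_nhds.congr' ?_)
  filter_upwards with N
  refine (Finset.sum_eq_zero fun n _ => ?_).symm
  rw [if_neg fun h => hl ⟨n, h⟩]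
  ring

/-- The solution property. -/
theorem isSolution {R : Set K3} (hR1 : ∀ k ∈ R, k ∉ Cset M) (hR2 : Rset M ⊆ R) :
    IsSolutionWithout R (Ico 0 Ts) (uu M a) (pp M a) where
  contDiffOn_u := (ser_u h hM hT hdec).contDiffOn.mono
    (prod_mono (fun _ ht => mem_sym h hM hT hdec ht) subset_rfl)
  contDiffOn_p := (ser_p h hM hT hdec).contDiffOn.mono
    (prod_mono (fun _ ht => mem_sym h hM hT hdec ht) subset_rfl)
  periodic_u t _ := uu_periodic t
  periodic_p t _ := pp_periodic t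
  div_free t ht x := by
    rw [divergence_eq_sum, fderiv_uu h hM hT hdec ht]
    have hs := ((ser_u h hM hT hdec).summable_fderiv (mem_sym h hM hT hdec ht) x).hasSum
    have h1 : Continuous (fun L : V →L[ℝ] V => ∑ i, L (Pi.single i 1) i) := by
      refine continuous_finsetSum _ fun i _ => ?_
      exact (continuous_apply i).comp (continuous_id.clm_apply continuous_const)
    have h2 := (h1.tendsto _).comp hs.tendsto_sum_nat
    refine tendsto_nhds_unique h2 (tendsto_const_nhds.congr' ?_)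
    filter_upwards with N
    simp only [Function.comp, sum_apply, smul_apply, Finset.sum_apply, Pi.smul_apply, smul_eq_mul]
    rw [Finset.sum_comm]
    refine (Finset.sum_eq_zero fun n _ => ?_).symm
    rw [← Finset.mul_sum, div_Ef hM, mul_zero]
  modes t ht k hk i := by
    constructor
    · refine odd_cosCoeff (fun x => ?_) k
      rw [uu_odd]; rfl
    · rw [sinCoeff_eq (comp_periodic (uu_periodic t) i)]
      exact uu_coeff_zero h hM hT hdec ht (hR1 k hk) i
  momentum t ht k hk i := by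
    have e : momentumTerm (Ico 0 Ts) (uu M a) (pp M a) t i
        = fun x => Rf M (fun n => exa a n t) (fun n => exb M a n t) (fun n => exc a n t) x i :=
      funext fun x => momentumTerm_eq h hM hT hdec ht i x
    rw [e]
    constructor
    · exact odd_cosCoeff (fun x => Rf_odd _ _ _ i x) k
    · rw [sinCoeff_eq (Rf_periodic _ _ _ i)]
      obtain ⟨w, hw, hα, hβ, hγ⟩ := exists_w h hM hT hdec ht
      exact Rf_coeff hM hw hα hβ hγ (rel h hM hT hdec ht) (fun h => hk (hR2 h)) i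

/-- Smoothness in space. -/
theorem uu_smooth {t : ℝ} (ht : t ∈ Ico 0 Ts) : ContDiff ℝ ∞ (uu M a t) := by
  obtain ⟨T', h1, h2⟩ := exists_between ht.2
  have htI : t ∈ Icc (-T') T' := ⟨by linarith [ht.1], h1.le⟩
  unfold uu
  have hR := RD_exa h hT hdec
  refine contDiff_tsum (v := fun k n => |exa a n t| * (72 * (36 * M * 8 ^ n) ^ k))
    (fun n => (Ef_contDiff n).const_smul (exa a n t)) (fun k _ => ?_) (fun k n x _ => ?_)
  · obtain ⟨B, hB0, hB⟩ := hR T' h2 (3 * k + 1)
    refine Summable.of_nonneg_of_le (fun n => by positivity) (fun n => ?_)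
      (summable_geometric_two.mul_left (B * 72 * (36 * M) ^ k))
    have hb := hB n t htI
    have e1 : (2 : ℝ) ^ ((3 * k + 1) * n) = (8 ^ n) ^ k * 2 ^ n := by
      rw [add_mul, one_mul, pow_add, ← pow_mul, mul_assoc, pow_mul]
      norm_num
      rw [mul_comm k n]
    rw [e1] at hb
    have e2 : (1 / 2 : ℝ) ^ n * 2 ^ n = 1 := by rw [← mul_pow]; norm_num
    have h3 : (0 : ℝ) ≤ (1 / 2) ^ n := by positivity
    calc |exa a n t| * (72 * (36 * (M : ℝ) * 8 ^ n) ^ k)
        = 72 * (36 * M) ^ k * ((1 / 2) ^ n * ((8 ^ n) ^ k * 2 ^ n * |exa a n t|)) := by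
          rw [mul_pow]
          calc _ = 72 * (36 * (M : ℝ)) ^ k * (((1 / 2 : ℝ) ^ n * 2 ^ n)
                * ((8 ^ n) ^ k * |exa a n t|)) := by rw [e2]; ring
            _ = _ := by ring
      _ ≤ 72 * (36 * M) ^ k * ((1 / 2) ^ n * B) := by
          refine mul_le_mul_of_nonneg_left (mul_le_mul_of_nonneg_left hb h3) (by positivity)
      _ = _ := by ring
  · have h3 : iteratedFDeriv ℝ k (fun x => exa a n t • Ef M n x) x
        = exa a n t • iteratedFDeriv ℝ k (Ef M n) x := by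
      have h4 : (fun x => exa a n t • Ef M n x) = exa a n t • Ef M n := rfl
      rw [h4]
      exact iteratedFDeriv_const_smul_apply
        ((Ef_contDiff n).contDiffAt.of_le (by exact_mod_cast le_top))
    rw [h3, norm_smul]
    exact mul_le_mul_of_nonneg_left (norm_iter_Ef hM n k x) (abs_nonneg _)

end main

end Pool.Agent.Y302.Trunc
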