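import Pool.Agent.Y302.Trunc.Chain

/-!
Classification of the interactions and sparseness of the set of removed frequencies.
-/

set_option autoImplicit false

open Finset

namespace Pool.Agent.Y302.Trunc

lemma L_of_ge {i : ℕ} (hi : 4 ≤ i) : L i = [] := by
  unfold L
  split <;> first | omega | rfl

lemma lt_of_mem_L {i : ℕ} {v : Z3} (h : v ∈ L i) : i < 4 := by
  by_contra hcon
  rw [L_of_ge (not_lt.1 hcon)] at h
  simp at h

lemma forall_L {P : ℕ → Z3 → Bool} (h : ∀ j < 4, (L j).all (fun v => P j v) = true) {i : ℕ}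
    {v : Z3} (hv : v ∈ L i) : P i v = true :=
  List.all_eq_true.1 (h i (lt_of_mem_L hv)) v hv

lemma bd_L {i : ℕ} {v : Z3} (hv : v ∈ L i) : |v.1| ≤ 12 ∧ |v.2.1| ≤ 12 ∧ |v.2.2| ≤ 12 := by
  have h := forall_L (P := fun _ v => decide (|v.1| ≤ 12 ∧ |v.2.1| ≤ 12 ∧ |v.2.2| ≤ 12))
    (by decide +kernel) hv
  exact of_decide_eq_true h

lemma low_L {i : ℕ} {v : Z3} (hv : v ∈ L i) : 3 ≤ |v.1| ∨ 3 ≤ |v.2.1| ∨ 3 ≤ |v.2.2| := by
  have h := forall_L (P := fun _ v => decide (3 ≤ |v.1| ∨ 3 ≤ |v.2.1| ∨ 3 ≤ |v.2.2|))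
    (by decide +kernel) hv
  exact of_decide_eq_true h

lemma nz8_L {i : ℕ} {v : Z3} (hv : v ∈ L i) : ¬ (v.1 % 8 = 0 ∧ v.2.1 % 8 = 0 ∧ v.2.2 % 8 = 0) := by
  have h := forall_L (P := fun _ v => decide (¬ (v.1 % 8 = 0 ∧ v.2.1 % 8 = 0 ∧ v.2.2 % 8 = 0)))
    (by decide +kernel) hv
  exact of_decide_eq_true h

lemma orth_L {i : ℕ} {v : Z3} (hv : v ∈ L i) :
    f i v.1 * v.1 + f i v.2.1 * v.2.1 + f i v.2.2 * v.2.2 = 0 := by
  have h := forall_L (P := fun i v => decide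
    (f i v.1 * v.1 + f i v.2.1 * v.2.1 + f i v.2.2 * v.2.2 = 0)) (by decide +kernel) hv
  exact of_decide_eq_true h

/-- The vector equation `8ᵃ v + 8ᵇ w = 8ᶜ z`. -/
def Eqn (a b c : ℕ) (v w z : Z3) : Prop :=
  8 ^ a * v.1 + 8 ^ b * w.1 = 8 ^ c * z.1 ∧ 8 ^ a * v.2.1 + 8 ^ b * w.2.1 = 8 ^ c * z.2.1 ∧
    8 ^ a * v.2.2 + 8 ^ b * w.2.2 = 8 ^ c * z.2.2

lemma key_scale {i : ℕ} {z : Z3} (hz : z ∈ L i) :
    key z = keyOf i ∧ key (8 * z.1, 8 * z.2.1, 8 * z.2.2) = keyOf (4 + i) := by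
  have h := forall_L (P := fun i z => decide
    (key z = keyOf i ∧ key (8 * z.1, 8 * z.2.1, 8 * z.2.2) = keyOf (4 + i))) (by decide +kernel) hz
  exact of_decide_eq_true h

lemma size_aux {x y z : ℤ} {c : ℕ} (hc : 2 ≤ c) (hx : |x| ≤ 12) (hy : |y| ≤ 12) (hz : 3 ≤ |z|)
    (h : x + y = 8 ^ c * z) : False := by
  have h1 : |x + y| ≤ 24 := (abs_add_le x y).trans (by linarith)
  have h2 : (64 : ℤ) ≤ 8 ^ c := by
    calc (64 : ℤ) = 8 ^ 2 := by norm_num
      _ ≤ 8 ^ c := pow_le_pow_right₀ (by norm_num) hc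
  rw [h, abs_mul, abs_of_pos (by positivity : (0 : ℤ) < 8 ^ c)] at h1
  nlinarith

lemma good_of_cls {i1 i2 : ℕ} {v w : Z3} (hv : v ∈ L i1) (hw : w ∈ L i2) {j : ℕ} (hj : j < 8)
    (h : key (v + w) = keyOf j) : good i1 i2 j = true := by
  have h1 := cls_all i1 (lt_of_mem_L hv) i2 (lt_of_mem_L hw)
  have h2 := List.all_eq_true.1 h1 v hv
  have h3 := List.all_eq_true.1 h2 w hw
  have h4 := List.all_eq_true.1 h3 j (List.mem_range.2 hj)
  simpa [h] using h4

lemma good_iff {n m j : ℕ} : good n m j = true ↔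
    (n = m ∧ j = n + 1) ∨ (j = n ∧ m = n + 1) ∨ (j = m ∧ n = m + 1) := by
  simp [good, or_assoc]

/-- sum of two base vectors -/
lemma core0 {i1 i2 i3 c : ℕ} {v w z : Z3} (hv : v ∈ L i1) (hw : w ∈ L i2) (hz : z ∈ L i3)
    (h : Eqn 0 0 c v w z) : good i1 i2 (4 * c + i3) = true := by
  obtain ⟨h1, h2, h3⟩ := h
  simp only [pow_zero, one_mul] at h1 h2 h3
  rcases Nat.lt_or_ge c 2 with hc | hc
  · have hi3 := lt_of_mem_L hz
    have hk := key_scale hz
    interval_cases c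
    · simp only [pow_zero, one_mul] at h1 h2 h3
      have : v + w = z := by
        ext <;> simp [h1, h2, h3]
      refine good_of_cls hv hw (by omega) ?_
      rw [this, hk.1]
      simp
    · simp only [pow_one] at h1 h2 h3
      have : v + w = (8 * z.1, 8 * z.2.1, 8 * z.2.2) := by
        ext <;> simp [h1, h2, h3]
      refine good_of_cls hv hw (by omega) ?_
      rw [this, hk.2]
  · exfalso
    obtain ⟨a1, a2, a3⟩ := bd_L hv
    obtain ⟨b1, b2, b3⟩ := bd_L hw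
    rcases low_L hz with hh | hh | hh
    · exact size_aux hc a1 b1 hh h1
    · exact size_aux hc a2 b2 hh h2
    · exact size_aux hc a3 b3 hh h3

lemma mod8_aux {i : ℕ} {v : Z3} (hv : v ∈ L i) {x y z : ℤ} (h1 : v.1 = 8 * x) (h2 : v.2.1 = 8 * y)
    (h3 : v.2.2 = 8 * z) : False := by
  refine nz8_L hv ⟨?_, ?_, ?_⟩ <;> omega

/-- The classification. -/
theorem core (a : ℕ) : ∀ (b c : ℕ) {i1 i2 i3 : ℕ} {v w z : Z3}, v ∈ L i1 → w ∈ L i2 → z ∈ L i3 →
    Eqn a b c v w z → good (4 * a + i1) (4 * b + i2) (4 * c + i3) = true := by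
  induction a with
  | zero =>
    intro b c i1 i2 i3 v w z hv hw hz h
    rcases b with _ | b
    · simpa using core0 hv hw hz h
    · rcases c with _ | c
      · -- z - v = 8^(b+1) w
        have h' : Eqn 0 0 (b + 1) z (-v) w := by
          obtain ⟨h1, h2, h3⟩ := h
          refine ⟨?_, ?_, ?_⟩ <;> simp at h1 h2 h3 ⊢ <;> linarith
        have h1 := good_iff.1 (core0 hz (neg_mem_L hv) hw h')
        have e1 := lt_of_mem_L hv
        have e2 := lt_of_mem_L hw
        have e3 := lt_of_mem_L hz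
        rw [good_iff]
        omega
      · exfalso
        obtain ⟨h1, h2, h3⟩ := h
        refine mod8_aux hv (x := 8 ^ c * z.1 - 8 ^ b * w.1) (y := 8 ^ c * z.2.1 - 8 ^ b * w.2.1)
          (z := 8 ^ c * z.2.2 - 8 ^ b * w.2.2) ?_ ?_ ?_
        · rw [pow_zero, one_mul, pow_succ, pow_succ] at h1; linear_combination h1
        · rw [pow_zero, one_mul, pow_succ, pow_succ] at h2; linear_combination h2
        · rw [pow_zero, one_mul, pow_succ, pow_succ] at h3; linear_combination h3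
  | succ a ih =>
    intro b c i1 i2 i3 v w z hv hw hz h
    rcases b with _ | b
    · rcases c with _ | c
      · have h' : Eqn 0 0 (a + 1) z (-w) v := by
          obtain ⟨h1, h2, h3⟩ := h
          refine ⟨?_, ?_, ?_⟩ <;> simp at h1 h2 h3 ⊢ <;> linarith
        have h1 := good_iff.1 (core0 hz (neg_mem_L hw) hv h')
        have e1 := lt_of_mem_L hv
        have e2 := lt_of_mem_L hw
        have e3 := lt_of_mem_L hz
        rw [good_iff]
        omega
      · exfalso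
        obtain ⟨h1, h2, h3⟩ := h
        refine mod8_aux hw (x := 8 ^ c * z.1 - 8 ^ a * v.1) (y := 8 ^ c * z.2.1 - 8 ^ a * v.2.1)
          (z := 8 ^ c * z.2.2 - 8 ^ a * v.2.2) ?_ ?_ ?_
        · rw [pow_zero, one_mul, pow_succ, pow_succ] at h1; linear_combination h1
        · rw [pow_zero, one_mul, pow_succ, pow_succ] at h2; linear_combination h2
        · rw [pow_zero, one_mul, pow_succ, pow_succ] at h3; linear_combination h3
    · rcases c with _ | c
      · exfalso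
        obtain ⟨h1, h2, h3⟩ := h
        refine mod8_aux hz (x := 8 ^ a * v.1 + 8 ^ b * w.1) (y := 8 ^ a * v.2.1 + 8 ^ b * w.2.1)
          (z := 8 ^ a * v.2.2 + 8 ^ b * w.2.2) ?_ ?_ ?_
        · rw [pow_zero, one_mul, pow_succ, pow_succ] at h1; linear_combination -h1
        · rw [pow_zero, one_mul, pow_succ, pow_succ] at h2; linear_combination -h2
        · rw [pow_zero, one_mul, pow_succ, pow_succ] at h3; linear_combination -h3
      · have h' : Eqn a b c v w z := by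
          obtain ⟨h1, h2, h3⟩ := h
          refine ⟨?_, ?_, ?_⟩
          · rw [pow_succ, pow_succ, pow_succ] at h1; linarith
          · rw [pow_succ, pow_succ, pow_succ] at h2; linarith
          · rw [pow_succ, pow_succ, pow_succ] at h3; linarith
        have h1 := good_iff.1 (ih b c hv hw hz h')
        rw [good_iff]
        omega

lemma exists_of_mem_Lev {M n : ℕ} {l : K3} (h : l ∈ Lev M n) :
    ∃ v ∈ L (n % 4), l = sg M n • toK v := by
  obtain ⟨v, hv, rfl⟩ := exists_of_mem_LevX h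
  rw [Lx_eq (Nat.mod_lt _ (by norm_num))] at hv
  exact ⟨v, hv, rfl⟩

lemma mem_Lev {M : ℕ} (hM : 0 < M) {n : ℕ} {v : Z3} :
    sg M n • toK v ∈ Lev M n ↔ v ∈ L (n % 4) := by
  rw [Lev, mem_LevX (sg_pos hM n).ne', Lx_eq (Nat.mod_lt _ (by norm_num))]

/-- The classification of the triads. -/
theorem classify {M : ℕ} (hM : 0 < M) {n m j : ℕ} {v w : K3} (hv : v ∈ Lev M n)
    (hw : w ∈ Lev M m) (h : v + w ∈ Lev M j) :
    (n = m ∧ j = n + 1) ∨ (j = n ∧ m = n + 1) ∨ (j = m ∧ n = m + 1) := by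
  obtain ⟨v', hv', rfl⟩ := exists_of_mem_Lev hv
  obtain ⟨w', hw', rfl⟩ := exists_of_mem_Lev hw
  obtain ⟨z', hz', hz⟩ := exists_of_mem_Lev h
  have hM' : (M : ℤ) ≠ 0 := by exact_mod_cast hM.ne'
  have hE : Eqn (n / 4) (m / 4) (j / 4) v' w' z' := by
    have h0 := congrFun hz 0
    have h1 := congrFun hz 1
    have h2 := congrFun hz 2
    simp only [Pi.add_apply, Pi.smul_apply, smul_eq_mul, toK, co, sg, Fin.val_zero, Fin.val_one,
      Fin.val_two] at h0 h1 h2
    refine ⟨?_, ?_, ?_⟩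
    · apply mul_left_cancel₀ hM'; linarith
    · apply mul_left_cancel₀ hM'; linarith
    · apply mul_left_cancel₀ hM'; linarith
  have h1 := good_iff.1 (core _ _ _ hv' hw' hz' hE)
  omega

lemma neg_mem_Lev {M : ℕ} (hM : 0 < M) {n : ℕ} {l : K3} (h : l ∈ Lev M n) : -l ∈ Lev M n := by
  obtain ⟨v, hv, rfl⟩ := exists_of_mem_Lev h
  rw [← smul_neg, ← toK_neg]
  exact (mem_Lev hM).2 (neg_mem_L hv)

lemma am_smul {M : ℕ} (hM : 0 < M) (n : ℕ) (v : Z3) (p : Fin 3) :
    am M n (sg M n • toK v) p = f (n % 4) (co p v) := by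
  rw [am_eq, amX_smul (sg_pos hM n).ne', fx_eq (Nat.mod_lt _ (by norm_num))]

lemma co_neg (p : ℕ) (v : Z3) : co p (-v) = -co p v := by
  unfold co
  split <;> rfl

lemma am_neg {M : ℕ} (hM : 0 < M) {n : ℕ} {l : K3} (h : l ∈ Lev M n) (p : Fin 3) :
    am M n (-l) p = -am M n l p := by
  obtain ⟨v, hv, rfl⟩ := exists_of_mem_Lev h
  rw [← smul_neg, ← toK_neg, am_smul hM, am_smul hM, co_neg, f_neg]

lemma am_orth {M : ℕ} (hM : 0 < M) {n : ℕ} {l : K3} (h : l ∈ Lev M n) :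
    ∑ p, am M n l p * l p = 0 := by
  obtain ⟨v, hv, rfl⟩ := exists_of_mem_Lev h
  simp only [am_smul hM, Fin.sum_univ_three, Pi.smul_apply, smul_eq_mul, toK]
  simp only [co, Fin.val_zero, Fin.val_one, Fin.val_two]
  have := orth_L hv
  linear_combination (sg M n) * this

lemma f_bd (i : ℕ) (z : ℤ) : |f i z| ≤ 3 := by
  unfold f
  split
  · split_ifs <;> simp
  · split_ifs <;> simp
  · split_ifs <;> simp
  · split_ifs <;> simp
  · simp

lemma am_bd (M n : ℕ) (l : K3) (p : Fin 3) : |am M n l p| ≤ 3 := by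
  rw [am_eq, amX, fx_eq (Nat.mod_lt _ (by norm_num))]
  exact f_bd _ _

lemma Lev_up {M : ℕ} (hM : 0 < M) {n : ℕ} {l : K3} (h : l ∈ Lev M n) (p : Fin 3) :
    |l p| ≤ 12 * sg M n := by
  obtain ⟨v, hv, rfl⟩ := exists_of_mem_Lev h
  obtain ⟨h1, h2, h3⟩ := bd_L hv
  have hs := sg_pos hM n
  rw [Pi.smul_apply, smul_eq_mul, abs_mul, abs_of_pos hs, mul_comm]
  refine mul_le_mul_of_nonneg_right ?_ hs.le
  fin_cases p
  · exact h1
  · exact h2
  · exact h3

lemma Lev_low {M : ℕ} (hM : 0 < M) {n : ℕ} {l : K3} (h : l ∈ Lev M n) :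
    ∃ p, 3 * sg M n ≤ |l p| := by
  obtain ⟨v, hv, rfl⟩ := exists_of_mem_Lev h
  have hs := sg_pos hM n
  have key : ∀ (p : Fin 3), 3 ≤ |co p v| → 3 * sg M n ≤ |(sg M n • toK v) p| := by
    intro p hp
    rw [Pi.smul_apply, smul_eq_mul, abs_mul, abs_of_pos hs, mul_comm]
    exact mul_le_mul_of_nonneg_left hp hs.le
  rcases low_L hv with h1 | h1 | h1
  · exact ⟨0, key 0 h1⟩
  · exact ⟨1, key 1 h1⟩
  · exact ⟨2, key 2 h1⟩

lemma card_Lev (M n : ℕ) : (Lev M n).card ≤ 24 := by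
  unfold Lev LevX
  refine Finset.card_image_le.trans ?_
  have h : ∀ i < 4, (Lx i).toFinset.card ≤ 24 := by decide +kernel
  exact h _ (Nat.mod_lt _ (by norm_num))

lemma disj_aux (a : ℕ) : ∀ (b : ℕ) {i j : ℕ} {v w : Z3}, v ∈ L i → w ∈ L j →
    (8 ^ a * v.1 = 8 ^ b * w.1 ∧ 8 ^ a * v.2.1 = 8 ^ b * w.2.1 ∧ 8 ^ a * v.2.2 = 8 ^ b * w.2.2) →
    a = b ∧ i = j := by
  induction a with
  | zero =>
    rintro (_ | b) i j v w hv hw ⟨h1, h2, h3⟩
    · simp only [pow_zero, one_mul] at h1 h2 h3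
      have : v = w := by ext <;> simp [h1, h2, h3]
      subst this
      have k1 := (key_scale hv).1
      have k2 := (key_scale hw).1
      rw [k1] at k2
      have hi := lt_of_mem_L hv
      have hj := lt_of_mem_L hw
      refine ⟨rfl, ?_⟩
      interval_cases i <;> interval_cases j <;> simp [keyOf] at k2 <;> rfl
    · exfalso
      refine mod8_aux hv (x := 8 ^ b * w.1) (y := 8 ^ b * w.2.1) (z := 8 ^ b * w.2.2) ?_ ?_ ?_
      · rw [pow_zero, one_mul, pow_succ] at h1; linear_combination h1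
      · rw [pow_zero, one_mul, pow_succ] at h2; linear_combination h2
      · rw [pow_zero, one_mul, pow_succ] at h3; linear_combination h3
  | succ a ih =>
    rintro (_ | b) i j v w hv hw ⟨h1, h2, h3⟩
    · exfalso
      refine mod8_aux hw (x := 8 ^ a * v.1) (y := 8 ^ a * v.2.1) (z := 8 ^ a * v.2.2) ?_ ?_ ?_
      · rw [pow_zero, one_mul, pow_succ] at h1; linear_combination -h1
      · rw [pow_zero, one_mul, pow_succ] at h2; linear_combination -h2
      · rw [pow_zero, one_mul, pow_succ] at h3; linear_combination -h3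
    · have := ih b hv hw ⟨?_, ?_, ?_⟩
      · omega
      · rw [pow_succ, pow_succ] at h1; linarith
      · rw [pow_succ, pow_succ] at h2; linarith
      · rw [pow_succ, pow_succ] at h3; linarith

theorem Lev_disjoint {M : ℕ} (hM : 0 < M) {n m : ℕ} {l : K3} (h1 : l ∈ Lev M n)
    (h2 : l ∈ Lev M m) : n = m := by
  obtain ⟨v, hv, rfl⟩ := exists_of_mem_Lev h1
  obtain ⟨w, hw, hz⟩ := exists_of_mem_Lev h2
  have hM' : (M : ℤ) ≠ 0 := by exact_mod_cast hM.ne'
  have e0 := congrFun hz 0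
  have e1 := congrFun hz 1
  have e2 := congrFun hz 2
  simp only [Pi.smul_apply, smul_eq_mul, toK, co, sg, Fin.val_zero, Fin.val_one,
    Fin.val_two] at e0 e1 e2
  have := disj_aux (n / 4) (m / 4) hv hw ⟨by apply mul_left_cancel₀ hM'; linarith,
    by apply mul_left_cancel₀ hM'; linarith, by apply mul_left_cancel₀ hM'; linarith⟩
  omega

/-- All frequencies of the chain. -/
def Cset (M : ℕ) : Set K3 := {l | ∃ n, l ∈ Lev M n}

/-- The removed frequencies: nonzero sums of two frequencies of the chain which are not in the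
chain. -/
def Rset (M : ℕ) : Set K3 := {l | (∃ v ∈ Cset M, ∃ w ∈ Cset M, l = v + w) ∧ l ∉ Cset M ∧ l ≠ 0}

lemma neg_mem_Cset {M : ℕ} (hM : 0 < M) {l : K3} (h : l ∈ Cset M) : -l ∈ Cset M := by
  obtain ⟨n, hn⟩ := h
  exact ⟨n, neg_mem_Lev hM hn⟩

lemma neg_mem_Rset {M : ℕ} (hM : 0 < M) {l : K3} (h : l ∈ Rset M) : -l ∈ Rset M := by
  obtain ⟨⟨v, hv, w, hw, rfl⟩, h2, h3⟩ := h
  refine ⟨⟨-v, neg_mem_Cset hM hv, -w, neg_mem_Cset hM hw, by abel⟩, fun h => h2 ?_,
    neg_ne_zero.2 h3⟩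
  have := neg_mem_Cset hM h
  rwa [neg_neg] at this

lemma dvd_Cset {M : ℕ} {l : K3} (h : l ∈ Cset M) (p : Fin 3) : (M : ℤ) ∣ l p := by
  obtain ⟨n, hn⟩ := h
  obtain ⟨v, hv, rfl⟩ := exists_of_mem_Lev hn
  simp only [Pi.smul_apply, smul_eq_mul, sg, mul_assoc]
  exact dvd_mul_right _ _

lemma low_Rset {M : ℕ} {l : K3} (h : l ∈ Rset M) : ∃ p, (M : ℤ) ≤ |l p| := by
  obtain ⟨⟨v, hv, w, hw, rfl⟩, _, h3⟩ := h
  obtain ⟨p, hp⟩ : ∃ p, (v + w) p ≠ 0 := by
    by_contra hcon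
    push Not at hcon
    exact h3 (funext hcon)
  refine ⟨p, ?_⟩
  have h1 : (M : ℤ) ∣ |(v + w) p| := (dvd_abs _ _).2 (dvd_add (dvd_Cset hv p) (dvd_Cset hw p))
  exact Int.le_of_dvd (abs_pos.2 hp) h1

/-- Sums are large. -/
lemma sum_low {M : ℕ} (hM : 0 < M) {n m : ℕ} (hnm : n ≤ m) {v w : K3} (hv : v ∈ Lev M n)
    (hw : w ∈ Lev M m) (h : v + w ≠ 0) : ∃ p, sg M m ≤ 64 * |(v + w) p| := by
  have hd : n / 4 ≤ m / 4 := Nat.div_le_div_right hnm
  obtain ⟨k, hk⟩ := Nat.exists_eq_add_of_le hd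
  have hs := sg_pos hM n
  have hsm : sg M m = sg M n * 8 ^ k := by unfold sg; rw [hk, pow_add]; ring
  rcases Nat.lt_or_ge k 3 with hk3 | hk3
  · obtain ⟨p, hp⟩ : ∃ p, (v + w) p ≠ 0 := by
      by_contra hcon
      push Not at hcon
      exact h (funext hcon)
    refine ⟨p, ?_⟩
    obtain ⟨v', hv', rfl⟩ := exists_of_mem_Lev hv
    obtain ⟨w', hw', rfl⟩ := exists_of_mem_Lev hw
    have h1 : sg M n ∣ |(sg M n • toK v' + sg M m • toK w') p| := by
      rw [dvd_abs]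
      simp only [Pi.add_apply, Pi.smul_apply, smul_eq_mul, hsm, mul_assoc]
      exact dvd_add (dvd_mul_right _ _) (dvd_mul_right _ _)
    have h2 := Int.le_of_dvd (abs_pos.2 hp) h1
    have h3 : (8 : ℤ) ^ k ≤ 64 := by
      calc (8 : ℤ) ^ k ≤ 8 ^ 2 := pow_le_pow_right₀ (by norm_num) (by omega)
        _ = 64 := by norm_num
    calc sg M m = sg M n * 8 ^ k := hsm
      _ ≤ sg M n * 64 := mul_le_mul_of_nonneg_left h3 hs.le
      _ ≤ _ := by linarith
  · obtain ⟨p, hp⟩ := Lev_low hM hw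
    refine ⟨p, ?_⟩
    have h1 := Lev_up hM hv p
    have h2 : |w p| ≤ |(v + w) p| + |v p| := by
      have : w p = (v + w) p - v p := by simp
      calc |w p| = |(v + w) p - v p| := by rw [← this]
        _ ≤ _ := abs_sub _ _
    have h3 : (512 : ℤ) ≤ 8 ^ k := by
      calc (512 : ℤ) = 8 ^ 3 := by norm_num
        _ ≤ 8 ^ k := pow_le_pow_right₀ (by norm_num) hk3
    have h4 : 512 * sg M n ≤ sg M m := by rw [hsm]; nlinarith
    linarith

lemma level_lt {M : ℕ} (hM : 0 < M) {n m N : ℕ} (hnm : n ≤ m) {v w : K3}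
    (hv : v ∈ Lev M n) (hw : w ∈ Lev M m) (h : v + w ≠ 0) (hb : ∀ p, |(v + w) p| ≤ N) :
    m < 4 * (3 + Nat.log 8 N) := by
  obtain ⟨p, hp⟩ := sum_low hM hnm hv hw h
  have h1 := hb p
  have h2 : sg M m ≤ 64 * N := by linarith
  have h3 : (8 : ℤ) ^ (m / 4) ≤ sg M m := by
    unfold sg
    have : (1 : ℤ) ≤ M := by exact_mod_cast hM
    nlinarith [pow_pos (by norm_num : (0 : ℤ) < 8) (m / 4)]
  have h4 : 8 ^ (m / 4) ≤ 64 * N := by
    have : ((8 ^ (m / 4) : ℕ) : ℤ) ≤ ((64 * N : ℕ) : ℤ) := by push_cast; linarith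
    exact_mod_cast this
  have h5 : N < 8 ^ (Nat.log 8 N + 1) := Nat.lt_pow_succ_log_self (by norm_num) N
  have h6 : 8 ^ (m / 4) < 8 ^ (Nat.log 8 N + 3) := by
    calc 8 ^ (m / 4) ≤ 64 * N := h4
      _ < 64 * 8 ^ (Nat.log 8 N + 1) := by omega
      _ = 8 ^ (Nat.log 8 N + 3) := by rw [pow_succ, pow_add]; ring
  have h7 := (Nat.pow_lt_pow_iff_right (by norm_num : 1 < 8)).1 h6
  omega

/-- The removed set is sparse. -/
theorem count {M : ℕ} (hM : 0 < M) {N : ℕ} (hN : 2 ≤ N) :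
    ({l ∈ Rset M | ∀ p, |l p| ≤ N}.ncard : ℝ) ≤ 230400 * Real.log N ^ 2 := by
  classical
  set m1 : ℕ := 4 * (3 + Nat.log 8 N) with hm1
  set T : Finset K3 := ((range m1) ×ˢ (range m1)).biUnion fun q =>
    ((Lev M q.1) ×ˢ (Lev M q.2)).image fun vw => vw.1 + vw.2 with hT
  have hsub : {l ∈ Rset M | ∀ p, |l p| ≤ N} ⊆ (T : Set K3) := by
    rintro l ⟨⟨⟨v, ⟨n, hv⟩, w, ⟨m, hw⟩, rfl⟩, _, h0⟩, hb⟩
    rw [hT, Finset.mem_coe, Finset.mem_biUnion]
    have hn : n < m1 ∧ m < m1 := by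
      rcases le_total n m with hnm | hnm
      · have := level_lt hM hnm hv hw h0 hb
        omega
      · have := level_lt (N := N) hM hnm hw hv (by rwa [add_comm])
          (fun p => by rw [add_comm]; exact hb p)
        omega
    refine ⟨(n, m), Finset.mem_product.2 ⟨mem_range.2 hn.1, mem_range.2 hn.2⟩, ?_⟩
    exact Finset.mem_image.2 ⟨(v, w), Finset.mem_product.2 ⟨hv, hw⟩, rfl⟩
  have h1 : {l ∈ Rset M | ∀ p, |l p| ≤ N}.ncard ≤ T.card := by
    rw [← Set.ncard_coe_finset]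
    exact Set.ncard_le_ncard hsub (Finset.finite_toSet T)
  have h2 : T.card ≤ m1 * m1 * 576 := by
    rw [hT]
    refine (Finset.card_biUnion_le_card_mul _ _ 576 fun q _ => ?_).trans ?_
    · refine Finset.card_image_le.trans ?_
      rw [Finset.card_product]
      calc (Lev M q.1).card * (Lev M q.2).card ≤ 24 * 24 :=
            Nat.mul_le_mul (card_Lev _ _) (card_Lev _ _)
        _ = 576 := by norm_num
    · rw [Finset.card_product, Finset.card_range]
  have hx : (2 : ℝ) / 3 ≤ Real.log N := by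
    have h3 : Real.log 2 ≤ Real.log N :=
      Real.log_le_log (by norm_num) (by exact_mod_cast hN)
    have := Real.log_two_gt_d9
    linarith
  have h4 : (m1 : ℝ) ≤ 20 * Real.log N := by
    have h5 : (Nat.log 8 N : ℝ) ≤ Real.log N / 2 := by
      have h6 := Real.natLog_le_logb N 8
      have h7 : Real.logb (8 : ℕ) N = Real.log N / Real.log 8 := by
        rw [Real.logb]; norm_num
      rw [h7] at h6
      have h8 : (2 : ℝ) ≤ Real.log 8 := by
        have : Real.log 8 = 3 * Real.log 2 := by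
          rw [show (8 : ℝ) = 2 ^ (3 : ℕ) by norm_num, Real.log_pow]; norm_num
        rw [this]
        have := Real.log_two_gt_d9
        linarith
      refine h6.trans ?_
      exact div_le_div_of_nonneg_left (by linarith) (by norm_num) h8
    rw [hm1]
    push_cast
    linarith
  have h9 : (0 : ℝ) ≤ m1 := Nat.cast_nonneg _
  calc ({l ∈ Rset M | ∀ p, |l p| ≤ N}.ncard : ℝ) ≤ (m1 * m1 * 576 : ℕ) := by
        exact_mod_cast h1.trans h2
    _ = (m1 : ℝ) * m1 * 576 := by push_cast; ring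
    _ ≤ (20 * Real.log N) * (20 * Real.log N) * 576 := by gcongr
    _ = _ := by ring

end Pool.Agent.Y302.Trunc
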